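import Pool.Agent.Lib.MP_7d41f7_al.H.HVan
import Pool.Agent.Lib.MP_7d41f7_al.E.ETor
import Pool.Agent.Lib.MP_7d41f7_al.L.GA

/-! Vanishing elements of the groups over small fields. -/

set_option autoImplicit false

namespace Pool.Agent.Lib.MP_7d41f7_al

variable {l l' : ℕ} {M : Matrix (Fin l) (Fin l) ℤ} {θ : Lat l} {i j : Fin l}
  {g g₀ g₁ : Equiv.Perm (Fin l)} {k q r : ℕ}

theorem adj_congr {G H : Type} [Group G] [Group H] (f : G →* H) (hf : Function.Injective f)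
    {u : ℕ} (h : Adj G u r) : Adj H u r :=
  h.elim fun x hx => ⟨f x, (orderOf_injective f hf x).trans hx⟩

namespace CG

variable {K Γ : Type} [Field K] [Group Γ] {C : CG M K Γ} {σ : Γ →* Γ} {f : K →+* K}
  (hA : Ade M) (hS : Sy M g) (hσ : C.Hom C σ f (ga g))
include hA hS hσ

theorem exists_nu {ν : Lat l} (hν : ∀ j, ν (g j) = ν j) {c : Kˣ} (hc : f c = c) :
    ∃ t ∈ C.T, t ∈ C.St σ ∧ ∃ χ, C.Chi t χ ∧ ∀ b, χ (.ofAdd b) = c ^ ip M ν b := by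
  obtain ⟨t, h1, h2, h3⟩ := exists_hT hA hS hσ (t := fun j => c ^ ν j) fun j => by simp [hν, hc]
  refine ⟨t, h1, h2, _, h3, fun b => (ccs_apply (M := M) (fun j => c ^ ν j) b).trans ?_⟩
  rw [ip_comm, ip_sum]
  simp only [← zpow_mul, ip_comm (M := M) b]
  exact (map_prod (zpowersHom Kˣ c) (fun j => .ofAdd (ν j * ip M (sr j) b)) _).symm

omit hS in
/-- An element of order `r` that commutes with the root element gives an element of order
`p * r`. -/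
theorem not_com [Finite K] [Finite Γ] (hθ : θ ∈ roots M) (h0 : 0 ≤ θ) (gθ : ga g θ = θ)
    (hr : r.Prime) (h1 : ¬ r ∣ Nat.card K)
    (h : ∀ p, p.Prime → p ∣ Nat.card K → ¬ Adj (C.St σ) p r) :
    ∀ z ∈ C.St σ, orderOf z = r → ¬ Commute z (C.x θ 1) := fun z hz ho hc => by
  have m : C.x θ 1 ∈ C.St σ := Subgroup.subset_closure ⟨.inl (x_mem hθ h0 1), by
    rw [hσ.x θ hθ, gθ, map_one]⟩
  obtain ⟨p, hp, d⟩ := Nat.exists_prime_and_dvd
    (mt orderOf_eq_one_iff.1 fun e => one_ne_zero (C.inj θ hθ 1 e))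
  obtain ⟨n, hn⟩ := U_pow hA (x_mem (C := C) (Ψ := {a | 0 ≤ a}) hθ h0 1)
  have d1 := hp.dvd_of_dvd_pow (d.trans (orderOf_dvd_of_pow_eq_one hn))
  exact h p hp d1 (adj_of_commute hp hr (fun e => h1 (e ▸ d1)) (x := ⟨_, m⟩) (y := ⟨z, hz⟩)
    (by rwa [Subgroup.orderOf_mk]) (by rw [Subgroup.orderOf_mk, ho]) (Subtype.ext hc.symm.eq))

theorem st_line [Finite K] [Finite Γ] (hθ : θ ∈ roots M) (p0 : 0 ≤ θ)
    (h0 : ∀ k, ip M (sr k) θ = if k = i then 1 else 0) (hj : ip M (sr j) (sr i) = -1)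
    (gi : g i = i) (gθ : ∀ k, θ (g k) = θ k) {c : Kˣ} (hc : f c = c) (ho : 2 < orderOf c)
    (h3 : ∃ t ∈ C.T, t ∈ C.St σ ∧ ∃ χ, C.Chi t χ ∧ ∃ d : Kˣ, d ≠ 1 ∧
      ∀ b, ga g b = b → χ (.ofAdd b) = d ^ ip M (sr j) b)
    (hr : r.Prime) (h1 : ¬ r ∣ Nat.card K) (h2 : ¬ r ∣ Nat.card K - 1)
    (h : ∀ p, p.Prime → p ∣ Nat.card K → ¬ Adj (C.St σ) p r) (x : C.St σ)
    (hx : r ∣ orderOf x) : orderOf x ∈ Vo (C.St σ) := by
  have e : ga g θ = θ := funext fun k => by rw [ga_apply, ← gθ, g.apply_symm_apply]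
  refine van_line hA (St_cl hA hS hσ) hθ (fun k => by rw [h0]; split_ifs <;> decide)
    (fun w hw hne => ?_) hr h2 (not_com hA hσ hθ p0 e hr h1 h) x hx
  obtain ⟨w1, w2⟩ := mem_Wf.1 (St_Vw hA hS hσ ▸ hw)
  have e1 : ga g (w θ) = w θ := by rw [← LinearEquiv.mul_apply, ← w2, LinearEquiv.mul_apply, e]
  have s : ∀ {d : Kˣ} {ν : Lat l}, d ^ ip M ν (w θ) = d ^ ip M ν θ → d ^ ip M ν (θ - w θ) = 1 :=
    fun k => by rw [ip_sub_right, zpow_sub, k, mul_inv_cancel]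
  have k : ∀ ν : Lat l, (∀ j, ν (g j) = ν j) → ip M ν (θ - w θ) = 1 ∨ ip M ν (θ - w θ) = 2 →
      ∃ t ∈ C.T, t ∈ C.St σ ∧ ∃ χ, C.Chi t χ ∧ χ (.ofAdd (w θ)) ≠ χ (.ofAdd θ) := fun ν a b => by
    obtain ⟨t, t1, t2, χ, t3, t4⟩ := exists_nu hA hS hσ a hc
    refine ⟨t, t1, t2, χ, t3, fun n => ?_⟩
    rw [t4, t4] at n
    have := Int.le_of_dvd (by omega) (orderOf_dvd_iff_zpow_eq_one.2 (s n))
    omega
  rcases hA.line_exp hθ h0 hj ((hA.W_root w1).2 hθ) hne with a | a | a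
  · exact k _ gθ a
  · refine k _ (fun j => ?_) a
    simp only [sr, Pi.single_apply]
    exact if_congr ⟨fun b => g.injective (b.trans gi.symm), fun b => b ▸ gi⟩ rfl rfl
  · obtain ⟨t, t1, t2, χ, t3, d, d1, t4⟩ := h3
    refine ⟨t, t1, t2, χ, t3, fun n => d1 ?_⟩
    rw [t4 _ e, t4 _ e1] at n
    have := s n
    rcases a with a | a <;> simpa [a] using this

end CG

variable {S : Type} [Group S] {x : Ex}

theorem Tp.line (T : Tp M g g₀ g₁ k l') (h : IsCh S M g k q) (hq : 4 ≤ q)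
    (hθ : ip M θ θ = 2 ∧ (∀ k, 0 ≤ θ k) ∧ (∀ k, ip M (sr k) θ = if k = i then 1 else 0) ∧
      ip M (sr j) (sr i) = -1 ∧ g i = i ∧ ∀ k, θ (g k) = θ k)
    (h3 : ∀ (K : Type) [Field K] [Finite K] (f : K →+* K), Nat.card K = q ^ k →
      (∀ a, f a = a ^ q) → ∃ t ∈ TFs f g, ∃ d : Kˣ, d ≠ 1 ∧
        ∀ b, ga g b = b → ∏ j, t j ^ ip M (sr j) b = d ^ ip M (sr j) b)
    (hr : r.Prime) (h1 : 0 < Ord q r) (h2 : ¬ Ord q r ∣ k)
    (ha : ∀ p, p.Prime → p ∣ q → ¬ Adj S p r) (y : S) (hy : r ∣ orderOf y) :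
    orderOf y ∈ Vo S := by
  obtain ⟨K, _, _, f, τ, hK, hf, hτ, ⟨e⟩⟩ := T.model h
  obtain ⟨c, c1, c2⟩ := exists_fix_unit K T.pos hK
  obtain ⟨t, t1, d, d1, t2⟩ := h3 K f hK hf
  obtain ⟨z, z1, z2, z3⟩ := CG.exists_hT T.ade T.sy hτ t1
  obtain ⟨a1, a2, a3, a4, a5, a6⟩ := hθ
  rw [Vo_congr e, ← e.orderOf_eq y] at *
  refine CG.st_line T.ade T.sy hτ (T.ade.mem_roots.2 a1) a2 a3 a4 a5 a6 ((hf c).trans c1)
    (by omega) ⟨z, z1, z2, _, z3, d, d1, fun b hb => (ccs_apply t b).trans (t2 b hb)⟩ hr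
    (hK ▸ hr.coprime_iff_not_dvd.1 ((Tp.lat_aux hr h1).pow_right k)) (fun d => h2 ?_)
    (fun p hp d a => ha p hp (hp.dvd_of_dvd_pow (hK ▸ d))
      (adj_congr e.symm.toMonoidHom e.symm.injective a)) _ hy
  rw [← Int.natCast_dvd_natCast, Nat.cast_pred Nat.card_pos, hK, Nat.cast_pow] at d
  exact (Ord.dvd_iff k).1 d

theorem line_fix (hk : 0 < k) (hq : 4 ≤ q) (gj : g j = j) (K : Type) [Field K] [Finite K]
    (f : K →+* K) (hK : Nat.card K = q ^ k) (hf : ∀ a, f a = a ^ q) :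
    ∃ t ∈ TFs f g, ∃ d : Kˣ, d ≠ 1 ∧
      ∀ b, ga g b = b → ∏ j, t j ^ ip M (sr j) b = d ^ ip M (sr j) b := by
  obtain ⟨c, c1, c2⟩ := exists_fix_unit K hk hK
  refine ⟨Pi.mulSingle j c, fun k => ?_, c, fun e => ?_, fun b _ => ?_⟩
  · by_cases e : k = j
    · simp [e, gj, hf, c1]
    · rw [Pi.mulSingle_eq_of_ne e, Pi.mulSingle_eq_of_ne fun a => e (g.injective (a.trans gj.symm)),
        Units.val_one, map_one]
  · rw [e, orderOf_one] at c2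
    omega
  · rw [Finset.prod_eq_single j (fun k _ e => by rw [Pi.mulSingle_eq_of_ne e, one_zpow])
      (by simp), Pi.mulSingle_eq_same]

theorem line_D4 (hk : k = 1 ∨ k = 3) (hq : ¬ q ^ k - 1 ∣ 1 + q + q * q) (K : Type) [Field K]
    [Finite K] (f : K →+* K) (hK : Nat.card K = q ^ k) (hf : ∀ a, f a = a ^ q) :
    ∃ t ∈ TFs f gD4, ∃ d : Kˣ, d ≠ 1 ∧
      ∀ b, ga gD4 b = b → ∏ j, t j ^ ip mD4 (sr j) b = d ^ ip mD4 (sr 0) b := by
  obtain ⟨c, hc⟩ := IsCyclic.exists_ofOrder_eq_natCard (α := Kˣ)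
  rw [Nat.card_units, hK] at hc
  have h1 := card_TF_one_aux1 hK
  have h2 : ∀ a : K, ((a ^ q) ^ q) ^ q = a := fun a => by
    rcases hk with rfl | rfl
    · rw [pow_one] at h1
      rw [h1, h1, h1]
    · rw [← pow_mul, ← pow_mul, ← pow_three, h1]
  refine ⟨![c, 1, c ^ q, (c ^ q) ^ q], fun j => ?_, c ^ (1 + q + q * q),
    fun e => hq (hc ▸ orderOf_dvd_of_pow_eq_one e), fun b hb => ?_⟩
  · rw [hf]
    fin_cases j
    exacts [Units.val_pow_eq_pow_val _ _, (one_pow q).symm, Units.val_pow_eq_pow_val _ _,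
      (h2 c).symm.trans (by simp)]
  · have e : ∀ j, ip mD4 (sr (gD4 j)) b = ip mD4 (sr j) b := fun j => by
      rw [← ga_sr, ← sy_D4.ip (sr j) b, hb]
    have e2 : ip mD4 (sr 2) b = ip mD4 (sr 0) b := e 0
    have e3 : ip mD4 (sr 3) b = ip mD4 (sr 2) b := e 2
    simp [Fin.prod_univ_four, e3, e2, pow_add, pow_mul, mul_zpow]

/-- The degree of the field of the model. -/
def Ex.dk : Ex → ℕ
  | .U6 => 2 | .D3 => 3 | _ => 1

/-- If no element has order `p * r`, then the elements of order divisible by `r` vanish. -/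
theorem IsChev.van' (h : IsChev S x q) (hq : 4 ≤ q) (hG : x = .G2 → 5 ≤ q) (hr : r.Prime)
    (h1 : 0 < Ord q r) (h2 : ¬ Ord q r ∣ x.dk) (ha : ∀ p, p.Prime → p ∣ q → ¬ Adj S p r) (y : S)
    (hy : r ∣ orderOf y) : orderOf y ∈ Vo S := by
  cases x
  · exact (tp_one ade_E6).line (θ := ![1, 2, 2, 3, 2, 1]) (i := 1) (j := 3) h hq
      (by decide +kernel) (line_fix one_pos hq rfl) hr h1 h2 ha y hy
  · exact tp_U6.line (θ := ![1, 2, 2, 3, 2, 1]) (i := 1) (j := 3) h hq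
      (by decide +kernel) (line_fix two_pos hq (by decide)) hr h1 h2 ha y hy
  · exact (tp_one ade_E7).line (θ := ![2, 2, 3, 4, 3, 2, 1]) (i := 0) (j := 2) h hq
      (by decide +kernel) (line_fix one_pos hq rfl) hr h1 h2 ha y hy
  · exact (tp_one ade_E8).line (θ := ![2, 3, 4, 6, 5, 4, 3, 2]) (i := 7) (j := 6) h hq
      (by decide +kernel) (line_fix one_pos hq rfl) hr h1 h2 ha y hy
  · exact tp_F4.line (θ := ![1, 2, 2, 3, 2, 1]) (i := 1) (j := 3) h hq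
      (by decide +kernel) (line_fix one_pos hq (by decide)) hr h1 h2 ha y hy
  · refine tp_G2.line (θ := ![1, 2, 1, 1]) (i := 1) (j := 0) h hq
      (by decide +kernel) (line_D4 (.inl rfl) fun d => ?_) hr h1 h2 ha y hy
    obtain ⟨u, rfl⟩ : ∃ u, q = u + 1 := ⟨q - 1, by omega⟩
    rw [pow_one, Nat.add_sub_cancel, show 1 + (u + 1) + (u + 1) * (u + 1) = u * (u + 3) + 3 by ring,
      Nat.dvd_add_right (dvd_mul_right _ _)] at d
    have := Nat.le_of_dvd three_pos d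
    have := hG rfl
    omega
  · refine tp_D3.line (θ := ![1, 2, 1, 1]) (i := 1) (j := 0) h hq
      (by decide +kernel) (line_D4 (.inr rfl) fun d => ?_) hr h1 h2 ha y hy
    have := Nat.le_of_dvd (by omega) d
    have : 4 * (q * q) ≤ q ^ 3 := by nlinarith
    have : 4 * q ≤ q * q := by nlinarith
    omega

end Pool.Agent.Lib.MP_7d41f7_al
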