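import Pool.Agent.Lib.MP_7d41f7_al.H.HRe
import Pool.Agent.Lib.MP_7d41f7_al.D.RY

/-! The data for the groups with an isolated torus over small fields. -/

set_option autoImplicit false

namespace Pool.Agent.Lib.MP_7d41f7_al

variable {S G : Type} [Group S] [Group G] {x : Ex} {y : Re} {q m : ℕ}

/-- The torus of `G₂(q)` and `³D₄(q)`. -/
theorem IsChev.itor (h : IsChev S x q) (hx : x = .G2 ∨ x = .D3) (hq : 2 ≤ q)
    (ho : (Nat.card S : ℤ) = x.ord q) : 1 < x.tor q ∧ x.tor q ∣ Nat.card S ∧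
      ∀ r, r.Prime → r ∣ x.tor q → (0 < Ord q r ∧ ¬ Ord q r ∣ x.dk) ∧ Cyc S r ∧
        (r ∣ Nat.card S → ∃ z : S, orderOf z = x.tor q) ∧ ∀ u, Adj S u r → u ∣ x.tor q := by
  rw [← Int.natCast_dvd_natCast, ho]
  rcases hx with rfl | rfl
  · obtain ⟨E, hE, A⟩ := tar_G2 (q := q) hq
    refine ⟨?_, ?_, fun r hr h1 => ?_⟩
    · have : q < q ^ 2 := by nlinarith
      unfold Ex.tor
      split_ifs <;> first | omega | contradiction
    · rw [Ex.ord, Ex.tor, if_neg (by decide)]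
      split_ifs
      · exact ⟨q ^ 6 * (q - 1) * (q ^ 3 + 1) * (q ^ 2 - 1), by push_cast; ring⟩
      · exact ⟨q ^ 6 * (q + 1) * (q ^ 3 - 1) * (q ^ 2 - 1), by
          push_cast [Nat.cast_sub (Nat.le_self_pow two_ne_zero q)]; ring⟩
    · obtain ⟨a1, a2⟩ := A.pr r hr h1
      have a3 : 2 < 2 * (Ord q r).totient := by rw [a1, hE]; omega
      exact ⟨a1 ▸ ⟨A.pos, A.nd⟩, tp_G2.cyc h hr (by omega) (gd_of_lt _ hr (by omega)) a3,
        tp_G2.tor h rfl ![0, 1, 0, 0] ![0, 1] (by decide) (by decide) (fun _ => tq_G2) A hE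
          (by omega) hr h1⟩
  · have A := tar_D3 (q := q) hq
    have h0 : q ^ 2 < q ^ 4 := Nat.pow_lt_pow_right (by omega) (by omega)
    refine ⟨by simpa [Ex.tor] using h0, ⟨q ^ 12 * (q ^ 4 + q ^ 2 + 1) * (q ^ 6 - 1) * (q ^ 2 - 1),
      by simp only [Ex.ord, Ex.tor, if_true]; push_cast [Nat.cast_sub h0.le]; ring⟩,
      fun r hr h1 => ?_⟩
    obtain ⟨a1, a2⟩ := A.pr r hr h1
    have a3 : 4 < 2 * (Ord q r).totient := by rw [a1]; decide
    exact ⟨a1 ▸ ⟨A.pos, A.nd⟩, tp_D3.cyc h hr (by omega) (gd_of_lt _ hr (by omega)) a3,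
      tp_D3.tor h (by decide) id id (fun _ => rfl) (by simp) (fun _ => tq_D3) A (by decide)
        (by omega) hr h1⟩

theorem IsChev.ivan (h : IsChev S x q) (hx : x = .G2 ∨ x = .D3) (hq : 4 ≤ q)
    (hG : x = .G2 → 5 ≤ q) (ho : (Nat.card S : ℤ) = x.ord q) {r : ℕ} (hr : r.Prime)
    (d : r ∣ x.tor q) (z : S) (hz : r ∣ orderOf z) : orderOf z ∈ Vo S := by
  have h3 := (h.itor hx (by omega) ho).2.2
  refine h.van' hq hG hr (h3 r hr d).1.1 (h3 r hr d).1.2 (fun p hp e a => ?_) z hz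
  exact (h3 p hp ((h3 r hr d).2.2.2 p a)).1.1.ne' (Ord.eq_zero hp (Int.natCast_dvd_natCast.2 e))

/-- The data follow from the vanishing of the elements of the torus. -/
theorem IsChev.idata_of [Finite G] (h : IsChev S x q) (hx : x = .G2 ∨ x = .D3) (hq : 2 ≤ q)
    (ho : (Nat.card S : ℤ) = x.ord q) (hc : Nat.card G = Nat.card S) (hV : Vo G = Vo S)
    (hv : ∀ r, r.Prime → r ∣ x.tor q → ∀ z : S, r ∣ orderOf z → orderOf z ∈ Vo S) :
    IData G x q := by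
  have := h.finite
  obtain ⟨h1, h2, h3⟩ := h.itor hx hq ho
  refine ⟨hc ▸ ho, ?_, fun r u hr hu d1 d2 a => d2 ((h3 r hr d1).2.2.2 u ((transfer_adj hr
    ((Nat.coprime_primes hu hr).2 fun e => d2 (e ▸ d1)) hc hV (h3 r hr d1).2.1 (hv r hr d1)).1 a))⟩
  obtain ⟨r, hr, d⟩ := Nat.exists_prime_and_dvd h1.ne'
  obtain ⟨z, hz⟩ := (h3 r hr d).2.2.1 (d.trans h2)
  obtain ⟨y, hy, -⟩ := hV ▸ hv r hr d z (hz ▸ d)
  exact ⟨y, hy.trans hz⟩

theorem IsChev.idata' [Finite G] (h : IsChev S x q) (hx : x = .G2 ∨ x = .D3) (hq : 4 ≤ q)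
    (hG : x = .G2 → 5 ≤ q) (ho : (Nat.card S : ℤ) = x.ord q) (hc : Nat.card G = Nat.card S)
    (hV : Vo G = Vo S) : IData G x q :=
  h.idata_of hx (by omega) ho hc hV fun _ => h.ivan hx hq hG ho

theorem IsRee.rdata' [Finite G] (h : IsRee S y m) (hm : 1 ≤ m) (hc : Nat.card G = Nat.card S)
    (hV : Vo G = Vo S) : RData G y m := by
  obtain ⟨A, _, f, a, i⟩ := h.amb
  have := a.finite
  have := h.finite
  exact .of a.isol f i h.card (fun _ => h.van' hm) hc hV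

end Pool.Agent.Lib.MP_7d41f7_al
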