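import Pool.Agent.Lib.MP_7d41f7_al.H.JS
import Pool.Agent.Lib.MP_7d41f7_al.D.JMain

/-! The section of a group with the data of `G₂(q)` or `³D₄(q)`, `8 ≤ q` or `3 ≤ q`. -/

set_option autoImplicit false

namespace Pool.Agent.Lib.MP_7d41f7_al.Lo

open Subgroup

variable {G : Type} [Group G] [Finite G] {x : Ex} {c p f : ℕ}

theorem jmain (hp : p.Prime) (hf : 0 < f) (hx : x = .G2 ∨ x = .D3)
    (hq : 8 ≤ x.jw (p ^ f)) (h : IData G x (p ^ f)) :
    ∃ (K : Subgroup G) (_ : K.Normal) (H : Subgroup (G ⧸ K)), H.Normal ∧ IsSimpleGroup H ∧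
      ¬ IsMulCommutative H ∧ centralizer (H : Set (G ⧸ K)) = ⊥ ∧ HOutE H x (p ^ f) := by
  obtain ⟨t, ot⟩ := h.tor
  obtain ⟨F, F0, hF⟩ : ∃ F, 0 < F ∧ x.jw (p ^ f) = p ^ F := by
    unfold Ex.jw
    split_ifs
    exacts [⟨f * 2, by omega, (pow_mul p f 2).symm⟩, ⟨f, hf, rfl⟩]
  obtain ⟨c, e, J⟩ := exists_jb hx hp F0 hF hq
  have I : Isol t c := ⟨Int.natCast_inj.1 (by
    rw [h.card, jy_ord hx, hF, ← J.ord, ot, Nat.cast_mul]),
    ot ▸ J.cop, fun r u hr hu d1 d2 => h.adj r u hr hu (ot ▸ d1) fun d =>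
      Nat.not_coprime_of_dvd_of_dvd hu.one_lt d d2 J.cop⟩
  rw [← ot] at J
  obtain ⟨K, _, kg, kmax⟩ := exists_core' (G := G) fun r => r ∣ orderOf t
  have rad : ∀ u, u.Prime → u ∣ Nat.card K → u = p ∧ F * 3 ≤ (Nat.card K).factorization u :=
    fun u hu d => J.rad hp F0 hu (hu.factorization_pos_of_dvd Nat.card_pos.ne' d)
      (I.free K kg hu d).1 (I.free K kg hu d).2
  obtain ⟨j, hj⟩ : ∃ j, Nat.card K = p ^ j :=
    ⟨_, Nat.eq_prime_pow_of_unique_prime_dvd Nat.card_pos.ne' fun hd d => (rad _ hd d).1⟩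
  have jj : (j = 0 ∨ F * 3 ≤ j) ∧ p ^ j ≡ 1 [MOD orderOf t] := by
    rcases j.eq_zero_or_pos with rfl | j0
    · exact ⟨.inl rfl, rfl⟩
    have d : p ∣ Nat.card K := hj ▸ dvd_pow_self p j0.ne'
    have a := (rad p hp d).2
    have b := (I.free K kg hp d).2
    rw [hj, hp.factorization_pow, Finsupp.single_eq_same] at a b
    exact ⟨.inr a, b⟩
  obtain ⟨ot', d, rfl, I'⟩ := I.quot K kg
  rw [hj] at J
  have mk : ∀ n a, 0 < a → a ≤ 3 → n * a = orderOf t * d → JD x p F j n := fun n a h1 h2 h3 =>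
    ⟨hp, F0, J.big, J.cr, jj.1, a, h1, h2, by
        rw [h3, ← J.ord, ← Nat.cast_mul, mul_assoc, mul_comm d]⟩
  have q0 := J.big
  have q1 := Nat.pow_le_pow_left q0 2
  have bd := J.bd
  have t1 : (t : G ⧸ K) ≠ 1 := fun a => by
    rw [a, orderOf_one] at ot'
    omega
  have := nontrivial_of_ne _ _ t1
  have ee := J.ee
  obtain ⟨H, h0, h1, h2, h3, tH, h4, h5⟩ := I'.top (e := e) (fun r hr a => by
    rw [ot'] at a
    refine ⟨(J.he hr a).1, .trans ?_ (J.he hr a).2⟩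
    simpa using ((jj.2.of_dvd a).mul_right d).symm) (by
      rintro rfl
      have := pw_gap (A := 8) (B := 2) (C := 20) (n := 2) (by omega) ((mk (orderOf t * 2) (e / 2) (by omega)
        (by omega) (by rw [mul_assoc, Nat.mul_div_cancel' (by omega)])).lo.trans (by omega))
        (by omega)
      omega) fun M hM h0 => by
    by_contra a
    push Not at a
    refine h0 (eq_bot_iff.2 fun y hy => ?_)
    obtain ⟨y, rfl⟩ := QuotientGroup.mk'_surjective K y
    refine (QuotientGroup.eq_one_iff y).2 (kmax (M.comap (QuotientGroup.mk' K)) inferInstance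
      (fun r hr g b => ?_) hy)
    exact (hr.dvd_mul.1 (b.trans (QuotientGroup.card_preimage_mk K M).dvd)).elim (kg r hr g)
      (a r hr (ot' ▸ g))
  have D := mk (Nat.card H) H.index (Nat.pos_of_ne_zero H.index_ne_zero_of_finite) (by
    obtain ⟨k, hk⟩ := h4
    generalize H.index = a at *
    rcases k with _ | _ | k
    · omega
    · omega
    · rw [mul_add, mul_add] at hk
      omega) (by rw [H.card_mul_index, I'.card, ot'])
  have om : ∀ {m u : ℕ}, IsOm H m u → ∃ v g : ℕ, v.Prime ∧ 0 < g ∧ v ^ g = u :=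
    fun ⟨F, _, _, _, e, _⟩ => e ▸ card_vg F
  refine ⟨K, inferInstance, H, h0, h1, h2, h3, fun m => ⟨fun φ => ?_⟩, fun m E _ _ => ⟨fun φ => ?_⟩,
    fun m u hm a b => ?_, fun m u hm a b => ?_, fun ε m u hε hm a b => ?_, fun y u hu a => ?_,
    fun u hu a => ?_, D.not_spor⟩
  · rcases subsingleton_or_nontrivial (Fin m) with a | a
    · have := φ.injective.subsingleton
      exact false_of_nontrivial_of_subsingleton H
    have o : orderOf (φ ⟨t, tH⟩ : Equiv.Perm (Fin m)) = orderOf (t : G ⧸ K) := by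
      rw [Subgroup.orderOf_coe, φ.orderOf_eq, Subgroup.orderOf_mk]
    refine D.not_alt (m := m) ?_ (bd.1.trans (Nat.mul_le_mul_left 5 (ot' ▸ o ▸ perm_le
      (fun r hr b => alt_lt hr (by have := (J.he hr (ot' ▸ o ▸ b)).1; omega)
        (((I'.cyc hr (o ▸ b)).sub hr H).of_surj (φ := φ.toMonoidHom) φ.surjective hr))
      fun a => t1 ?_)))
    · rw [Nat.card_congr φ.toEquiv, two_mul_nat_card_alternatingGroup, Nat.card_perm, Nat.card_fin]
    · rwa [a, orderOf_one, eq_comm, orderOf_eq_one_iff] at o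
  · have hm : 2 ≤ m := by
      by_contra hm
      have := pl_small (F := E) (not_le.1 hm)
      have := φ.injective.subsingleton
      exact false_of_nontrivial_of_subsingleton H
    obtain ⟨v, g, hv, hg, a⟩ := card_vg E
    exact D.lin hv hg hm (by
      rw [Nat.card_congr φ.toEquiv, a]
      exact card_PL (by omega))
  · obtain ⟨E, _, _, _, e1, -⟩ := a
    obtain ⟨v, g, hv, hg, e2⟩ := card_vg E
    obtain ⟨v, g, hv, hg, rfl⟩ := (isPrimePow_nat_iff u).1 ((isPrimePow_pow_iff two_ne_zero).1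
      (e1 ▸ e2 ▸ hv.prime.isPrimePow.pow hg.ne'))
    exact D.uni hv hg hm b
  · obtain ⟨v, g, hv, hg, rfl⟩ : ∃ v g : ℕ, v.Prime ∧ 0 < g ∧ v ^ g = u :=
      a.elim (fun ⟨E, _, _, e, _⟩ => e ▸ card_vg E) om
    exact D.sym hv hg hm b
  · obtain ⟨v, g, hv, hg, rfl⟩ := om a
    exact D.ort hv hg hm hε b
  · obtain ⟨v, g, hv, hg, rfl⟩ := (isPrimePow_nat_iff u).1 hu
    obtain ⟨rfl, b⟩ := D.exc hx hv hg a
    rw [← hF, Ex.jw, Ex.jw] at b
    split_ifs at b
    exacts [⟨rfl, Nat.pow_left_injective two_ne_zero b⟩, ⟨rfl, b⟩]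
  · obtain ⟨v, g, hv, hg, rfl⟩ := (isPrimePow_nat_iff u).1 hu
    exact D.ree hv hg a

end Pool.Agent.Lib.MP_7d41f7_al.Lo
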