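import Pool.Agent.Lib.MP_7d41f7_al.D.AFin
import Pool.Agent.Lib.MP_7d41f7_al.H.EMain
import Pool.Agent.Lib.MP_7d41f7_al.H.JMain
import Pool.Agent.Lib.MP_7d41f7_al.H.RMain
import Pool.Agent.Lib.MP_7d41f7_al.H.HDat

/-! The exceptional groups over fields that are not small. -/

set_option autoImplicit false

namespace Pool.Agent.Lib.MP_7d41f7_al

variable {G S : Type} [Group G] [Group S] [Finite G] {x : Ex} {y : Re} {q m : ℕ}

theorem Ex.cen_ord (x : Ex) (u : ℤ) : 0 < x.cen u ∧ ∀ r, r.Prime → r ∣ x.cen u → Ord u r ≤ 2 := by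
  have k : ∀ (a b : ℤ) (r : ℕ), b ∣ u ^ 2 - 1 → r ∣ a.gcd b → Ord u r ≤ 2 := fun a b r h1 h2 =>
    Ord.le_of two_pos (((Int.natCast_dvd_natCast.2 h2).trans (Int.gcd_dvd_right a b)).trans h1)
  have k1 : u - 1 ∣ u ^ 2 - 1 := ⟨u + 1, by ring⟩
  have k2 : u + 1 ∣ u ^ 2 - 1 := ⟨u - 1, by ring⟩
  have k3 : 0 < 1 ∧ ∀ r, r.Prime → r ∣ 1 → Ord u r ≤ 2 :=
    ⟨one_pos, fun r hr a => (hr.not_dvd_one a).elim⟩
  cases x
  exacts [⟨Int.gcd_pos_of_ne_zero_left _ (by decide), fun r _ => k _ _ r k1⟩,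
    ⟨Int.gcd_pos_of_ne_zero_left _ (by decide), fun r _ => k _ _ r k2⟩,
    ⟨Int.gcd_pos_of_ne_zero_left _ (by decide), fun r _ => k _ _ r k1⟩, k3, k3, k3, k3]

/-- The vanishing of the elements of the torus is a hypothesis. -/
theorem all_chevI_of (h : IsChev S x q) (hx : x = .G2 ∧ 8 ≤ q ∨ x = .D3 ∧ 3 ≤ q)
    (hv : ∀ r, r.Prime → r ∣ x.tor q → ∀ z : S, r ∣ orderOf z → orderOf z ∈ Vo S)
    (hc : Nat.card G = Nat.card S) (hV : Vo G = Vo S) : Nonempty (G ≃* S) ∨ Off4 G := by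
  obtain ⟨p, f, hp, hf, rfl⟩ := (isPrimePow_nat_iff q).1 h.pp
  have e := hx.imp And.left And.left
  refine fin_of hc (p := fun H _ => HOutE H x (p ^ f)) (Lo.jmain hp hf e ?_
    (h.idata_of e (by omega) (by rcases e with rfl | rfl <;> simpa [Ex.cen] using h.card) hc hV hv))
    fun H _ a l => h.iso (a.hit l)
  rcases hx with ⟨rfl, a⟩ | ⟨rfl, a⟩
  exacts [a, le_trans (by norm_num) (Nat.pow_le_pow_left a 2)]

theorem all_chevI (h : IsChev S x q) (hx : x = .G2 ∧ 8 ≤ q ∨ x = .D3 ∧ 4 ≤ q)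
    (hc : Nat.card G = Nat.card S) (hV : Vo G = Vo S) : Nonempty (G ≃* S) ∨ Off4 G :=
  have e := hx.imp And.left And.left
  all_chevI_of h (hx.imp_right (.imp_right Nat.le_of_succ_le)) (fun _ => h.ivan e (by omega) (by rintro rfl; simp at hx; omega)
    (by rcases e with rfl | rfl <;> simpa [Ex.cen] using h.card)) hc hV

theorem all_chevE (h : IsChev S x q) (hx : x ≠ .G2 ∧ x ≠ .D3) (hq : 256 ≤ q)
    (hc : Nat.card G = Nat.card S) (hV : Vo G = Vo S) : Nonempty (G ≃* S) ∨ Off4 G := by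
  obtain ⟨p, f, hp, hf, rfl⟩ := (isPrimePow_nat_iff q).1 h.pp
  exact fin_of hc (p := fun H _ => HOutE H x (p ^ f)) (Lo.emain hp hf hx hq
    (h.edata (by omega) ⟨_, h.card, (x.cen_ord _).2⟩ hc hV)) fun H _ a l => h.iso (a.hit l)

theorem all_ree' (h : IsRee S y m) (hq : 512 ≤ y.q m) (hc : Nat.card G = Nat.card S)
    (hV : Vo G = Vo S) : Nonempty (G ≃* S) ∨ Off4 G :=
  fin_of hc (p := fun H _ => HOutR H y m) (Lo.rmain hq (h.rdata' (Nat.pos_of_ne_zero (by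
    rintro rfl
    cases y <;> exact absurd hq (by decide))) hc hV)) fun H _ a l => h.iso (a.hit l)

end Pool.Agent.Lib.MP_7d41f7_al
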