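import Pool.Agent.Lib.MP_7d41f7_al.H.HFin
import Pool.Agent.Lib.MP_7d41f7_al.H.FMain
import Pool.Agent.Lib.MP_7d41f7_al.F.Reg

/-! The exceptional groups of large rank with `4 ≤ q`. -/

set_option autoImplicit false

namespace Pool.Agent.Lib.MP_7d41f7_al

variable {G S : Type} [Group G] [Group S] [Finite G] {x : Ex} {q : ℕ}

theorem IsChev.fdata (h : IsChev S x q) (hx : x ∈ bigs)
    (hv : ∀ r, r.Prime → Ord q r ∈ x.rs → ∀ y : S, r ∣ orderOf y → orderOf y ∈ Vo S)
    (hc : Nat.card G = Nat.card S) (hV : Vo G = Vo S) : Mi.FData G x q := by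
  have := h.finite
  obtain ⟨l, M, g, g₀, g₁, k, T, h1, -, -, h4⟩ := h.tp
  obtain ⟨s, -, -, t⟩ := Mi.tm_gs x hx
  have o := fun e he => (Mi.tm_ks x hx e he).1
  have b : 2 < x.bad := by cases x <;> decide
  have c : ∀ r, r.Prime → Ord q r ∈ x.rs → Cyc S r := fun r hr a =>
    T.cyc h1 hr (by have := (o _ (s a)).lt hr; omega) (h4 r hr ((o _ (s a)).lt hr)) (t _ a).1
  refine ⟨hc ▸ ⟨_, h.card, (x.cen_ord _).2⟩,
    fun r hr a => transfer_cyc hr hc hV (c r hr a) (hv r hr a), fun r u hr hu a a' e ad => ?_⟩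
  have := T.adj h1 hr hu (h4 r hr ((o _ (s a)).lt hr)) (h4 u hu ((o _ a').lt hu))
    (by have := (o _ (s a)).1; omega) (by have := (o _ a').1; omega) e
    ((transfer_adj hr ((Nat.coprime_primes hu hr).2 fun s => e (s ▸ rfl)) hc hV (c r hr a)
      (hv r hr a)).1 ad)
  have := (((t _ a).2.2.2.2 _ a').resolve_left e).2
  omega

theorem Ex.rs_rg {e : ℕ} (he : e ∈ x.rs) : e ∈ x.rg := by
  revert e
  cases x <;> decide

/-- The exceptional groups of rank at least four with `4 ≤ q`. -/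
theorem all_chevF (h : IsChev S x q) (hx : x ≠ .G2 ∧ x ≠ .D3) (hq : 4 ≤ q)
    (hc : Nat.card G = Nat.card S) (hV : Vo G = Vo S) : Nonempty (G ≃* S) ∨ Off4 G := by
  rcases le_or_gt 256 q with a | a
  · exact all_chevE h hx a hc hV
  have m : x ∈ bigs := by revert hx; cases x <;> decide
  have D := h.fdata m (fun r hr e => h.reg_van hq hr (Ex.rs_rg e)) hc hV
  obtain ⟨p, f, hp, hf, rfl⟩ := (isPrimePow_nat_iff q).1 h.pp
  exact fin_of hc (p := fun H _ => HOutE H x (p ^ f)) (Mi.emain hp hf hx hq a D)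
    fun H _ a l => h.iso (a.hit l)

end Pool.Agent.Lib.MP_7d41f7_al
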