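import Pool.Agent.Lib.MP_7d41f7_al.H.HDat
import Pool.Agent.Lib.MP_7d41f7_al.F.NDef

/-! The input of the checker for the small groups with an isolated torus. -/

set_option autoImplicit false

namespace Pool.Agent.Lib.MP_7d41f7_al

variable {G S : Type} [Group G] [Group S] [Finite G] {x : Ex} {y : Re} {q m : ℕ}

theorem RData.nd (h : RData G y m) : ND G (y.tor m) (y.tor m) := fun r hr d => by
  obtain ⟨g, c, -, I, h1, h2, -⟩ := h.iso r hr d
  refine ⟨I.cyc hr h1, fun u hu _ a => ?_⟩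
  obtain ⟨z, hz⟩ := id a
  exact ((hu.dvd_mul.1 (I.card ▸ (Dvd.intro _ hz.symm).trans (orderOf_dvd_natCard z))).resolve_right
    fun e => I.nad r u hr hu h1 e a).trans h2

/-- The vanishing of the elements of the torus is a hypothesis. -/
theorem IsChev.ndI (h : IsChev S x q) (hx : x = .G2 ∨ x = .D3) (hq : 2 ≤ q)
    (hv : ∀ r, r.Prime → r ∣ x.tor q → ∀ z : S, r ∣ orderOf z → orderOf z ∈ Vo S)
    (hc : Nat.card G = Nat.card S) (hV : Vo G = Vo S) : ND G (x.tor q) (x.tor q) :=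
  fun r hr d => by
  have := h.finite
  obtain ⟨-, a, -, b⟩ := (h.itor hx hq (by
    rcases hx with rfl | rfl <;> simpa [Ex.cen] using h.card)).2.2 r hr d
  exact ⟨transfer_cyc hr hc hV a (hv r hr d), fun u hu e c => b u
    ((transfer_adj hr ((Nat.coprime_primes hu hr).2 e) hc hV a (hv r hr d)).1 c)⟩

theorem chk_ree : ∀ m < 4, 0 < m → y.q m < 512 → chkS (Ds.ree y m).ord [(y.tor m, y.tor m)]
    [y.tor m] 0 2 [.ree y m] = true := by
  cases y <;> decide +kernel

theorem chk_chevI : ∀ t ∈ [(Ex.G2, 3), (.G2, 4), (.G2, 5), (.G2, 7), (.D3, 2), (.D3, 3)],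
    chkS (Ds.chev t.1 t.2).ord [(t.1.tor t.2, t.1.tor t.2)] [] 0 2 [.chev t.1 t.2] = true := by
  decide +kernel

end Pool.Agent.Lib.MP_7d41f7_al
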