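import Pool.Agent.Lib.MP_7d41f7_al.H.KC

/-! The checker: tools for the input and the exit, and the mode with an isolated subgroup. -/

set_option autoImplicit false

namespace Pool.Agent.Lib.MP_7d41f7_al

open Subgroup Ar

variable {G S : Type} [Group G] [Group S] [Finite G] {t : G} {g c k C r T e E n : ℕ}
  {hs : List ℕ} {al : List Ds}

theorem Isol.nd (I : Isol t c) : ND G (orderOf t) (orderOf t) := fun r hr d =>
  ⟨I.cyc hr d, fun u hu _ a => (hu.dvd_mul.1 (I.card ▸ a.elim fun z hz =>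
    (Dvd.intro _ hz.symm).trans (orderOf_dvd_natCard z))).resolve_right
      fun e => I.nad r u hr hu d e a⟩

omit [Finite G] in
theorem ND.mono (h : ND G k C) {k' C' : ℕ} (hk : k' ∣ k) (hC : C ∣ C') : ND G k' C' :=
  fun r hr d => (h r hr (d.trans hk)).imp_right fun a u hu e b => (a u hu e b).trans hC

theorem ND.transfer (h : ND S k C) (hc : Nat.card G = Nat.card S) (hV : Vo G = Vo S)
    (hv : ∀ r, r.Prime → r ∣ k → ∀ y : S, r ∣ orderOf y → orderOf y ∈ Vo S) : ND G k C :=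
  fun r hr d =>
  have := Nat.finite_of_card_ne_zero (hc ▸ Nat.card_pos.ne' : Nat.card S ≠ 0)
  ⟨transfer_cyc hr hc hV (h r hr d).1 (hv r hr d), fun u hu e a => (h r hr d).2 u hu e
    ((transfer_adj hr ((Nat.coprime_primes hu hr).2 e) hc hV (h r hr d).1 (hv r hr d)).1 a)⟩

theorem ND.of_prime (hr : r.Prime) (h2 : ¬ r ^ 2 ∣ Nat.card S) (hv : r ∈ Vo S)
    (h : ∀ u, u.Prime → u ≠ r → Adj S u r → u ∣ C) (hc : Nat.card G = Nat.card S)
    (hV : Vo G = Vo S) : ND G r C := fun s hs d => by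
  obtain rfl := (Nat.prime_dvd_prime_iff_eq hs hr).1 d
  rw [← hV] at hv
  obtain ⟨y, hy, -⟩ := id hv
  have cy : Cyc G s := cyc_of_order hr (hy.trans (pow_one s).symm) (hc ▸ h2)
  refine ⟨cy, fun u hu e a => h u hu e ?_⟩
  obtain ⟨z, hz, -⟩ := hV ▸ adj_Vo' hr ((Nat.coprime_primes hu hr).2 e) cy hv a
  exact ⟨z, hz⟩

theorem Out.fin (h : Out G al) (hc : Nat.card G = Nat.card S)
    (k : ∀ (H : Type) [Group H], ∀ d ∈ al, IsD H d → Nonempty (H ≃* S)) :
    Nonempty (G ≃* S) ∨ Off5 G := by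
  obtain ⟨K, a, H, b, f⟩ := h
  by_cases l : OnList5 H
  · obtain ⟨d, d1, d2⟩ := f l
    obtain ⟨i⟩ := k H d d1 d2
    exact .inl ((iso_of_card (hc.trans (Nat.card_congr i.toEquiv).symm).le).map fun j => j.trans i)
  · exact .inr ⟨K, a, H, b.nrm, b.sim, b.nab, b.cen, l⟩

theorem OnList5.on4 (h : OnList5 S) : OnList4 S := by
  rcases h with ⟨n, -, h⟩ | (⟨n, q, h⟩ | ⟨x, q, h, -⟩ | ⟨y, m, -, h⟩) | ⟨N, r, h⟩
  · exact .inl ⟨n, h⟩
  · exact .inr (.inl (.inl ⟨n, q, h.imp (.imp_right And.left) (.imp (.imp_right And.left)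
      (.imp_left (.imp_right And.left)))⟩))
  · exact .inr (.inl (.inr (.inl ⟨x, q, h⟩)))
  · exact .inr (.inl (.inr (.inr ⟨y, m, h⟩)))
  · exact .inr (.inr (h.card ▸ (List.of_mem_zip h.mem).1))

omit [Finite G] in
theorem Off4.off5 (h : Off4 G) : Off5 G :=
  let ⟨K, a, H, b, c, d, e, f⟩ := h
  ⟨K, a, H, b, c, d, e, mt OnList5.on4 f⟩

theorem chkI_of {nd : List (ℕ × ℕ)} (nf : ∀ (K : Subgroup G) [K.Normal] (H : Subgroup (G ⧸ K)), Sec K H →
      NF G (Nat.card K) (Nat.card H) H.index 0)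
    (hg : Nat.card G = g) (hn : ∀ x ∈ nd, ND G x.1 x.2) (I : Isol t c) (ht : orderOf t = T)
    (h : chkI g nd hs T e E n al = true) : Out G al := by
  subst hg ht
  have t0 := orderOf_pos t
  simp only [chkI, fN_eq, fL_eq, Bool.and_eq_true, Bool.or_eq_true, Bool.not_eq_true',
    ← Bool.not_eq_true, aN_iff, eL_iff, dv_iff, cp_iff, m1_iff, Nat.beq_eq, Nat.blt_eq,
    Nat.div_eq_of_eq_mul_right t0 I.card] at h
  obtain ⟨⟨hv, h1⟩, ⟨⟨⟨h2, h3⟩, h4⟩, h5⟩, h6⟩ := h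
  have B := valid_bls rfl hn hv
  obtain ⟨K, _, kg, kmax⟩ := exists_core' (G := G) fun r => r ∣ orderOf t
  obtain ⟨ot, d, rfl, I'⟩ := I.quot K kg
  have fr : ∀ u, u.Prime → u ^ (Nat.card K).factorization u ≡ 1 [MOD orderOf t] := fun u hu => by
    by_cases a : u ∣ Nat.card K
    · exact (I.free K kg hu a).2
    · rw [Nat.factorization_eq_zero_of_not_dvd a, pow_zero]
  have de : d ≡ e [MOD orderOf t] :=
    (one_mul d ▸ (mod_of Nat.card_pos.ne' fun u hu _ => fr u hu).symm.mul_right d).trans h2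
  have d0 : 0 < d := Nat.pos_of_mul_pos_left (I'.card ▸ Nat.card_pos)
  obtain ⟨r, hr, dr⟩ := Nat.exists_prime_and_dvd h1.ne'
  have e0 : 0 < e := Nat.pos_of_ne_zero fun a =>
    I'.ne hr (ot ▸ dr) (dr.trans (Nat.modEq_zero_iff_dvd.1 (a ▸ de)))
  have : Nontrivial (G ⧸ K) := Finite.one_lt_card_iff_nontrivial.1
    ((ot ▸ h1).trans_le (Nat.le_of_dvd Nat.card_pos (orderOf_dvd_natCard _)))
  obtain ⟨H, s1, s2, s3, s4, s5, s6, s7⟩ := I'.top (e := e) (fun u hu a => by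
    rw [ot] at a
    refine ⟨not_le.1 fun b => Nat.not_coprime_of_dvd_of_dvd hu.one_lt a ?_ h3, de.of_dvd a⟩
    rw [pN_eq]
    exact Nat.succ_pred_eq_of_pos hu.pos ▸ Finset.dvd_prod_of_mem Nat.succ
      (Finset.mem_range.2 ((Nat.pred_lt hu.ne_zero).trans_le b))) (by
      rintro rfl
      rw [Nat.mul_div_cancel _ e0] at h5
      obtain ⟨b, hb, a⟩ := h5.resolve_left fun a => a (dvd_mul_left _ _)
      exact a (gcd_mod B hb (card_subgroup_dvd_card K) fun u hu _ => fr u hu)) fun M hM h0 => by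
    by_contra a
    push Not at a
    refine h0 (eq_bot_iff.2 fun x hx => ?_)
    obtain ⟨x, rfl⟩ := QuotientGroup.mk'_surjective K x
    refine (QuotientGroup.eq_one_iff x).2 (kmax (M.comap (QuotientGroup.mk' K)) inferInstance
      (fun r hr g b => ?_) hx)
    exact (hr.dvd_mul.1 (b.trans (QuotientGroup.card_preimage_mk K M).dvd)).elim (kg r hr g)
      (a r hr (ot ▸ g))
  have Z : Sec K H := ⟨s1, s2, s3, s4⟩
  exact ⟨K, inferInstance, H, Z, core_sound Z B { nf K H Z with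
    idx := (h4 _ ((Nat.le_of_dvd e0 s6).lt_of_ne s7)).resolve_left fun a => a s6 }
      (.of_flt fun b _ a => (dv_iff.1 a).trans (ot ▸ H.orderOf_dvd_natCard s5)) h6⟩

end Pool.Agent.Lib.MP_7d41f7_al
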