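import Pool.Agent.Lib.MP_7d41f7_al.H.KB
import Pool.Agent.Lib.MP_7d41f7_al.F.NEn

/-! The checker: the candidates. -/

set_option autoImplicit false

namespace Pool.Agent.Lib.MP_7d41f7_al.Ar

open Subgroup

variable {G : Type} [Group G] [Finite G] {bl R : List Blk} {al : List Ds} {d : Ds}
  {m r s n E D : ℕ} {K : Subgroup G} [K.Normal] {H : Subgroup (G ⧸ K)}

theorem alt_two (hr : r.Prime) (h2 : r ≠ 2) (h : r + 4 ≤ m) :
    Adj (alternatingGroup (Fin m)) 2 r := by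
  obtain ⟨x, hx⟩ := (Equiv.Perm.exists_with_cycleType_iff (α := Fin m) (m := {2, 2, r})).2
    ⟨by simp; omega, by simpa using hr.two_le⟩
  refine ⟨⟨x, by simp [Equiv.Perm.sign_of_cycleType, hx, pow_add, pow_succ,
    (hr.odd_of_ne_two h2).neg_one_pow]⟩, ?_⟩
  rw [orderOf_mk, ← Equiv.Perm.lcm_cycleType, hx]
  have := ((Nat.coprime_primes Nat.prime_two hr).2 h2.symm).lcm_eq_mul
  simp [lcm_eq_nat_lcm, this]

theorem alt_odd (hr : r.Prime) (hs : s.Prime) (r2 : r ≠ 2) (s2 : s ≠ 2) (e : r ≠ s)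
    (h : r + s ≤ m) : Adj (alternatingGroup (Fin m)) r s :=
  (alt_elt {r, s} (by simp [*]) (by rwa [Finset.sum_pair e])).imp fun _ a =>
    a.trans (Finset.prod_pair e)

theorem adj_up {X : Type} [Group X] (e : H ≃* X) (a : Adj X r s) : Adj G r s :=
  (a.congr e.symm).of_sub.of_surj (QuotientGroup.mk'_surjective K)

omit [Finite G] in
theorem pr2_sound (B : Bls G bl) {w : ℕ}
    (e : pr2 (flt bl fun b => !dv 2 b.1 && !cp b.1 w) = true) :
    ∃ r s, r.Prime ∧ s.Prime ∧ r ≠ 2 ∧ s ≠ 2 ∧ r ∣ w ∧ s ∣ w ∧ NAd G r s := by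
  simp only [pr2, eL_iff, mem_flt, Bool.and_eq_true, Bool.not_eq_true', ← Bool.not_eq_true,
    dv_iff, cp_iff] at e
  obtain ⟨b, ⟨hb, b1, b2⟩, c, ⟨hc, c1, c2⟩, e⟩ := e
  obtain ⟨r, hr, r1, r2⟩ := Nat.Prime.not_coprime_iff_dvd.1 b2
  obtain ⟨s, hs, s1, s2⟩ := Nat.Prime.not_coprime_iff_dvd.1 c2
  exact ⟨r, s, hr, hs, fun a => b1 (a ▸ r1), fun a => c1 (a ▸ s1), r2, s2,
    na_nad B hb hc e hr hs r1 s1⟩

theorem k3_sound (B : Bls G bl) (hd : IsD H d) (e : k3 bl d = true) : False := by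
  cases d with
  | alt m =>
    obtain ⟨-, ⟨φ⟩⟩ := hd
    simp only [k3, fL_eq, eL_iff, mem_flt, Bool.and_eq_true, Bool.not_eq_true', ← Bool.not_eq_true,
      z0_iff] at e
    obtain ⟨b, ⟨hb, b0, -⟩, e⟩ := e
    obtain ⟨hv, vb⟩ := pr_dvd B hb b0
    cases z : Nat.beq b.2.1 2 <;> rw [z] at e <;>
      simp only [cond_true, cond_false, eL_iff, mem_flt, Bool.and_eq_true, Bool.or_eq_true,
        Bool.not_eq_true', ← Bool.not_eq_true, z0_iff, Nat.ble_eq, Nat.beq_eq] at e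
    · have b2 := Nat.ne_of_beq_eq_false z
      rcases e with ⟨e1, e2⟩ | ⟨c, ⟨hc, c0, -⟩, ⟨e1, e2⟩, e3⟩
      · exact (alt_lt hv b2 (((((B.nd b hb e1 _ hv vb).1.of_surj (QuotientGroup.mk'_surjective K)
          hv).sub hv H)).of_surj (φ := φ.toMonoidHom) φ.surjective hv)).not_ge e2
      · obtain ⟨hw, wc⟩ := pr_dvd B hc c0
        have a := na_nad B hb hc e3 hv hw vb wc
        exact a.2 (adj_up φ (alt_odd hv hw b2 e2 a.1 e1))
    · obtain ⟨c, ⟨hc, c0, -⟩, e1, e2⟩ := e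
      obtain ⟨hw, wc⟩ := pr_dvd B hc c0
      have a := Nat.eq_of_beq_eq_true z ▸ na_nad B hb hc e2 hv hw vb wc
      exact a.2 (adj_up φ (alt_two hw a.1.symm e1))
  | lin m u =>
    simp only [k3, fL_eq, Bool.and_eq_true, Bool.or_eq_true, Nat.beq_eq] at e
    obtain ⟨rfl, e⟩ := e
    obtain ⟨-, F, _, _, rfl, ⟨φ⟩⟩ := hd
    rcases e with e | e <;> obtain ⟨r, s, hr, hs, r2, s2, d1, d2, a⟩ := pr2_sound B e
    · exact a.2 (adj_up φ (adj_L2 hr hs a.1 r2 s2 (.inl ⟨d1, d2⟩)))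
    · exact a.2 (adj_up φ (adj_L2 hr hs a.1 r2 s2 (.inr ⟨d1, d2⟩)))
  | _ => exact Bool.false_ne_true e

theorem idx_dvd (S : Sec K H) (hd : IsD H d) (h : H.index ∣ E) : H.index ∣ d.E E := by
  cases d with
  | spor N r =>
    have := S.nrm
    refine Nat.dvd_gcd h (Nat.dvd_of_mul_dvd_mul_left (Nat.card_pos (α := H)) ?_)
    rw [H.card_mul_index, mul_comm, Spor.card hd]
    refine (card_dvd_of_injective (MulAut.conjNormal (H := H))
      ((injective_iff_map_eq_one _).2 fun x hx => ?_)).trans hd.out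
    refine mem_bot.1 (S.cen ▸ mem_centralizer_iff.2 fun y hy => ?_)
    have := congrArg (fun f : MulAut H => (f ⟨y, hy⟩ : G ⧸ K)) hx
    exact (mul_inv_eq_iff_eq_mul.1 this).symm
  | _ => exact h

theorem cand_sound (S : Sec K H) (B : Bls G bl)
    (F : NF G (Nat.card K) (Nat.card H) H.index E) (hD : D ∣ Nat.card H) (hd : IsD H d)
    (ex : d.ex = false) (e : cand (Nat.card G) E D bl al d (Nat.card H) = true) : d ∈ al := by
  simp only [cand, fL_eq, fN_eq, ex, Bool.or_eq_true, Bool.not_eq_true', ← Bool.not_eq_true,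
    dv_iff, eL_iff, decide_eq_true_eq] at e
  rcases e with ((((e | e) | e) | ⟨a, h1, rfl⟩) | e) | ⟨b, hb, e⟩
  · exact (e (nf_dvd F.toNF0).2.1).elim
  · exact (e hD).elim
  · exact absurd e Bool.false_ne_true
  · exact h1
  · exact (k3_sound B hd e).elim
  · exact (k1_sound B { F with idx := idx_dvd S hd F.idx } (.of_flt fun _ _ => dv_iff.1) hb e).elim

theorem prod_aux (f : Blk → ℕ) (hf : ∀ b, f b ∣ b.1) (l : List Blk) (h0 : ∀ b ∈ l, 0 < b.1)
    (hl : l.Pairwise fun b c => b.1.Coprime c.1) {L : List Blk}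
    (hL : L = rL l (fun b l => (b.1, b.2.1, f b) :: l) [])
    (hD : D = rL L (fun b x => Nat.mul b.2.2 x) 1) :
    (∀ c, c ∈ L ↔ ∃ b ∈ l, c = (b.1, b.2.1, f b)) ∧ (∀ n, (∀ b ∈ l, f b ∣ n) → D ∣ n) ∧
      (∀ y : ℕ, (∀ b ∈ l, y.Coprime b.1) → y.Coprime D) ∧
        ∀ b ∈ l, f b ∣ D ∧ (D / f b).Coprime b.1 := by
  induction hl generalizing L D with
  | nil =>
    subst hL
    obtain rfl : D = 1 := hD
    exact ⟨fun c => by simp [rL], fun n _ => one_dvd n, fun y _ => y.coprime_one_right, by simp⟩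
  | @cons a t h1 _ ih =>
    obtain ⟨i1, i2, i3, i4⟩ := ih (fun b hb => h0 b (List.mem_cons_of_mem _ hb)) rfl rfl
    subst hL
    generalize e : rL (rL t (fun b l => (b.1, b.2.1, f b) :: l) [])
      (fun b x => Nat.mul b.2.2 x) 1 = w at i2 i3 i4
    obtain rfl : D = f a * w := e ▸ hD
    have k := i3 _ h1
    refine ⟨fun c => List.mem_cons.trans (by rw [List.exists_mem_cons_iff]; exact or_congr_right (i1 c)),
      fun n h => (k.coprime_dvd_left (hf a)).mul_dvd_of_dvd_of_dvd (h a List.mem_cons_self)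
        (i2 n fun b hb => h b (List.mem_cons_of_mem _ hb)),
      fun y h => ((h a List.mem_cons_self).coprime_dvd_right (hf a)).mul_right
        (i3 y fun b hb => h b (List.mem_cons_of_mem _ hb)),
      List.forall_mem_cons.2 ⟨⟨dvd_mul_right _ _, ?_⟩, fun b hb => ⟨(i4 b hb).1.mul_left _, ?_⟩⟩⟩
    · rw [Nat.mul_div_cancel_left _ (Nat.pos_of_dvd_of_pos (hf a) (h0 a List.mem_cons_self))]
      exact k.symm
    · rw [Nat.mul_div_assoc _ (i4 b hb).1]
      exact ((h1 b hb).coprime_dvd_left (hf a)).mul_left (i4 b hb).2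

theorem core_sound (S : Sec K H) (B : Bls G bl)
    (F : NF G (Nat.card K) (Nat.card H) H.index E) (hR : Rs bl R (Nat.card H))
    (e : core (Nat.card G) E n bl R al = true) (l : OnList5 H) : ∃ d ∈ al, IsD H d := by
  obtain ⟨R, hR, e⟩ := rnd_sound B F.toNF0 hR e
  rw [fL_eq, fN_eq] at e
  obtain ⟨i1, i2, -, i4⟩ := prod_aux (keep R E) (keep_left R E) bl
    (fun b hb => one_pos.trans (B.dvd b hb).1) B.cop rfl rfl
  have hD := i2 _ fun b => keep_dvd B F.toNF0 hR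
  have dh := (nf_dvd F.toNF0).2.1
  obtain ⟨d, hd, ex, a⟩ := allC_sound e l Nat.card_pos.ne' dh hD
    (fun p hp a => (B.cov p hp (a.trans dh)).elim fun b hb => ⟨_, (i1 _).2 ⟨b, hb.1, rfl⟩, hb.2⟩)
    (fun c hc => by
      obtain ⟨b, hb, rfl⟩ := (i1 c).1 hc
      exact ⟨(B.dvd b hb).2.1, (B.dvd b hb).2.2, (i4 b hb).2, (i4 b hb).1, B.pp b hb⟩)
    (fun c hc => ⟨(B.dvd c (hR.sub.subset hc)).1, hR.dvd c hc⟩)
    fun x hx y hy a r s hr hs d1 d2 =>
      (na_nad B (hR.sub.subset hx) (hR.sub.subset hy) a hr hs d1 d2).imp_right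
        (mt (adj_up (MulEquiv.refl H)))
  exact ⟨d, cand_sound S B F hD hd ex a, hd⟩

end Pool.Agent.Lib.MP_7d41f7_al.Ar
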