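import Pool.Agent.Lib.MP_7d41f7_al.D.EMain
import Pool.Agent.Lib.MP_7d41f7_al.Ball

/-! The exceptional groups of large rank with `256 ≤ q`: sizes. -/

set_option autoImplicit false

namespace Pool.Agent.Lib.MP_7d41f7_al.Lo

open Finset

variable {x : Ex} {h q r u v g i j k e m : ℕ}

theorem pk_low (hq : 2 ≤ q) (he : 3 ≤ e) : (q - 1) ^ e.totient ≤ e * pk q e :=
  (Polynomial.sub_one_pow_totient_lt_natAbs_cyclotomic_eval (by omega) (by omega)).le.trans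
    (Nat.le_of_dvd (Nat.mul_pos (by omega) pk_pos) (cyc_dvd_pk (b := q) hq he))

/-- Lifting the exponent. -/
theorem val_le (hq : 2 ≤ q) (hv : v.Prime) (hvq : ¬ v ∣ q) (hj : 0 < j) :
    v ^ (q ^ j - 1).factorization v ≤
      2 * j * (q + 1) ^ if Ord q v ∣ j then (Ord q v).totient else 0 := by
  have := Fact.mk hv
  have n0 : ∀ i, 0 < i → q ^ i - 1 ≠ 0 := fun i hi =>
    (Nat.sub_pos_of_lt (Nat.one_lt_pow hi.ne' hq)).ne'
  have cs : ∀ i, ((q ^ i - 1 : ℕ) : ℤ) = q ^ i - 1 := fun i => by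
    rw [Nat.cast_pred (by positivity), Nat.cast_pow]
  have pv : ∀ i, 0 < i → v ^ padicValNat v i ≤ i := fun i hi =>
    Nat.le_of_dvd hi pow_padicValNat_dvd
  rw [Nat.factorization_def _ hv]
  split_ifs with d
  swap
  · rw [padicValNat.eq_zero_of_not_dvd fun c => d ((Ord.dvd_iff j).1
      (cs j ▸ Int.natCast_dvd_natCast.2 c)), pow_zero, pow_zero]
    omega
  rcases eq_or_ne v 2 with rfl | c
  · have o : Ord q 2 = 1 := Nat.dvd_one.1 ((Ord.dvd_iff 1).1 (by rw [pow_one]; omega))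
    obtain ⟨y, rfl⟩ : ∃ y, q = y + 1 := ⟨q - 1, by omega⟩
    have a := padicValNat.pow_two_sub_pow (x := y + 1) (y := 1) (n := 2 * j) hq (by omega) hvq
      (by omega) (even_two_mul j)
    rw [one_pow, padicValNat.mul two_ne_zero hj.ne', padicValNat_self, Nat.add_sub_cancel] at a
    have b : padicValNat 2 ((y + 1) ^ j - 1) ≤ padicValNat 2 ((y + 1) ^ (2 * j) - 1) :=
      (padicValNat_dvd_iff_le (n0 _ (by omega))).1 (pow_padicValNat_dvd.trans
        (by simpa only [one_pow, mul_comm] using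
          pow_mul (y + 1) j 2 ▸ Nat.sub_dvd_pow_sub_pow ((y + 1) ^ j) 1 2))
    have h4 : ∀ z, z ≠ 0 → ¬ 4 ∣ z → 2 ^ padicValNat 2 z ≤ 2 := fun z h0 hz => by
      have := mt (padicValNat_dvd_iff_le (p := 2) (n := 2) h0).2 hz
      exact (Nat.pow_le_pow_right two_pos (by omega : _ ≤ 1)).trans (pow_one 2).le
    have h5 := h4 y (by omega)
    have h6 := h4 (y + 1 + 1) (by omega)
    have h7 := pv y (by omega)
    have h8 := pv (y + 1 + 1) (by omega)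
    refine (Nat.pow_le_pow_right two_pos (show _ ≤ padicValNat 2 j +
      (padicValNat 2 (y + 1 + 1) + padicValNat 2 y) by omega)).trans ?_
    rw [o, Nat.totient_one, pow_one, pow_add, pow_add, mul_comm 2 j, mul_assoc]
    refine Nat.mul_le_mul (pv j hj) ?_
    by_cases e : 4 ∣ y
    · exact Nat.mul_le_mul (h6 (by omega)) (by omega)
    · exact (Nat.mul_le_mul h8 (h5 e)).trans_eq (mul_comm _ _)
  obtain ⟨m, rfl⟩ := d
  have o := Nat.pos_of_mul_pos_right hj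
  have m0 := Nat.pos_of_mul_pos_left hj
  have a := padicValNat.pow_sub_pow (hv.odd_of_ne_two c) (x := q ^ Ord q v) (y := 1)
    (Nat.one_lt_pow o.ne' hq) (Int.natCast_dvd_natCast.1 (cs _ ▸ (Ord.dvd_iff _).2 dvd_rfl))
    (fun e => hvq (hv.dvd_of_dvd_pow e)) m0.ne'
  rw [one_pow, ← pow_mul] at a
  rw [a, pow_add, mul_comm]
  exact Nat.mul_le_mul ((pv m m0).trans (by nlinarith)) ((Nat.le_of_dvd pk_pos (pk_pow (b := q) hq
    o hv rfl (cs _ ▸ Int.natCast_dvd_natCast.2 pow_padicValNat_dvd))).trans (pk_le hq o))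

/-- The constant in the bound for the prime powers. -/
def cJ (x : Ex) : ℕ := ∏ j ∈ x.J, 2 * j

/-- The loss in the lower bound for the kept part. -/
def lT (x : Ex) : ℕ := ∏ e ∈ x.ks, e ^ x.mu e

/-- The condition for a comparison of sizes. -/
def Sz (A L d β c : ℕ) : Prop := A * L ^ c * 257 ^ β < 255 ^ (c * d) ∧ β ≤ c * d

instance (A L d β c : ℕ) : Decidable (Sz A L d β c) := by
  unfold Sz
  infer_instance

theorem tl_mu : ∀ x ∈ bigs, ∀ e < 31, e.totient * x.mu e ≤ x.rk := by decide +kernel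

theorem tl_sz : ∀ x ∈ bigs, Sz (cJ x ^ 5) (lT x) x.dT (x.rk * 5) 3 ∧
    Sz 1 (lT x) x.dT (x.rk * 8) 3 ∧ Sz 1 (∏ e ∈ x.gs, e) (dgs x.gs) x.rk 1 ∧
      Sz (2 ^ 81) (lT x) x.dT 0 1 := by
  decide +kernel

theorem tl_l2 : ∀ x ∈ bigs, ∀ e ∈ insert 0 x.ks, (e ≠ 0 ∧ Sz 1 (lT x) x.dT (x.rk * 3) 1) ∨
    ∃ a ∈ x.gs, ∃ b ∈ x.gs, ∃ c ∈ x.ks, a ≠ b ∧ a ≠ c ∧ b ≠ c ∧ a ≠ e ∧ b ≠ e ∧ c ≠ e := by
  decide +kernel

/-- The statement at one value of the parameter. -/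
abbrev tlAP (m : ℕ) : Prop :=
  ∀ x ∈ bigs, Sz (∏ r ∈ Icc (m / 2 + 1) m with
    (r ≤ 13 ∨ Nat.gcd r 6227020800 = 1) ∧ ∃ e ∈ x.gs, e ∣ r - 1, r) (∏ e ∈ x.gs, e)
      (dgs x.gs) 0 1

theorem tlA0 : ∀ m < 85, tlAP m := by decide +kernel

theorem tlA1 : ∀ m < 122, 85 ≤ m → tlAP m := by decide +kernel

theorem tlA2 : ∀ m < 152, 122 ≤ m → tlAP m := by decide +kernel

theorem tlA3 : ∀ m < 177, 152 ≤ m → tlAP m := by decide +kernel

theorem tlA4 : ∀ m < 200, 177 ≤ m → tlAP m := by decide +kernel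

theorem tl_alt : ∀ x ∈ bigs, ∀ m < 200, Sz (∏ r ∈ Icc (m / 2 + 1) m with
    (r ≤ 13 ∨ Nat.gcd r 6227020800 = 1) ∧ ∃ e ∈ x.gs, e ∣ r - 1, r) (∏ e ∈ x.gs, e)
      (dgs x.gs) 0 1 :=
  fun x hx m hm => ball_app (ball_app (ball_app (ball_app tlA0 tlA1) tlA2) tlA3) tlA4 m hm x hx

theorem pp_all (hx : x ∈ bigs) (hq : 2 ≤ q) (hv : v.Prime) (hvq : ¬ v ∣ q)
    (h : ((v ^ k : ℕ) : ℤ) ∣ x.ord q) : v ^ k ≤ cJ x * (q + 1) ^ x.rk := by
  have j0 := fun j hj => (te_J x j hj).1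
  have n0 : ∀ j ∈ x.J, q ^ j - 1 ≠ 0 := fun j hj =>
    (Nat.sub_pos_of_lt (Nat.one_lt_pow (j0 j hj).ne' hq)).ne'
  have h1 : v ^ k ∣ ∏ j ∈ x.J, (q ^ j - 1) := by
    refine (((hv.coprime_iff_not_dvd.2 hvq).pow k x.N).dvd_of_dvd_mul_left
      (Int.natCast_dvd_natCast.1 (h.trans ((x.ord_dvd q).trans (dvd_of_eq ?_)))))
    rw [Nat.cast_mul, Nat.cast_pow, Nat.cast_prod]
    exact congrArg _ (prod_congr rfl fun j _ => by rw [Nat.cast_pred (by positivity), Nat.cast_pow])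
  have h2 := (hv.pow_dvd_iff_le_factorization (prod_ne_zero_iff.2 n0)).1 h1
  rw [Nat.factorization_prod n0, Finsupp.finsetSum_apply] at h2
  refine (Nat.pow_le_pow_right hv.pos h2).trans ?_
  rw [← prod_pow_eq_pow_sum]
  refine (prod_le_prod' fun j hj => val_le hq hv hvq (j0 j hj)).trans ?_
  rw [prod_mul_distrib, prod_pow_eq_pow_sum, ← sum_filter, sum_const, smul_eq_mul, mul_comm (card _)]
  refine Nat.mul_le_mul_left _ (Nat.pow_le_pow_right q.succ_pos ?_)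
  by_cases c : Ord q v < 31
  · exact tl_mu x hx _ c
  · rw [filter_eq_empty_iff.2 fun j hj d => c ((Nat.le_of_dvd (j0 j hj) d).trans_lt
      ((te_J x j hj).2.1.trans_lt (by cases x <;> decide))), card_empty, mul_zero]
    exact Nat.zero_le _

theorem Sz.lt {A L d β c T : ℕ} (h : Sz A L d β c) (hq : 256 ≤ q) (hT : (q - 1) ^ d ≤ L * T) :
    A * (q + 1) ^ β < T ^ c := by
  obtain ⟨h1, h2⟩ := h
  obtain ⟨n, hn⟩ := Nat.exists_eq_add_of_le h2
  have a1 := Nat.pow_le_pow_left hT c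
  have a2 := Nat.pow_le_pow_left (show 255 * (q + 1) ≤ 257 * (q - 1) by omega) β
  have a3 := Nat.pow_le_pow_left (show 255 ≤ q - 1 by omega) n
  have a4 : 0 < (q - 1) ^ β := pow_pos (by omega) β
  rw [← pow_mul, mul_comm d, hn, pow_add, mul_pow] at a1
  rw [mul_pow, mul_pow] at a2
  rw [hn, pow_add] at h1
  by_contra b
  have a5 := Nat.mul_le_mul_left (L ^ c) (not_lt.1 b)
  refine lt_irrefl _ (calc 255 ^ β * ((q - 1) ^ β * (q - 1) ^ n)
      ≤ 255 ^ β * (L ^ c * (A * (q + 1) ^ β)) := Nat.mul_le_mul_left _ (a1.trans a5)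
    _ = A * L ^ c * (255 ^ β * (q + 1) ^ β) := by ring
    _ ≤ A * L ^ c * (257 ^ β * (q - 1) ^ β) := Nat.mul_le_mul_left _ a2
    _ = A * L ^ c * 257 ^ β * (q - 1) ^ β := by ring
    _ < 255 ^ β * 255 ^ n * (q - 1) ^ β := Nat.mul_lt_mul_of_pos_right h1 a4
    _ ≤ 255 ^ β * (q - 1) ^ n * (q - 1) ^ β := by gcongr
    _ = _ := by ring)

/-- The parameters. -/
structure ParE (x : Ex) (q : ℕ) : Prop where
  mem : x ∈ bigs
  q8 : 256 ≤ q

theorem ParE.q2 (P : ParE x q) : 2 ≤ q := le_trans (by norm_num) P.q8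

theorem ParE.T_ge (P : ParE x q) : (q - 1) ^ x.dT ≤ lT x * x.T q := by
  simp only [Ex.dT, lT, Ex.T, ← prod_pow_eq_pow_sum, ← prod_mul_distrib, pow_mul, ← mul_pow]
  exact prod_le_prod' fun e he => Nat.pow_le_pow_left (pk_low P.q2 (te_ks x P.mem e he).1.1) _

theorem ParE.pr_low (P : ParE x q) : (q - 1) ^ dgs x.gs ≤ (∏ e ∈ x.gs, e) * pr q x.gs := by
  simp only [dgs, pr, ← prod_pow_eq_pow_sum, ← prod_mul_distrib]
  exact prod_le_prod' fun e he => pk_low P.q2 (te_ks x P.mem e ((te_gs x P.mem).1 he)).1.1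

theorem ParE.sz1 (P : ParE x q) : (cJ x * (q + 1) ^ x.rk) ^ 5 < x.T q ^ 3 := by
  rw [mul_pow, ← pow_mul]
  exact (tl_sz x P.mem).1.lt P.q8 P.T_ge

theorem ParE.sz3 (P : ParE x q) : ((q + 1) ^ x.rk) ^ 8 < x.T q ^ 3 := by
  simpa only [one_mul, pow_mul] using (tl_sz x P.mem).2.1.lt P.q8 P.T_ge

theorem ParE.szL (P : ParE x q) (h : Sz 1 (lT x) x.dT (x.rk * 3) 1) :
    ((q + 1) ^ x.rk) ^ 3 < x.T q := by
  simpa only [one_mul, pow_mul, pow_one] using h.lt P.q8 P.T_ge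

theorem ParE.szK (P : ParE x q) : (q + 1) ^ x.rk < pr q x.gs := by
  simpa only [one_mul, pow_one] using (tl_sz x P.mem).2.2.1.lt P.q8 P.pr_low

theorem ParE.szS (P : ParE x q) : 2 ^ 81 < x.T q := by
  simpa only [pow_zero, mul_one, pow_one] using (tl_sz x P.mem).2.2.2.lt P.q8 P.T_ge

theorem ParE.szA (P : ParE x q) : q ^ (x.dim - x.N) ≤ (2 ^ 46 * pr q x.gs) ^ 4 := by
  obtain ⟨-, h2, h3⟩ := (te_sz x P.mem).2.2.2.2.2.2
  refine (Nat.pow_le_pow_right (zero_lt_two.trans_le P.q2) h2).trans ?_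
  rw [mul_comm 4, pow_mul]
  exact Nat.pow_le_pow_left ((pr_ge P.q2 fun e he =>
    (te_ks x P.mem e ((te_gs x P.mem).1 he)).1.1).trans
      (Nat.mul_le_mul_right _ (Nat.pow_le_pow_right zero_lt_two h3))) 4

theorem ParE.alt (P : ParE x q) (d : pr q x.gs ∣ m.factorial)
    (hm : ∀ r, r.Prime → r ∣ pr q x.gs → m < 2 * r) : 200 ≤ m := by
  by_contra c
  have sq : Squarefree (pr q x.gs) := Nat.squarefree_iff_prime_squarefree.2 fun r hr e => by
    have a2 := hm r hr ((dvd_mul_right r r).trans e)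
    have a3 := (hr.pow_dvd_iff_le_factorization (Nat.factorial_ne_zero m)).1
      (pow_two r ▸ e.trans d)
    rw [Nat.factorization_factorial hr (Nat.log_lt_of_lt_pow' two_ne_zero (a2.trans_le
      (pow_two r ▸ Nat.mul_le_mul_right r hr.two_le))), Nat.Ico_succ_singleton, sum_singleton,
      pow_one, Nat.le_div_iff_mul_le hr.pos] at a3
    omega
  have a := (tl_alt x P.mem m (not_le.1 c)).lt P.q8 P.pr_low
  rw [pow_zero, mul_one, pow_one, ← Nat.prod_primeFactors_of_squarefree sq] at a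
  refine a.not_ge (prod_le_prod_of_subset_of_one_le' (fun r hr => ?_) fun r hr _ => ?_)
  · have h1 := Nat.prime_of_mem_primeFactors hr
    have h2 := Nat.dvd_of_mem_primeFactors hr
    have h3 := hm r h1 h2
    have h4 := pr_ord h1 h2
    refine mem_filter.2 ⟨mem_Icc.2 ⟨by omega, h1.dvd_factorial.1 (h2.trans d)⟩,
      (le_or_gt r 13).imp_right fun e => h1.coprime_iff_not_dvd.2 fun k =>
        e.not_ge (h1.dvd_factorial.1 k), _, h4, (q4_le h1 ?_).1⟩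
    have := (te_ks x P.mem _ ((te_gs x P.mem).1 h4)).1.1
    omega
  · have := (mem_Icc.1 (mem_filter.1 hr).1).1
    omega

theorem ParE.pp (P : ParE x q) (hr : r.Prime) (ho : Ord q r ∈ x.ks)
    (h : ((r ^ i : ℕ) : ℤ) ∣ x.ord q) : r ^ i ≤ (q + 1) ^ x.rk := by
  obtain ⟨h1, -, h2, -⟩ := te_ks x P.mem _ ho
  refine (Nat.le_of_dvd (pow_pos pk_pos _) (Ex.pow_dvd P.q2 hr h1 h)).trans
    ((Nat.pow_le_pow_left (pk_le P.q2 (lt_of_lt_of_le (by norm_num) h1.1)) _).trans ?_)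
  rw [← pow_mul]
  exact Nat.pow_le_pow_right q.succ_pos h2

end Pool.Agent.Lib.MP_7d41f7_al.Lo
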