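import Pool.Agent.Lib.MP_7d41f7_al.H.JB
import Pool.Agent.Lib.MP_7d41f7_al.D.JS

/-! Sizes for `G₂(q)` and `³D₄(q)` over small fields. -/

set_option autoImplicit false

namespace Pool.Agent.Lib.MP_7d41f7_al.Lo

open Finset

variable {x y : Ex} {h j m v g p f w r i M N D : ℕ} {I : Finset ℕ}

theorem pw_gap {A B C n : ℕ} (hw : 0 < w) (h : w ^ A ≤ C * w ^ B) (hB : B + n ≤ A) :
    w ^ n ≤ C :=
  Nat.le_of_mul_le_mul_right ((pow_add w n B).ge.trans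
    ((Nat.pow_le_pow_right hw (by omega)).trans h)) (pow_pos hw B)

theorem pw_root {A B C n : ℕ} (hw : 0 < w) (hn : n ≠ 0) (h : w ^ A ≤ C ^ n * w ^ B)
    (hB : B + n ≤ A) : w ≤ C :=
  (Nat.pow_le_pow_iff_left hn).1 (pw_gap hw h hB)

theorem spor_fac : ∀ s ∈ sporOrd, 6 * s ∣ Nat.factorial 71 ∧ s < 2 ^ 180 := by decide +kernel

/-- What is known about the order `h` of the section above the normal subgroup of order `p ^ j`. -/
structure JD (x : Ex) (p f j h : ℕ) : Prop where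
  hp : p.Prime
  hf : 0 < f
  big : 8 ≤ p ^ f
  cr : ∀ n a u k : ℕ, 0 < a → a ≤ 3 → ((n * a : ℕ) : ℤ) = x.jy (p ^ f : ℕ) → u.Prime →
    u ^ k ∣ n → (u ^ k) ^ 3 < n
  jj : j = 0 ∨ f * 3 ≤ j
  card : ∃ a : ℕ, 0 < a ∧ a ≤ 3 ∧
    ((h * a * p ^ j : ℕ) : ℤ) = (p ^ f : ℕ) ^ 6 * x.jy (p ^ f : ℕ)

theorem JD.bd (K : JD x p f j h) : (p ^ f) ^ 14 ≤ 5 * (h * p ^ j) ∧ h ≤ (p ^ f) ^ 14 := by
  obtain ⟨a, h1, h2, h3⟩ := K.card
  have := K.big
  obtain ⟨h4, h5⟩ := jy_bd (x := x) (w := (p ^ f : ℕ)) (by omega)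
  have h6 := Nat.mul_le_mul_left (h * p ^ j) h2
  have h7 := Nat.le_mul_of_pos_right h (mul_pos h1 (pow_pos K.hp.pos j))
  rw [mul_right_comm] at h6
  rw [← mul_assoc] at h7
  generalize h * a * p ^ j = s at *
  generalize h * p ^ j = t at *
  generalize p ^ f = w at *
  have := mul_le_mul_of_nonneg_left h4 (pow_nonneg (Int.natCast_nonneg w) 6)
  have := mul_le_mul_of_nonneg_left h5 (pow_nonneg (Int.natCast_nonneg w) 6)
  zify at *
  constructor <;> linarith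

theorem JD.cast (K : JD x p f j h) (i : ℕ) :
    ((p ^ f : ℕ) : ℤ) ^ i - 1 = (p ^ (f * i) - 1 : ℕ) := by
  rw [Nat.cast_pred (pow_pos K.hp.pos _), pow_mul, Nat.cast_pow (p ^ f)]

theorem JD.up (K : JD x p f j h) (hr : r.Prime) (d : (r : ℤ) ∣ x.jy (p ^ f : ℕ)) :
    r ∣ p ^ (f * 6) - 1 :=
  Int.natCast_dvd_natCast.1 (K.cast 6 ▸ (Nat.prime_iff_prime_int.1 hr).dvd_of_dvd_pow
    (d.trans (jy_dvd x _).1))

theorem JD.ppart (K : JD x p f j h) (d : p ^ i ∣ h) : i + j ≤ f * 6 := by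
  obtain ⟨a, -, -, e⟩ := K.card
  have := K.hf
  have c := pp_cancel (k := i + j) (z := (p ^ f : ℕ) ^ 6) K.hp (fun a => lt_A_aux K.hp
    (g := f * 6) (by omega) dvd_rfl (K.up K.hp a)) 1 (by
      rw [pow_one, mul_comm, ← e, pow_add]
      exact_mod_cast mul_dvd_mul_right (d.mul_right a) _)
  rw [Nat.cast_pow, ← pow_mul] at c
  exact (Nat.pow_dvd_pow_iff_le_right K.hp.one_lt).1 (by exact_mod_cast c)

theorem JD.lie (K : JD x p f j h) (hv : v.Prime) (h1 : v ^ i ∣ h) (h2 : h ≤ (v ^ i) ^ 3) :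
    v = p ∧ j = 0 := by
  have q0 := K.big
  have q1 := Nat.pow_le_pow_left q0 2
  have k : ∀ C, h * p ^ j ≤ C * (p ^ f) ^ 12 → (p ^ f) ^ 2 ≤ 5 * C := fun C a =>
    pw_gap (by omega) (K.bd.1.trans (mul_assoc 5 C _ ▸ Nat.mul_le_mul_left 5 a))
      (by omega)
  by_cases e : v = p
  · subst e
    refine ⟨rfl, K.jj.resolve_right fun a => ?_⟩
    have := K.ppart h1
    have := k 1 ((Nat.mul_le_mul_right _ h2).trans (by
      rw [← pow_mul, ← pow_add, one_mul, ← pow_mul]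
      exact Nat.pow_le_pow_right hv.pos (by omega)))
    omega
  obtain ⟨a, a1, a2, a3⟩ := K.card
  obtain ⟨s, n, n1, rfl⟩ := Nat.exists_eq_pow_mul_and_not_dvd (n := h)
    (by
      have := (Nat.pow_pos (show 0 < p ^ f by omega)).trans_le K.bd.1
      rintro rfl
      simp at this) p K.hp.ne_one
  obtain ⟨t, c, c1, rfl⟩ := Nat.exists_eq_pow_mul_and_not_dvd a1.ne' p K.hp.ne_one
  have pr := Nat.prime_iff_prime_int.1 K.hp
  have c2 : ¬ (p : ℤ) ∣ x.jy (p ^ f : ℕ) := fun a =>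
    jy_cop K.hp a (dvd_pow_self p K.hf.ne')
  have c3 : ¬ (p : ℤ) ∣ (n * c : ℕ) := fun a =>
    (K.hp.dvd_mul.1 (Int.natCast_dvd_natCast.1 a)).elim n1 c1
  have a4 : (p : ℤ) ^ (s + t + j) * (n * c : ℕ) = p ^ (f * 6) * x.jy (p ^ f : ℕ) := by
    rw [pow_mul, ← Nat.cast_pow, ← Nat.cast_pow, ← a3]
    push_cast
    ring
  have a5 : s + t + j = f * 6 := le_antisymm
    ((pow_dvd_pow_iff pr.ne_zero pr.not_isUnit).1 (pr.pow_dvd_of_dvd_mul_right _ c2 (Dvd.intro _ a4)))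
    ((pow_dvd_pow_iff pr.ne_zero pr.not_isUnit).1
      (pr.pow_dvd_of_dvd_mul_right _ c3 (Dvd.intro _ a4.symm)))
  rw [a5] at a4
  exact absurd ((Nat.le_mul_of_pos_left n (pow_pos K.hp.pos s)).trans h2) (K.cr n c v i
    (Nat.pos_of_mul_pos_left a1) ((Nat.le_mul_of_pos_left c (pow_pos K.hp.pos t)).trans a2)
    (mul_left_cancel₀ (pow_ne_zero _ pr.ne_zero) a4) hv
    ((((Nat.coprime_primes hv K.hp).2 e).pow i s).dvd_of_dvd_mul_left h1)).not_ge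

theorem JD.top (K : JD x p f j h) (L : LT h v g N D I) :
    v = p ∧ j = 0 ∧ g * D = f * 6 ∧ N ≤ D ∧ (4 ∈ I → 4 ∣ D) := by
  obtain ⟨rfl, rfl⟩ := K.lie L.pv (pow_mul v g N ▸ L.pp) (pow_mul v g N ▸ L.le)
  obtain ⟨a, h1, h2, h3⟩ := K.card
  have f0 := K.hf
  have g0 := L.g0
  have v1 := L.pv.pos
  have z : ∀ n, f * 6 ≤ n → ∃ r, Prim v n r := fun n hn => zsig L.pv.two_le (by omega) (by
    rintro ⟨rfl, rfl⟩
    obtain rfl : f = 1 := by omega
    exact absurd K.big (by norm_num))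
  have up : ∀ i ∈ I, 3 ≤ i ∨ i = D → 3 ≤ g * i → (∃ r, Prim v (g * i) r) → g * i ∣ f * 6 :=
    fun i hi a b ⟨r, hr⟩ => (hr.dvd_iff v1 (by omega) _).1 (K.up hr.pr
      (((Nat.prime_iff_prime_int.1 hr.pr).dvd_or_dvd (h3 ▸ Int.natCast_dvd_natCast.2
        (((L.all i hi a b r hr).mul_right _).mul_right _))).resolve_left fun d =>
          hr.not_dvd v1 (by omega) (hr.pr.dvd_of_dvd_pow (hr.pr.dvd_of_dvd_pow (n := 6)
            (by exact_mod_cast d)))))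
  have lo : f * 6 ≤ g * D := by
    obtain ⟨r, hr⟩ := z _ le_rfl
    have r7 := Nat.le_of_dvd (Nat.sub_pos_of_lt hr.pr.one_lt) (hr.dvd_pred v1 (by omega))
    have d := ((Nat.prime_iff_prime_int.1 hr.pr).dvd_or_dvd ((K.cast 6 ▸
      Int.natCast_dvd_natCast.2 hr.dvd).trans (jy_dvd x _).2)).resolve_right fun d =>
        hr.min (f * 2) (by omega) (by omega) (Int.natCast_dvd_natCast.1 (K.cast 2 ▸ d))
    have d1 := Int.natCast_dvd_natCast.1 (h3 ▸ d.mul_left _)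
    rw [pow_zero, mul_one] at d1
    rcases L.div r hr.pr ((hr.pr.dvd_mul.1 d1).resolve_right fun c => by
      have := Nat.le_of_dvd h1 c
      omega) with c | ⟨i, hi, c⟩
    · exact absurd c.dvd (hr.not_dvd v1 (by omega))
    · exact (Nat.le_of_dvd (mul_pos g0 (L.bd i hi).1) ((hr.dvd_iff v1 (by omega) _).1
        (pow_mul v g i ▸ c))).trans (Nat.mul_le_mul_left g (L.bd i hi).2)
  have e := (Nat.le_of_dvd (by omega) (up D L.mem (.inr rfl) (by omega) (z _ lo))).antisymm lo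
  refine ⟨rfl, rfl, e, Nat.le_of_mul_le_mul_left (e ▸ K.ppart (pow_mul v g N ▸ L.pp)) g0,
    fun c => Nat.dvd_of_mul_dvd_mul_left g0 (e ▸ up 4 c (by omega) (by omega)
      (zsig L.pv.two_le (by omega) (by omega)))⟩

theorem JD.kill (K : JD x p f 0 h) (hk : g * N ≤ f * 6) (h2 : h ≤ (p ^ g) ^ M)
    (h3 : 6 * M ≤ 13 * N) (h4 : N ≠ 0) : False := by
  have q0 := K.big
  have a := K.bd.1
  rw [pow_zero, mul_one] at a
  have := pw_root (B := 6 * M) (C := 5) (by omega) h4 ((pow_mul _ 14 N).trans_le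
    ((Nat.pow_le_pow_left (a.trans (Nat.mul_le_mul_left 5 h2)) N).trans (by
      rw [mul_pow, ← pow_mul, ← pow_mul, ← pow_mul]
      exact Nat.mul_le_mul_left _ (Nat.pow_le_pow_right K.hp.pos (by nlinarith))))) (by omega)
  omega

theorem JD.low (K : JD x p f j h) (hk : g * D = f * 6) (h2 : (p ^ g) ^ M ≤ 6 * h)
    (h3 : 15 * D ≤ 6 * M) (h4 : D ≠ 0) : False := by
  have q0 := K.big
  have a := Nat.pow_le_pow_left (h2.trans (Nat.mul_le_mul_left 6 K.bd.2)) D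
  rw [pow_right_comm, ← pow_mul p, hk, pow_mul, mul_pow, ← pow_mul, ← pow_mul _ 14] at a
  have := pw_root (by omega) h4 a (by omega)
  omega

theorem JD.lin (K : JD x p f j h) (hv : v.Prime) (hg : 0 < g) (hm : 2 ≤ m)
    (hh : h * Nat.gcd m (v ^ g - 1) = ordSL m (v ^ g)) : False := by
  obtain ⟨rfl, rfl, e, l, -⟩ := K.top (lt_A hv hg hm hh)
  have u2 := Nat.one_lt_pow hg.ne' hv.one_lt
  obtain rfl | rfl | ⟨n, rfl⟩ : m = 2 ∨ m = 3 ∨ ∃ n, m = n + 4 := by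
    by_cases a : m < 4
    · omega
    · exact .inr (.inr ⟨m - 4, by omega⟩)
  · exact K.kill e.le (dim_A u2 hh) (by omega) (by omega)
  · refine K.low (M := 8) e ?_ (by omega) (by omega)
    have h3 := congrArg (Nat.cast : ℕ → ℤ) hh
    rw [Nat.cast_mul, ordSL_cast u2] at h3
    have := Nat.mul_le_mul_left h (Nat.gcd_le_left (v ^ g - 1) three_pos)
    simp only [prod_Icc_succ_top, Nat.reduceLeDiff] at h3
    generalize v ^ g = u at *
    have e : ∀ i, 2 * u ^ i ≤ u ^ (i + 1) := fun i => pow_succ' u i ▸ Nat.mul_le_mul_right _ u2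
    have : 2 * u ^ 5 ≤ u ^ 6 := e 5
    have : 2 * u ^ 6 ≤ u ^ 7 := e 6
    have : 2 * u ^ 7 ≤ u ^ 8 := e 7
    have := Nat.zero_le (u ^ 3)
    norm_num at h3
    zify at *
    linarith
  · have : (n + 4) * (n + 3) < _ := (Nat.div_lt_iff_lt_mul two_pos).1 (Nat.lt_add_one_of_le l)
    nlinarith

theorem JD.uni (K : JD x p f j h) (hv : v.Prime) (hg : 0 < g) (hm : 3 ≤ m)
    (hh : OrdU m (v ^ g : ℕ) h) : False := by
  obtain ⟨rfl, rfl, e, -, l⟩ := K.top (lt_2A hv hg hm hh)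
  rcases hm.eq_or_lt with rfl | a
  · exact K.kill e.le (dim_U (Nat.one_lt_pow hg.ne' hv.one_lt) hh) (by decide) (by decide)
  · have := l (mem_image.2 ⟨4, mem_Icc.2 ⟨by omega, a⟩, rfl⟩)
    split_ifs at this <;> omega

theorem JD.sym (K : JD x p f j h) (hv : v.Prime) (hg : 0 < g) (hm : 2 ≤ m)
    (hh : OrdB m (v ^ g : ℕ) h) : False := by
  obtain ⟨rfl, rfl, e, l, -⟩ := K.top (lt_B hv hg hm hh)
  obtain rfl := hm.antisymm (Nat.le_of_mul_le_mul_right l (by omega))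
  refine K.low (M := 10) e ?_ (by omega) (by omega)
  have u2 := Nat.one_lt_pow hg.ne' hv.one_lt
  have := mul_le_mul_of_nonneg_left (Int.le_of_dvd two_pos
    (Int.gcd_dvd_left 2 (((v ^ g : ℕ) : ℤ) - 1))) (Int.natCast_nonneg h)
  rw [OrdB, prod_Icc_succ_top (by omega), Icc_self, prod_singleton] at hh
  rw [hh] at this
  simp only [Nat.reduceMul, Nat.reduceAdd] at this
  generalize v ^ g = u at *
  have e : ∀ i, 2 * u ^ i ≤ u ^ (i + 1) := fun i => pow_succ' u i ▸ Nat.mul_le_mul_right _ u2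
  have : 2 * u ^ 6 ≤ u ^ 7 := e 6
  have : 2 * u ^ 7 ≤ u ^ 8 := e 7
  have : 2 * u ^ 8 ≤ u ^ 9 := e 8
  have : 2 * u ^ 9 ≤ u ^ 10 := e 9
  have := Nat.zero_le (u ^ 4)
  zify at *
  linarith

theorem JD.ort (K : JD x p f j h) (hv : v.Prime) (hg : 0 < g) (hm : 4 ≤ m) {ε : ℤ}
    (hε : ε = 1 ∨ ε = -1) (hh : OrdD ε m (v ^ g : ℕ) h) : False := by
  have : m * (m - 1) ≤ 2 * m := by
    rcases hε with rfl | rfl
    · exact (K.top (lt_D hv hg hm hh)).2.2.2.1.trans (by omega)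
    · exact (K.top (lt_2D hv hg hm (by simpa only [OrdD, sub_neg_eq_add] using hh))).2.2.2.1
  have := Nat.mul_le_mul_left m (show 3 ≤ m - 1 by omega)
  omega

theorem JD.exc (K : JD x p f j h) (hx : x = .G2 ∨ x = .D3) (hv : v.Prime) (hg : 0 < g)
    (hh : (h : ℤ) * y.cen (v ^ g : ℕ) = y.ord (v ^ g : ℕ)) : y = x ∧ y.jw (v ^ g) = p ^ f := by
  obtain ⟨rfl, rfl, e, l, -⟩ := K.top (Ex.lt hv hg hh)
  have hy : y = .G2 ∨ y = .D3 := by
    revert l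
    cases y <;> decide
  have e1 : y.jw (v ^ g) = v ^ f := by
    rcases hy with rfl | rfl <;> simp only [Ex.top] at e
    · rw [show f = g by omega]
      rfl
    · rw [show f = g * 2 by omega, pow_mul]
      rfl
  refine ⟨?_, e1⟩
  obtain ⟨a, h1, -, h3⟩ := K.card
  have q0 := K.big
  rw [jy_ord hy, e1, show y.cen (v ^ g : ℕ) = 1 by rcases hy with rfl | rfl <;> rfl] at hh
  generalize v ^ f = w at *
  have k : y.jy w * a = x.jy w := mul_left_cancel₀ (show (w : ℤ) ^ 6 ≠ 0 by positivity) (by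
    push_cast at h3 hh
    linear_combination h3 - a * hh)
  have w1 : (8 : ℤ) ≤ w := by omega
  have w2 : 8 * (w : ℤ) ≤ w ^ 2 := by nlinarith
  have w3 : 8 * (w : ℤ) ^ 2 ≤ w ^ 3 := by nlinarith
  have n0 : ((w : ℤ) ^ 2 - w + 1) * (w ^ 3 - 1) ≠ 0 := (mul_pos (by omega) (by omega)).ne'
  rcases hx with rfl | rfl <;> rcases hy with rfl | rfl <;> simp only [Ex.jy, if_true, if_false,
    reduceCtorEq] at k
  · rfl
  · have : ((w : ℤ) ^ 3 - 1) * a = (w + 1) * (w ^ 2 - 1) :=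
      mul_left_cancel₀ n0 (by linear_combination k)
    obtain a2 | a2 : (a : ℤ) = 1 ∨ (2 : ℤ) ≤ a := by omega
    · rw [a2] at this
      linarith
    · nlinarith
  · have : ((w : ℤ) + 1) * (w ^ 2 - 1) * a = w ^ 3 - 1 :=
      mul_left_cancel₀ n0 (by linear_combination k)
    have : (1 : ℤ) ≤ a := by omega
    nlinarith
  · rfl

theorem JD.ree (K : JD x p f j h) (hv : v.Prime) (hg : 0 < g) (hh : ReeOrd (v ^ g : ℕ) h) :
    False := by
  have u2 := Nat.one_lt_pow hg.ne' hv.one_lt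
  have u1 := fat_one u2
  obtain ⟨rfl, rfl, e⟩ : v = p ∧ j = 0 ∧ g * 4 ≤ f * 6 := by
    rcases hh.lt hv hg with L | L | L <;> obtain ⟨a, b, c, -⟩ := K.top L <;>
      exact ⟨a, b, by omega⟩
  rcases hh with ⟨-, a⟩ | ⟨-, a⟩ | ⟨-, a⟩
  · exact K.kill e (dim_of (N := 2) one_pos (by rw [a]; ring) (fat_pair u1 one_le_two))
      (by omega) (by omega)
  · exact K.kill e (dim_of (N := 3) one_pos (by rw [a]; ring) (fat_pair u1 (i := 3) (j := 1)
      (by omega))) (by omega) (by omega)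
  have d : (h : ℤ) * 1 = (v ^ g : ℕ) ^ 12 * (((v ^ g : ℕ) ^ 6 + 1) * ((v ^ g : ℕ) ^ 4 - 1) *
      (((v ^ g : ℕ) ^ 3 + 1) * ((v ^ g : ℕ) ^ 1 - 1))) := by
    rw [a]
    ring
  refine K.kill (K.ppart (pow_mul v g 12 ▸ sz_dvd (one_mul 1) (one_dvd _) d))
    (dim_of (s := 6 + 4 + (3 + 1)) one_pos d ?_) (by omega) (by omega)
  rw [pow_add _ (6 + 4)]
  exact mul_le_mul (fat_pair u1 (by omega)) (fat_pair u1 (by omega))
    (mul_nonneg (by positivity) (fat_sub u1 1)) (by positivity)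

theorem JD.lo (K : JD x p f j h) : (p ^ f) ^ 8 ≤ 5 * h := by
  have a := K.bd.1.trans (Nat.mul_le_mul_left 5 (Nat.mul_le_mul_left h (Nat.pow_le_pow_right
    K.hp.pos ((Nat.le_add_left j 0).trans (K.ppart (one_dvd h))))))
  rw [pow_mul, ← mul_assoc, pow_add _ 8 6] at a
  exact Nat.le_of_mul_le_mul_right a (pow_pos (pow_pos K.hp.pos f) 6)

theorem jy_low {w : ℤ} (hw : 8 ≤ w) : (w - 1) ^ 8 < x.jy w := by
  obtain ⟨u, rfl⟩ : ∃ u, w = u + 1 := ⟨w - 1, by ring⟩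
  have : 0 < u := by omega
  unfold Ex.jy
  split_ifs <;> rw [add_sub_cancel_right, ← sub_pos] <;> ring_nf <;> positivity

theorem jy_fac : ∀ p < 72, ∀ f < 23, 8 ≤ p ^ f → ∀ y ∈ [Ex.G2, .D3],
    y.jy (p ^ f : ℕ) ∣ Nat.factorial 71 → ∀ s ∈ sporOrd, y.jy (p ^ f : ℕ) ∣ (6 * s : ℕ) →
      ¬ (s : ℤ) ∣ (p ^ f : ℕ) ^ 6 * y.jy (p ^ f : ℕ) := by decide +kernel

theorem jy_rt : ∀ s ∈ sporOrd, ∀ a < 4, 0 < a → ∃ y ∈ [(s * a).sqrt.sqrt.sqrt], y ^ 8 < s * a ∧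
    s * a ≤ (y + 1) ^ 8 ∧ Ex.G2.jy (y + 1 : ℕ) ≠ (s * a : ℕ) ∧
      Ex.D3.jy (y + 1 : ℕ) ≠ (s * a : ℕ) := by decide +kernel

theorem JD.not_spor (K : JD x p f j h) : h ∉ sporOrd := fun e => by
  obtain ⟨h3, h4⟩ := spor_fac h e
  have q0 := K.big
  obtain ⟨a, a1, a2, a3⟩ := K.card
  have ex : x.jy (p ^ f : ℕ) = Ex.G2.jy (p ^ f : ℕ) ∨ x.jy (p ^ f : ℕ) = Ex.D3.jy (p ^ f : ℕ) := by
    cases x <;> simp [Ex.jy]
  have a6 : h * a ∣ 6 * h := mul_comm h 6 ▸ (mul_dvd_mul_left h (by interval_cases a <;> decide) :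
    h * a ∣ h * 6)
  have c : ¬ (p : ℤ) ∣ x.jy (p ^ f : ℕ) := fun a =>
    lt_A_aux K.hp (g := f * 6) (by have := K.hf; omega) dvd_rfl (K.up K.hp a)
  have cp : IsCoprime (x.jy (p ^ f : ℕ)) ((p : ℤ) ^ j) :=
    ((Nat.prime_iff_prime_int.1 K.hp).coprime_iff_not_dvd.2 c).symm.pow_right
  by_cases d : p ∣ h * a
  · have f1 : f < 23 := by
      by_contra b
      have := (Nat.pow_le_pow_left ((Nat.pow_le_pow_right two_pos (not_lt.1 b)).trans
        (Nat.pow_le_pow_left K.hp.two_le f)) 8).trans K.lo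
      omega
    have d1 : x.jy (p ^ f : ℕ) ∣ (6 * h : ℕ) :=
      (cp.dvd_of_dvd_mul_right (Nat.cast_pow (α := ℤ) p j ▸ Nat.cast_mul (α := ℤ) _ _ ▸ a3 ▸
        dvd_mul_left _ _)).trans (Int.natCast_dvd_natCast.2 a6)
    have d2 : (h : ℤ) ∣ (p ^ f : ℕ) ^ 6 * x.jy (p ^ f : ℕ) :=
      a3 ▸ Int.natCast_dvd_natCast.2 ((dvd_mul_right h a).mul_right _)
    have := jy_fac p (Nat.lt_succ_of_le (K.hp.dvd_factorial.1 (d.trans (a6.trans h3)))) f f1 q0
    have d3 := d1.trans (Int.natCast_dvd_natCast.2 h3)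
    exact ex.elim (fun b => this .G2 (by decide) (b ▸ d3) h e (b ▸ d1) (b ▸ d2))
      fun b => this .D3 (by decide) (b ▸ d3) h e (b ▸ d1) (b ▸ d2)
  have j1 : j = f * 6 := ((Nat.le_add_left j 0).trans (K.ppart (one_dvd h))).antisymm
    ((Nat.pow_dvd_pow_iff_le_right K.hp.one_lt).1
      (((K.hp.coprime_iff_not_dvd.2 d).pow_left _).dvd_of_dvd_mul_left
        (Int.natCast_dvd_natCast.1 (a3 ▸ pow_mul p f 6 ▸ Nat.cast_pow (α := ℤ) (p ^ f) 6 ▸
          dvd_mul_right _ _))))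
  rw [j1, pow_mul, Nat.cast_mul, Nat.cast_pow (p ^ f), mul_comm] at a3
  have a4 := mul_left_cancel₀ (by positivity) a3
  obtain ⟨y, -, y1, y2, y3⟩ := jy_rt h e a (by omega) a1
  have b1 := jy_low (x := x) (w := (p ^ f : ℕ)) (by omega)
  have b2 := (jy_bd (x := x) (w := (p ^ f : ℕ)) (by omega)).2
  rw [← a4] at b1 b2 ex
  have b3 := lt_of_pow_lt_pow_left₀ 8 (by positivity) (b1.trans_le (Int.ofNat_le.2 y2 |>.trans_eq
    (Nat.cast_pow _ 8)))
  have b4 := lt_of_pow_lt_pow_left₀ 8 (by positivity) ((Nat.cast_pow y 8).ge.trans_lt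
    ((Int.ofNat_lt.2 y1).trans_le b2))
  rw [show p ^ f = y + 1 by omega] at ex
  exact ex.elim (fun b => y3.1 b.symm) fun b => y3.2 b.symm

theorem JD.not_alt (K : JD x p f j h) (hh : 2 * h = m.factorial) (hm : 4 * (p ^ f) ^ 2 ≤ 5 * m) :
    False := by
  have q0 := K.big
  have h2 := Nat.pow_le_pow_left q0 2
  obtain ⟨y, rfl⟩ : ∃ y, m = y + 16 := ⟨m - 16, by omega⟩
  have h3 := (Nat.le_mul_of_pos_left _ y.factorial_pos).trans
    (Nat.factorial_mul_pow_sub_le_factorial (Nat.le_add_right y 16))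
  have h4 := K.bd.2.trans ((pow_mul _ 2 7).trans_le
    (Nat.pow_le_pow_left (show _ ≤ 2 * y by omega) 7))
  rw [Nat.add_sub_cancel_left, ← hh] at h3
  rw [mul_pow] at h4
  have := pw_root (w := y) (A := 16) (B := 7) (C := 2) (n := 8) (by omega) (by omega) (by omega)
    (by omega)
  omega

end Pool.Agent.Lib.MP_7d41f7_al.Lo
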