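import Pool.Agent.Lib.MP_7d41f7_al.H.EA
import Pool.Agent.Lib.MP_7d41f7_al.H.HCh
import Pool.Agent.Lib.MP_7d41f7_al.Ball

/-! The exceptional groups of large rank with `4 ≤ q < 256`: tables and sizes. -/

set_option autoImplicit false

namespace Pool.Agent.Lib.MP_7d41f7_al

open Finset

variable {x : Ex} {h q r u v g i j k e m : ℕ}

/-- The regular classes. -/
def Ex.rs : Ex → Finset ℕ
  | .E6 => {8, 9, 12} | .U6 => {8, 12, 18} | .E7 => {7, 9, 14, 18} | .E8 => {15, 20, 24, 30}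
  | .F4 => {8, 12} | _ => ∅

/-- The kept classes. -/
def Ex.kt (x : Ex) : Finset ℕ := if x = .E7 then {7, 8, 9, 12, 14, 18} else x.ks

/-- The product over the proper divisors. -/
def cpm (q e : ℕ) : ℕ := ∏ d ∈ e.properDivisors, (q ^ d - 1)

/-- The primitive part as a computable function. -/
def cpk (q e : ℕ) : ℕ := (q ^ e - 1) / Nat.gcd (q ^ e - 1) (cpm q e ^ 4)

theorem pk_cpk (hq : 2 ≤ q) (he : 0 < e) (h : Nat.gcd (cpk q e) (cpm q e) = 1) :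
    pk q e = cpk q e := by
  have cs : ∀ i, ((q ^ i - 1 : ℕ) : ℤ) = q ^ i - 1 := fun i => by
    rw [Nat.cast_pred (by positivity), Nat.cast_pow]
  have d : ∀ {r i : ℕ}, r ∣ q ^ i - 1 ↔ Ord q r ∣ i := fun {r i} => by
    rw [← Ord.dvd_iff, ← cs, Int.natCast_dvd_natCast]
  have e1 := Nat.div_mul_cancel (Nat.gcd_dvd_left (q ^ e - 1) (cpm q e ^ 4))
  refine pk_eq (b := q) (Z := Nat.gcd (q ^ e - 1) (cpm q e ^ 4)) hq he (by rw [← cs, ← Nat.cast_mul, cpk, e1])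
    (fun r hr a => by_contra fun b => ?_) fun r hr a b => ?_
  · have c : Ord q r ∣ e := d.1 (a.trans (Dvd.intro _ e1))
    exact Nat.not_coprime_of_dvd_of_dvd hr.one_lt a ((d.2 dvd_rfl).trans
      (dvd_prod_of_mem (fun d => q ^ d - 1)
        (Nat.mem_properDivisors.2 ⟨c, lt_of_le_of_ne (Nat.le_of_dvd he c) b⟩))) h
  · obtain ⟨i, hi, c⟩ := (hr.prime.dvd_finsetProd_iff _).1 (hr.dvd_of_dvd_pow
      ((Int.natCast_dvd_natCast.1 a).trans (Nat.gcd_dvd_right _ _)))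
    exact (Nat.mem_properDivisors.1 hi).2.not_ge
      (Nat.le_of_dvd (Nat.pos_of_mem_properDivisors hi) (b ▸ d.1 c))

namespace Mi

/-- The conditions on the data of a group of Lie type in the same characteristic. -/
def Surv (x : Ex) (N D : ℕ) (I : Finset ℕ) : Prop :=
  N * x.top ≤ D * x.N ∧ (∀ e ∈ x.kt, e ≠ 3 → ∃ j ∈ I, e * D ∣ j * x.top) ∧
    ∀ j ∈ I, 3 ≤ j → ¬ j ∣ 6 → ∃ i ∈ x.J, j * x.top ∣ i * D

instance (x : Ex) (N D : ℕ) (I : Finset ℕ) : Decidable (Surv x N D I) := by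
  unfold Surv; infer_instance

/-- The conditions on the sizes for the function `P`. -/
def Szs (x : Ex) (q : ℕ) (P : ℕ → ℕ) (T R W : ℕ) : Prop :=
  (∀ e ∈ x.kt, (e ∈ x.rs ∨ P e ^ x.mu e ≤ R) ∧ (P e ^ x.mu e) ^ 8 < T ^ 3 ∧
    (x = .F4 → (P e ^ x.mu e) ^ 3 < T)) ∧ ((q + 1) ^ x.rk) ^ 5 < T ^ 3 ∧
  (∀ v ∈ [2, 3, 5, 7], Nat.gcd W (v ^ 1024) ^ 5 < T ^ 3) ∧ W < 2 ^ 1024 ∧
    ¬ T ∣ Nat.factorial 199 ∧ q ^ (x.dim - x.N) ≤ (2 ^ 46 * R) ^ 4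

instance (x : Ex) (q : ℕ) (P : ℕ → ℕ) (T R W : ℕ) : Decidable (Szs x q P T R W) := by
  unfold Szs; infer_instance

theorem tm_gs : ∀ x ∈ bigs, x.rs ⊆ x.kt ∧ 1 < x.rs.card ∧ (x.top ∈ x.rs ∧ 12 ≤ x.top) ∧
    ∀ e ∈ x.rs, x.rk < 2 * e.totient ∧ x.mu e = 1 ∧
      Wit (fun y => y ∈ x.kt ∧ y ≠ e ∧ x.mu y = 1) e ∧ ¬ e ∣ x.dk ∧ ∀ c ∈ x.kt, c = e ∨ x.Na e c := by
  decide +kernel

theorem tm_ks : ∀ x ∈ bigs, ∀ e ∈ x.kt, x.Ok e ∧ 0 < x.mu e ∧ (e ∈ x.rs ∨ Wit (· ∈ x.rs) e) := by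
  decide +kernel

theorem tm_l2 : ∀ x ∈ bigs, ∀ e ∈ insert 0 x.kt, (e ≠ 0 ∧ x = .F4) ∨
    ∃ a ∈ x.rs, ∃ b ∈ x.rs, ∃ c ∈ x.kt, a ≠ b ∧ a ≠ c ∧ b ≠ c ∧ a ≠ e ∧ b ≠ e ∧ c ≠ e := by
  decide +kernel

theorem tm_A : ∀ x ∈ bigs, ∀ m < 20, 2 ≤ m → Surv x (m * (m - 1) / 2) m (Icc 2 m) →
    x = .F4 ∧ m = 3 := by
  decide +kernel

theorem tm_U : ∀ x ∈ bigs, ∀ m < 20, 3 ≤ m → Surv x (m * (m - 1) / 2)
    (if m % 2 = 1 then 2 * m else 2 * (m - 1))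
    ((Icc 2 m).image fun i => if i % 2 = 1 then 2 * i else i) → x = .F4 ∧ m = 4 := by
  decide +kernel

theorem tm_B : ∀ x ∈ bigs, ∀ m < 20, 2 ≤ m →
    Surv x (m * m) (2 * m) ((Icc 1 m).image fun i => 2 * i) → x = .F4 ∧ m = 3 := by
  decide +kernel

theorem tm_D : ∀ x ∈ bigs, ∀ m < 20, 4 ≤ m → (Surv x (m * (m - 1)) (2 * (m - 1))
    ((Icc 1 m).image fun i => if i = m then m else 2 * i) → x = .F4 ∧ m = 4) ∧
    ¬ Surv x (m * (m - 1)) (2 * m) ((Icc 1 m).image fun i => 2 * i) := by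
  decide +kernel

theorem tm_E : ∀ x ∈ bigs, (∀ y ∈ [Ex.E6, .U6, .E7, .E8, .F4, .G2, .D3],
    Surv x y.N y.top y.J → y = x) ∧ ¬ Surv x 2 4 {4, 1} ∧ ¬ Surv x 3 6 {6, 1} ∧
      ¬ Surv x 12 12 {12, 4, 6, 1} := by
  decide +kernel

/-- The statement at one value of the parameter. -/
abbrev tmSP (q : ℕ) : Prop :=
  ∀ x ∈ bigs, 4 ≤ q → (∀ e ∈ x.kt, Nat.gcd (cpk q e) (cpm q e) = 1) ∧
    Szs x q (cpk q) (∏ e ∈ x.kt, cpk q e ^ x.mu e) (∏ e ∈ x.rs, cpk q e)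
      (∏ j ∈ x.J, (q ^ j - 1))

theorem tmS0 : ∀ q < 66, tmSP q := by decide +kernel

theorem tmS1 : ∀ q < 130, 66 ≤ q → tmSP q := by decide +kernel

theorem tmS2 : ∀ q < 193, 130 ≤ q → tmSP q := by decide +kernel

theorem tmS3 : ∀ q < 256, 193 ≤ q → tmSP q := by decide +kernel

theorem tm_sz : ∀ x ∈ bigs, ∀ q < 256, 4 ≤ q → (∀ e ∈ x.kt, Nat.gcd (cpk q e) (cpm q e) = 1) ∧
    Szs x q (cpk q) (∏ e ∈ x.kt, cpk q e ^ x.mu e) (∏ e ∈ x.rs, cpk q e)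
      (∏ j ∈ x.J, (q ^ j - 1)) :=
  fun x hx q hq => ball_app (ball_app (ball_app tmS0 tmS1) tmS2) tmS3 q hq x hx

/-- The kept part. -/
noncomputable def T (x : Ex) (q : ℕ) : ℕ := ∏ e ∈ x.kt, pk q e ^ x.mu e

/-- The parameters. -/
structure ParE (x : Ex) (q : ℕ) : Prop where
  mem : x ∈ bigs
  q4 : 4 ≤ q
  lt : q < 256

theorem ParE.q2 (P : ParE x q) : 2 ≤ q := le_trans (by norm_num) P.q4

theorem ParE.sz (P : ParE x q) :
    Szs x q (pk q) (T x q) (pr q x.rs) (∏ j ∈ x.J, (q ^ j - 1)) := by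
  obtain ⟨h1, h2⟩ := tm_sz x P.mem q P.lt P.q4
  have e : ∀ e ∈ x.kt, pk q e = cpk q e := fun e he =>
    pk_cpk P.q2 (by have := (tm_ks x P.mem e he).1.1; omega) (h1 e he)
  rw [T, pr, prod_congr rfl fun c hc => congrArg (· ^ x.mu c) (e c hc),
    prod_congr rfl fun c hc => e c ((tm_gs x P.mem).1 hc)]
  exact ⟨fun c hc => e c hc ▸ h2.1 c hc, h2.2⟩

theorem pk_dvd (hx : x ∈ bigs) (he : e ∈ x.kt) : ((pk q e ^ x.mu e : ℕ) : ℤ) ∣ x.ord q := by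
  by_cases hU : x = .E7
  swap
  · exact Ex.pk_dvd hx (by rwa [Ex.kt, if_neg hU] at he)
  have h1 : x.ord q = (∏ j ∈ x.J, ((q : ℤ) ^ j - 1)) * q ^ x.N := by
    subst hU
    simp [Ex.ord, Ex.J, Ex.N]
    ring
  rw [h1, Ex.mu, ← prod_const, Nat.cast_prod]
  refine ((prod_dvd_prod_of_dvd _ _ fun j hj => ?_).trans
    (prod_dvd_prod_of_subset _ _ _ (filter_subset _ _))).mul_right _
  exact MP_7d41f7_al.pk_dvd.trans (dvd_pow_sub_one_of_dvd (mem_filter.1 hj).2)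

theorem pow_dvd (hq : 2 ≤ q) (hr : r.Prime) (h0 : 0 < Ord q r) (hb : x.bad < r)
    (h : ((r ^ i : ℕ) : ℤ) ∣ x.ord q) : r ^ i ∣ pk q (Ord q r) ^ x.mu (Ord q r) := by
  have hp := Nat.prime_iff_prime_int.1 hr
  choose! z h1 h2 using fun j (hj : j ∈ x.J) => Ex.pow_dvd_aux hq hr h0 (j := j) fun d =>
    hb.not_ge ((te_J x j hj).2.2 r (Nat.mem_primeFactors.2 ⟨hr, d, (te_J x j hj).1.ne'⟩))
  have h3 := h.trans ((x.ord_dvd q).trans (mul_dvd_mul_left _ (prod_dvd_prod_of_dvd _ _ h2)))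
  rw [prod_mul_distrib, ← Nat.cast_prod, ← prod_filter, prod_const, mul_left_comm,
    Nat.cast_pow] at h3
  refine Int.natCast_dvd_natCast.1 ?_
  rw [Nat.cast_pow]
  refine hp.pow_dvd_of_dvd_mul_right _ (hp.not_dvd_mul ?_ ?_) h3
  · exact fun d => (q4_le hr h0).2 (Int.natCast_dvd_natCast.1 (hp.dvd_of_dvd_pow d))
  · exact fun d => (hp.exists_mem_finset_dvd d).elim fun j hj => h1 j hj.1 hj.2

theorem ParE.pp (P : ParE x q) (hr : r.Prime) (ho : Ord q r ∈ x.kt)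
    (h : ((r ^ i : ℕ) : ℤ) ∣ x.ord q) : r ^ i ≤ pk q (Ord q r) ^ x.mu (Ord q r) :=
  Nat.le_of_dvd (pow_pos pk_pos _) (Ex.pow_dvd P.q2 hr (tm_ks x P.mem _ ho).1 h)

theorem ParE.sz1 (P : ParE x q) (hv : v.Prime) (hvq : ¬ v ∣ q)
    (h : ((v ^ k : ℕ) : ℤ) ∣ x.ord q) : (v ^ k) ^ 5 < T x q ^ 3 := by
  obtain ⟨-, h1, h2, h3, -⟩ := P.sz
  generalize 1024 = B at h2 h3
  have q2 := P.q2
  have j0 := fun j hj => (te_J x j hj).1
  by_cases c : v ∈ [2, 3, 5, 7]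
  · have n0 : 0 < ∏ j ∈ x.J, (q ^ j - 1) := prod_pos fun j hj =>
      Nat.sub_pos_of_lt (Nat.one_lt_pow (j0 j hj).ne' q2)
    have d : v ^ k ∣ ∏ j ∈ x.J, (q ^ j - 1) := by
      refine (((hv.coprime_iff_not_dvd.2 hvq).pow k x.N).dvd_of_dvd_mul_left
        (Int.natCast_dvd_natCast.1 (h.trans ((x.ord_dvd q).trans (dvd_of_eq ?_)))))
      rw [Nat.cast_mul, Nat.cast_pow, Nat.cast_prod]
      exact congrArg _
        (prod_congr rfl fun j _ => by rw [Nat.cast_pred (by positivity), Nat.cast_pow])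
    refine (Nat.pow_le_pow_left (Nat.le_of_dvd (Nat.gcd_pos_of_pos_left _ n0) (Nat.dvd_gcd d
      (pow_dvd_pow v ?_))) 5).trans_lt (h2 v c)
    exact ((Nat.pow_lt_pow_iff_right one_lt_two).1 (((Nat.pow_le_pow_left hv.two_le k).trans
      (Nat.le_of_dvd n0 d)).trans_lt h3)).le
  have o : 0 < Ord q v := by
    have := Fact.mk hv
    refine (orderOf_pos_iff.2 (isOfFinOrder_iff_pow_eq_one.2 ⟨v - 1, by have := hv.two_le; omega,
      ZMod.pow_card_sub_one_eq_one fun e => hvq ?_⟩))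
    rwa [Int.cast_natCast, ZMod.natCast_eq_zero_iff] at e
  have b : x.bad < v := by
    have : x.bad ≤ 7 := by cases x <;> decide
    by_contra! a
    have : v ≤ 7 := by omega
    interval_cases v <;> first | exact c (by decide) | exact absurd hv (by decide)
  refine (Nat.pow_le_pow_left ((Nat.le_of_dvd (pow_pos pk_pos _) (pow_dvd q2 hv o b h)).trans
    ((Nat.pow_le_pow_left (pk_le q2 o) _).trans ?_)) 5).trans_lt h1
  rw [← pow_mul]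
  refine Nat.pow_le_pow_right q.succ_pos ?_
  by_cases c : Ord q v < 31
  · exact Lo.tl_mu x P.mem _ c
  · rw [Ex.mu, filter_eq_empty_iff.2 fun j hj d => c ((Nat.le_of_dvd (j0 j hj) d).trans_lt
      ((te_J x j hj).2.1.trans_lt (by cases x <;> decide))), card_empty, mul_zero]
    exact Nat.zero_le _

end Mi

end Pool.Agent.Lib.MP_7d41f7_al
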