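import Pool.Agent.Lib.MP_7d41f7_al.H.FK

/-! The exceptional groups with `4 ≤ q < 256`: identification in the same characteristic. -/

set_option autoImplicit false

namespace Pool.Agent.Lib.MP_7d41f7_al.Mi

open Finset

variable {x : Ex} {h p f g m q : ℕ}

theorem KE.same (hp : p.Prime) (hf : 0 < f) (K : KE h x (p ^ f)) {N D : ℕ} {I : Finset ℕ}
    (L : LT h p g N D I) : g * D = f * x.top ∧ Surv x N D I := by
  have g0 := L.g0
  have f3 : p = 2 → 2 ≤ f := by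
    rintro rfl
    exact (Nat.pow_le_pow_iff_right one_lt_two).1 K.par.q4
  have k1 : ∀ e ∈ x.kt, e ≠ 3 → ∃ j ∈ I, f * e ∣ g * j := fun e he e4 => by
    obtain ⟨⟨e3, -⟩, m0, -⟩ := tm_ks x K.par.mem e he
    have a := Nat.mul_le_mul hf e3
    obtain ⟨r, hr⟩ := zsig hp.two_le (by omega : 3 ≤ f * e) fun c => by
      have := Nat.mul_le_mul (f3 c.1) (show 4 ≤ e by omega)
      omega
    have h1 := hr.pow hp.pos hf (by omega)
    have q2 := K.par.q2
    have o := h1.ord_eq (by omega) (by omega)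
    have d : r ^ 1 ∣ pk (p ^ f : ℕ) e := pk_pow (by rwa [Int.natAbs_natCast]) (by omega) hr.pr o
      (by rw [pow_one]; exact (Ty.dvd_top_aux (by omega)).1 h1.dvd)
    rcases L.div r hr.pr (pow_one r ▸ K.kept r 1 hr.pr (o ▸ he) ((Int.natCast_dvd_natCast.2
      (d.trans (dvd_pow_self _ m0.ne'))).trans (pk_dvd K.par.mem he))) with rfl | ⟨j, hj, e⟩
    · exact absurd dvd_rfl (hr.not_dvd hp.pos (by omega))
    · exact ⟨j, hj, (hr.dvd_iff hp.pos (by omega) _).1 (by rwa [pow_mul])⟩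
  have k2 : ∀ j ∈ I, 3 ≤ j ∨ j = D → 3 ≤ g * j → ¬ (p = 2 ∧ g * j = 6) →
      ∃ i ∈ x.J, g * j ∣ f * i := fun j hj h1 h2 h3 => by
    obtain ⟨r, hr⟩ := zsig hp.two_le h2 h3
    have pr := Nat.prime_iff_prime_int.1 hr.pr
    rcases pr.dvd_or_dvd ((Int.natCast_dvd_natCast.2 (L.all j hj h1 h2 r hr)).trans
      (K.dvd.trans (x.ord_dvd _))) with e | e
    · exact absurd (hr.pr.dvd_of_dvd_pow (Int.natCast_dvd_natCast.1 (pr.dvd_of_dvd_pow e)))
        (hr.not_dvd hp.pos (by omega))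
    · obtain ⟨i, hi, e⟩ := (pr.dvd_finsetProd_iff _).1 e
      exact ⟨i, hi, (hr.dvd_iff hp.pos (by omega) _).1
        (pow_mul p f i ▸ (Ty.dvd_top_aux (Nat.one_le_pow _ _ hp.pos)).2 e)⟩
  have e1 : g * D = f * x.top := by
    obtain ⟨h1, -, ⟨h2, t3⟩, -⟩ := tm_gs x K.par.mem
    obtain ⟨j, hj, e⟩ := k1 _ (h1 h2) (by omega)
    have a := (Nat.le_of_dvd (Nat.mul_pos g0 (L.bd j hj).1) e).trans
      (Nat.mul_le_mul_left _ (L.bd j hj).2)
    have b := Nat.mul_le_mul hf t3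
    obtain ⟨i, hi, e⟩ := k2 D L.mem (.inr rfl) (by omega) (by omega)
    exact le_antisymm ((Nat.le_of_dvd (Nat.mul_pos hf (te_J x i hi).1) e).trans
      (Nat.mul_le_mul_left _ (te_J x i hi).2.1)) a
  refine ⟨e1, Nat.le_of_mul_le_mul_left ?_ g0, fun e he e4 => ?_, fun j hj h1 h2 => ?_⟩
  · obtain ⟨W, e, -, -, c⟩ := x.ord_eq K.par.q2
    have d := Int.natCast_dvd_natCast.1 (e ▸ (Int.natCast_dvd_natCast.2 L.pp).trans K.dvd)
    have := ((c.symm.coprime_dvd_left (dvd_pow_self p hf.ne')).pow_left g |>.pow_left N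
      ).dvd_of_dvd_mul_right d
    rw [← pow_mul, ← pow_mul, Nat.pow_dvd_pow_iff_le_right hp.one_lt] at this
    rw [← mul_assoc, ← mul_assoc, e1, mul_right_comm f]
    exact Nat.mul_le_mul_right _ this
  · obtain ⟨j, hj, c, e2⟩ := k1 e he e4
    exact ⟨j, hj, c, Nat.eq_of_mul_eq_mul_left g0 (by
      rw [← mul_assoc, e2, mul_right_comm e, mul_left_comm g, e1]; ring)⟩
  · obtain ⟨i, hi, c, e2⟩ := k2 j hj (.inl h1) (h1.trans (Nat.le_mul_of_pos_left j g0))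
      fun c => h2 (c.2 ▸ dvd_mul_left j g)
    exact ⟨i, hi, c, Nat.eq_of_mul_eq_mul_left g0 (by
      rw [mul_left_comm, e1, ← mul_assoc, mul_comm i, e2]; ring)⟩

theorem KE.low3 (K : KE h .F4 q) {e : ℕ}
    (hh : (h : ℤ) ∣ q ^ e * (q ^ 12 - 1) * (q ^ 8 - 1) ^ 3) : False := by
  have hq := K.par.q4
  obtain ⟨u, hu⟩ := zsig (a := q) (m := 3) (by omega) le_rfl (by omega)
  have ho := hu.ord_eq (by omega) (by omega)
  have hup : Prime (u : ℤ) := Nat.prime_iff_prime_int.1 hu.pr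
  have hW0 : (q : ℤ) ^ 12 - 1 ≠ 0 := by
    have : (1 : ℤ) < q ^ 12 := one_lt_pow₀ (by exact_mod_cast (by omega)) (by omega)
    omega
  obtain ⟨W, h1, h2⟩ := (Int.finiteMultiplicity_iff.2 ⟨by simpa using hu.pr.ne_one, hW0⟩ :
    FiniteMultiplicity (u : ℤ) ((q : ℤ) ^ 12 - 1)).exists_eq_pow_mul_and_not_dvd
  generalize multiplicity (u : ℤ) ((q : ℤ) ^ 12 - 1) = i at h1
  have hd : (u : ℤ) ∣ (q : ℤ) ^ 6 - 1 := (Ord.dvd_iff 6).2 (by rw [ho]; norm_num)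
  have h4 : u ^ (i + 1) ∣ h := by
    refine K.kept u (i + 1) hu.pr (by rw [ho]; decide) (dvd_trans (b := ((q : ℤ) ^ 12 - 1) *
      (q ^ 6 - 1)) ?_ ⟨q ^ 24 * (q ^ 8 - 1) * (q ^ 2 - 1), by simp only [Ex.ord]; ring⟩)
    rw [h1, Nat.cast_pow, pow_succ]
    exact mul_dvd_mul (dvd_mul_right _ _) hd
  have h5 : (u : ℤ) ∣ q ^ e * W * (q ^ 8 - 1) ^ 3 := by
    have := (Int.natCast_dvd_natCast.2 h4).trans hh
    rw [h1, Nat.cast_pow, pow_succ, mul_left_comm, mul_assoc] at this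
    exact (mul_dvd_mul_iff_left (pow_ne_zero _ hup.ne_zero)).1 this
  rcases hup.dvd_or_dvd h5 with d | d
  · rcases hup.dvd_or_dvd d with d | d
    · exact hu.not_dvd (by omega) (by omega) (Int.natCast_dvd_natCast.1 (hup.dvd_of_dvd_pow d))
    · exact h2 d
  · have := (Ord.dvd_iff 8).1 (hup.dvd_of_dvd_pow d)
    rw [ho] at this
    omega

theorem lin_aux1 (hx : x ∈ bigs) {N D : ℕ} {I : Finset ℕ} (S : Surv x N D I) : N ≤ D * 4 := by
  have a := (te_sz x hx).2.2.1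
  refine Nat.le_of_mul_le_mul_right (S.1.trans ?_) (show 0 < x.top by cases x <;> decide)
  rw [mul_assoc]
  exact Nat.mul_le_mul_left _ a

theorem KE.lin (hp : p.Prime) (hf : 0 < f) (K : KE h x (p ^ f)) (hg : 0 < g) (hm : 2 ≤ m)
    (hh : h * Nat.gcd m (p ^ g - 1) = ordSL m (p ^ g)) : False := by
  obtain ⟨e, S⟩ := K.same hp hf (lt_A hp hg hm hh)
  have a := lin_aux1 K.par.mem S
  obtain ⟨rfl, rfl⟩ := tm_A x K.par.mem m (MP_7d41f7_al.KE.lin_aux2 (by omega)) hm S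
  obtain rfl : g = f * 4 := by simp only [Ex.top] at e; omega
  have q2 := K.par.q2
  rw [pow_mul] at hh
  generalize p ^ f = q at *
  have hz := congrArg (Nat.cast : ℕ → ℤ) hh
  have h1 : ∀ i, 1 ≤ (q ^ 4) ^ i := fun i => Nat.one_le_pow _ _ (by positivity)
  rw [Nat.cast_mul, ordSL, show Icc 2 3 = {2, 3} from rfl, prod_insert (by decide), prod_singleton,
    Nat.cast_mul, Nat.cast_mul, Nat.cast_sub (h1 2), Nat.cast_sub (h1 3)] at hz
  refine K.low3 (e := 12) ((Dvd.intro _ hz).trans ⟨(q ^ 8 - 1) ^ 2, ?_⟩)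
  push_cast
  ring

theorem KE.uni (hp : p.Prime) (hf : 0 < f) (K : KE h x (p ^ f)) (hg : 0 < g) (hm : 3 ≤ m) :
    ¬ OrdU m (p ^ g : ℕ) h := by
  intro hh
  obtain ⟨e, S⟩ := K.same hp hf (lt_2A hp hg hm hh)
  have a := lin_aux1 K.par.mem S
  obtain ⟨rfl, rfl⟩ := tm_U x K.par.mem m (MP_7d41f7_al.KE.lin_aux2 (by split_ifs at a <;> omega)) hm S
  obtain rfl : g = f * 2 := by norm_num [Ex.top] at e; omega
  rw [pow_mul, OrdU, show Icc 2 4 = {2, 3, 4} from rfl, prod_insert (by decide),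
    prod_insert (by decide), prod_singleton] at hh
  generalize p ^ f = q at *
  refine K.low3 (e := 12) ((Dvd.intro _ hh).trans ⟨(q ^ 6 - 1) * (q ^ 4 + 1) * (q ^ 8 - 1), ?_⟩)
  push_cast
  ring

theorem KE.sym (hp : p.Prime) (hf : 0 < f) (K : KE h x (p ^ f)) (hg : 0 < g) (hm : 2 ≤ m) :
    ¬ OrdB m (p ^ g : ℕ) h := by
  intro hh
  obtain ⟨e, S⟩ := K.same hp hf (lt_B hp hg hm hh)
  have a := lin_aux1 K.par.mem S
  obtain ⟨rfl, rfl⟩ := tm_B x K.par.mem m (by nlinarith) hm S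
  obtain rfl : g = f * 2 := by simp only [Ex.top] at e; omega
  rw [pow_mul, OrdB, show Icc 1 3 = {1, 2, 3} from rfl, prod_insert (by decide),
    prod_insert (by decide), prod_singleton] at hh
  generalize p ^ f = q at *
  refine K.low3 (e := 18) ((Dvd.intro _ hh).trans ⟨(q ^ 4 + 1) * (q ^ 8 - 1), ?_⟩)
  push_cast
  ring

theorem KE.ort (hp : p.Prime) (hf : 0 < f) (K : KE h x (p ^ f)) (hg : 0 < g) {ε : ℤ}
    (hε : ε = 1 ∨ ε = -1) (hm : 4 ≤ m) : ¬ OrdD ε m (p ^ g : ℕ) h := by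
  intro hh
  have b := Nat.div_le_self (m * (m - 1)) 2
  rcases hε with rfl | rfl
  · obtain ⟨e, S⟩ := K.same hp hf (lt_D hp hg hm hh)
    have a := lin_aux1 K.par.mem S
    obtain ⟨rfl, rfl⟩ := (tm_D x K.par.mem m (MP_7d41f7_al.KE.lin_aux2 (by omega)) hm).1 S
    obtain rfl : g = f * 2 := by simp only [Ex.top] at e; omega
    rw [pow_mul, OrdD, show Icc 1 (4 - 1) = {1, 2, 3} from rfl, prod_insert (by decide),
      prod_insert (by decide), prod_singleton] at hh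
    generalize p ^ f = q at *
    refine K.low3 (e := 24) ((Dvd.intro _ hh).trans ⟨q ^ 4 + 1, ?_⟩)
    push_cast
    ring
  · simp only [OrdD, sub_neg_eq_add] at hh
    obtain ⟨-, S⟩ := K.same hp hf (lt_2D hp hg hm hh)
    have a := lin_aux1 K.par.mem S
    exact (tm_D x K.par.mem m (MP_7d41f7_al.KE.lin_aux2 (by omega)) hm).2 S

theorem KE.exc (hp : p.Prime) (hf : 0 < f) (K : KE h x (p ^ f)) (hg : 0 < g) {y : Ex}
    (hh : (h : ℤ) * y.cen (p ^ g : ℕ) = y.ord (p ^ g : ℕ)) : y = x ∧ p ^ g = p ^ f := by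
  obtain ⟨a, b⟩ := K.same hp hf (Ex.lt hp hg hh)
  obtain rfl := (tm_E x K.par.mem).1 y (by cases y <;> decide) b
  rw [Nat.eq_of_mul_eq_mul_right (by cases y <;> decide) a]
  exact ⟨rfl, rfl⟩

theorem KE.ree (hp : p.Prime) (hf : 0 < f) (K : KE h x (p ^ f)) (hg : 0 < g) :
    ¬ ReeOrd (p ^ g : ℕ) h := fun hh => by
  obtain ⟨-, a, b, c⟩ := tm_E x K.par.mem
  rcases hh.lt hp hg with L | L | L
  exacts [a (K.same hp hf L).2, b (K.same hp hf L).2, c (K.same hp hf L).2]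

end Pool.Agent.Lib.MP_7d41f7_al.Mi
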