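import Pool.Agent.Lib.MP_7d41f7_al.H.FA
import Pool.Agent.Lib.MP_7d41f7_al.H.JS

/-! The exceptional groups with `4 ≤ q < 256`: the section in cross characteristic. -/

set_option autoImplicit false

namespace Pool.Agent.Lib.MP_7d41f7_al.Mi

open Finset

variable {x : Ex} {h q r u v g k c p f m : ℕ}

/-- What is known about the order `h` of the simple section. -/
structure KE (h : ℕ) (x : Ex) (q : ℕ) : Prop where
  par : ParE x q
  dvd : (h : ℤ) ∣ x.ord q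
  kept : ∀ u i : ℕ, u.Prime → Ord q u ∈ x.kt → ((u ^ i : ℕ) : ℤ) ∣ x.ord q → u ^ i ∣ h

theorem tight_E_aux1 (P : ParE x q) (hc : (g : ℤ) * c = x.ord q) : g ≠ 0 := fun e => by
  obtain ⟨W, h1, h2, -⟩ := x.ord_eq P.q2
  rw [h1, e, Nat.cast_zero, zero_mul, eq_comm, Nat.cast_eq_zero] at hc
  exact (Nat.mul_pos (pow_pos (Nat.zero_lt_of_lt P.q2) _) h2).ne' hc

theorem tight_E_aux2 {y i : ℕ} (P : ParE x q) (hc : (g : ℤ) * c = x.ord q)
    (hc' : ∀ r, r.Prime → r ∣ c → Ord q r ≤ 2) (hy : y ∈ x.kt) (h1 : x.mu y = 1) (hr : r.Prime)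
    (ho : Ord q r = y) (h : r ^ i ∣ pk q y) : r ^ i ∣ g := by
  have a := pk_dvd (q := q) P.mem hy
  rw [h1, pow_one, ← hc, ← Nat.cast_mul, Int.natCast_dvd_natCast] at a
  refine ((hr.coprime_iff_not_dvd.2 fun d => ?_).pow_left _).dvd_of_dvd_mul_right (h.trans a)
  have := hc' r hr d
  have := (tm_ks x P.mem y hy).1.1
  omega

theorem tight_E (P : ParE x q) (hc : (g : ℤ) * c = x.ord q)
    (hc' : ∀ r, r.Prime → r ∣ c → Ord q r ≤ 2) (hr : r.Prime) (hg : Ord q r ∈ x.rs) :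
    ∃ u, u.Prime ∧ Ord q u ∈ x.kt ∧ Ord q u ≠ Ord q r ∧ ¬ u ^ g.factorization u ≡ 1 [MOD r] := by
  have T := tm_gs x P.mem
  have h3 := (tm_ks x P.mem _ (T.1 hg)).1.1
  obtain ⟨y, ⟨hy, ha, hb⟩, hw⟩ := (T.2.2.2 _ hg).2.2.1.ex P.q2 (by omega)
  by_contra hn
  refine hw r hr rfl ?_
  have hp : pk (q : ℤ) y ≠ 0 := pk_pos.ne'
  rw [← Nat.prod_factorization_pow_eq_self hp]
  refine prod_induction _ (· ≡ 1 [MOD r]) (fun _ _ i j => by simpa using i.mul j) rfl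
    fun u hu => ?_
  have u1 := Nat.prime_of_mem_primeFactors hu
  have u2 : Ord q u = y := pk_ord u1 (Nat.dvd_of_mem_primeFactors hu)
  have e : (pk (q : ℤ) y).factorization u = g.factorization u := by
    refine le_antisymm ((u1.pow_dvd_iff_le_factorization (tight_E_aux1 P hc)).1
      (tight_E_aux2 P hc hc' hy hb u1 u2 (Nat.ordProj_dvd _ u)))
      ((u1.pow_dvd_iff_le_factorization hp).1 ?_)
    have := Ex.pow_dvd P.q2 u1 (u2 ▸ (tm_ks x P.mem y hy).1)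
      ((Int.natCast_dvd_natCast.2 (Nat.ordProj_dvd g u)).trans ⟨c, hc.symm⟩)
    rwa [u2, hb, pow_one] at this
  rw [e]
  by_contra k
  exact hn ⟨u, u1, u2 ▸ hy, u2 ▸ ha, k⟩

theorem notK_E (P : ParE x q) (hc : (g : ℤ) * c = x.ord q)
    (hc' : ∀ r, r.Prime → r ∣ c → Ord q r ≤ 2) (hk : k ∣ g) (hu : u.Prime) (h0 : Ord q u ∈ x.kt)
    (h1 : Ord q u ∉ x.rs) (free : ∀ r, r.Prime → Ord q r ∈ x.rs →
      u ^ k.factorization u ≡ 1 [MOD r ^ g.factorization r]) : ¬ u ∣ k := by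
  intro uk
  have g0 := tight_E_aux1 P hc
  have h4 : 1 < u ^ k.factorization u := Nat.one_lt_pow
    (hu.factorization_pos_of_dvd (ne_zero_of_dvd_ne_zero g0 hk) uk).ne' hu.one_lt
  have h5 := P.pp hu h0
    (hc ▸ (Int.natCast_dvd_natCast.2 ((Nat.ordProj_dvd k u).trans hk)).mul_right _)
  have h6 : pr q x.rs ∣ u ^ k.factorization u - 1 := by
    refine (Nat.dvd_iff_prime_pow_dvd_dvd _ _).2 fun r i hr hi => ?_
    rcases i with _ | i
    · simp
    have a1 := pr_ord hr ((dvd_pow_self r i.succ_ne_zero).trans hi)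
    exact (pow_dvd_pow r ((hr.pow_dvd_iff_le_factorization g0).1
      (tight_E_aux2 P hc hc' ((tm_gs x P.mem).1 a1) ((tm_gs x P.mem).2.2.2 _ a1).2.1 hr rfl
        (pr_pow hr hi)))).trans
        ((Nat.modEq_iff_dvd' h4.le).1 (free r hr a1).symm)
  have := Nat.le_of_dvd (by omega) h6
  have := (P.sz.1 _ h0).1.resolve_left h1
  omega

theorem notA_E (P : ParE x q) (hu : u.Prime) (h0 : Ord q u ∈ x.kt) (h1 : Ord q u ∉ x.rs)
    (top : ∀ r, r.Prime → Ord q r ∈ x.rs → u ∣ r - 1) : False := by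
  have T := tm_ks x P.mem _ h0
  obtain ⟨y, hy, hw⟩ := (T.2.2.resolve_left h1).ex P.q2 (by have := T.1.1; omega)
  exact hw u hu rfl (not_a_aux2 _ pk_pos fun r hr e => top r hr ((pk_ord hr e).symm ▸ hy))

theorem KE.pos (K : KE h x q) : 0 < h := Nat.pos_of_ne_zero fun e => by
  obtain ⟨W, h1, h2, -⟩ := x.ord_eq K.par.q2
  have h3 := K.dvd
  rw [e, h1, Int.natCast_dvd_natCast, zero_dvd_iff] at h3
  exact (Nat.mul_pos (pow_pos (zero_lt_two.trans_le K.par.q2) _) h2).ne' h3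

theorem KE.T_dvd (K : KE h x q) : T x q ∣ h := by
  refine prod_dvd_of_isRelPrime (fun i _ j _ e => Nat.coprime_iff_isRelPrime.1
    ((pk_cop e).pow _ _)) fun e he => (Nat.dvd_iff_prime_pow_dvd_dvd _ _).2 fun r i hr hi => ?_
  rcases i with _ | i
  · simp
  exact K.kept r _ hr ((pk_ord hr (hr.dvd_of_dvd_pow ((dvd_pow_self r i.succ_ne_zero).trans
    hi))).symm ▸ he) ((Int.natCast_dvd_natCast.2 hi).trans (pk_dvd K.par.mem he))

theorem KE.pr_dvd (K : KE h x q) : pr q x.rs ∣ h := by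
  obtain ⟨h1, -, -, h2⟩ := tm_gs x K.par.mem
  refine ((prod_dvd_prod_of_dvd _ _ fun e he => ?_).trans
    (prod_dvd_prod_of_subset _ _ _ h1)).trans K.T_dvd
  rw [(h2 e he).2.1, pow_one]

theorem T_ord (hr : r.Prime) (h : r ∣ T x q) : Ord q r ∈ x.kt := by
  obtain ⟨e, he, h1⟩ := (hr.prime.dvd_finsetProd_iff _).1 h
  rwa [pk_ord hr (hr.dvd_of_dvd_pow h1)]

theorem KE.not_spor (K : KE h x q) : h ∉ sporOrd := fun e =>
  K.par.sz.2.2.2.2.1 (K.T_dvd.trans (((dvd_mul_left h 6).trans (Lo.spor_fac h e).1).trans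
    (Nat.factorial_dvd_factorial (by omega))))

theorem KE.cross (K : KE h x q) (hv : v.Prime) (hq : ¬ v ∣ q) (h1 : v ^ k ∣ h)
    (h2 : h ^ 3 ≤ (v ^ k) ^ 8) : False := by
  have a0 := (Int.natCast_dvd_natCast.2 h1).trans K.dvd
  by_cases hg : Ord q v ∈ x.kt
  · exact absurd (((Nat.pow_le_pow_left (Nat.le_of_dvd K.pos K.T_dvd) 3).trans h2).trans
      (Nat.pow_le_pow_left (K.par.pp hv hg a0) 8)) (K.par.sz.1 _ hg).2.1.not_ge
  have a1 : v ^ k * T x q ∣ h := ((hv.coprime_iff_not_dvd.2 fun d =>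
    hg (T_ord hv d)).pow_left k).mul_dvd_of_dvd_of_dvd h1 K.T_dvd
  have a2 := (Nat.pow_le_pow_left (Nat.le_of_dvd K.pos a1) 3).trans h2
  rw [mul_pow, show (8 : ℕ) = 3 + 5 from rfl, pow_add,
    Nat.mul_le_mul_left_iff (pow_pos (pow_pos hv.pos k) 3)] at a2
  exact absurd a2 (K.par.sz1 hv hq a0).not_ge

theorem KE.cross3 (K : KE h x q) (hv : v.Prime) (ho : Ord q v ∈ x.kt) (h1 : v ^ k ∣ h)
    (h2 : h ≤ (v ^ k) ^ 3) (hs : x = .F4) : False :=
  absurd (((Nat.le_of_dvd K.pos K.T_dvd).trans h2).trans (Nat.pow_le_pow_left (K.par.pp hv ho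
    ((Int.natCast_dvd_natCast.2 h1).trans K.dvd)) 3)) ((K.par.sz.1 _ ho).2.2 hs).not_ge

theorem KE.not_alt (hp : p.Prime) (K : KE h x (p ^ f)) (hh : 2 * h = m.factorial)
    (hm : ∀ r, r.Prime → Ord (p ^ f : ℕ) r ∈ x.rs → r ∣ h → m < 2 * r) : False := by
  have m0 : 0 < m := Nat.pos_of_ne_zero fun e => by
    rw [e, Nat.factorial_zero] at hh
    omega
  have d : h ∣ m.factorial := hh ▸ dvd_mul_left h 2
  have b0 := KD.not_alt_aux22 m0 (K.pr_dvd.trans d)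
    fun r hr e => hm r hr (pr_ord hr e) (e.trans K.pr_dvd)
  have b1 : 200 ≤ m := not_lt.1 fun c => K.par.sz.2.2.2.2.1
    (K.T_dvd.trans (d.trans (Nat.factorial_dvd_factorial (by omega))))
  obtain ⟨j, w, hw, e⟩ := Nat.exists_eq_pow_mul_and_not_dvd K.pos.ne' p hp.ne_one
  have b2 := K4.not_alt_aux2 hp ((Dvd.intro _ e.symm).trans d)
  obtain ⟨W, w1, w2, w3, -⟩ := x.ord_eq K.par.q2
  have b3 : w ≤ W := Nat.le_of_dvd w2
    ((((hp.coprime_iff_not_dvd.2 hw).symm.pow_right f).pow_right _).dvd_of_dvd_mul_left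
      ((Dvd.intro_left _ e.symm).trans (Int.natCast_dvd_natCast.1 (w1 ▸ K.dvd))))
  refine absurd (MP_7d41f7_al.KE.not_alt_aux1 b1) (not_lt.2 ?_)
  calc m.factorial = 2 * (p ^ j * w) := by rw [← hh, e]
    _ ≤ 2 * (2 ^ m * (2 ^ 46 * (m * 2 ^ m)) ^ 4) := by
      gcongr
      exact b3.trans (w3.trans (K.par.sz.2.2.2.2.2.trans (by gcongr)))
    _ = 2 ^ 185 * (m ^ 4 * 32 ^ m) := by
      rw [show 32 ^ m = (2 ^ m) ^ 5 by rw [← pow_mul, mul_comm, pow_mul]; rfl]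
      ring

end Pool.Agent.Lib.MP_7d41f7_al.Mi
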