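import Pool.Agent.Lib.MP_7d41f7_al.H.HCh
import Pool.Agent.Lib.MP_7d41f7_al.E.RFin

/-! Vanishing elements of the Suzuki and Ree groups over small fields. -/

set_option autoImplicit false

namespace Pool.Agent.Lib.MP_7d41f7_al

variable {l : ℕ} {M : Matrix (Fin l) (Fin l) ℤ} {g : Equiv.Perm (Fin l)} {β : Fin l → Fin l}
  {d p m r a b : ℕ} {P : List (Fin l × List (Fin l))} {θ : Lat l} {S : Type} [Group S] {y : Re}

theorem CG.RD.line {K Γ : Type} [Field K] [Group Γ] {C : CG M K Γ} {τ : Γ →* Γ} {ρ : Γ → Γ}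
    (D : C.RD g β τ ρ a b) (T : RT M g β d) [Finite K] [Finite Γ] (hθ : θ ∈ roots M) (p0 : 0 ≤ θ)
    (hd : ∀ k, 0 ≤ ip M (sr k) θ) (e : ga g θ = θ)
    (h : ∀ c ∈ roots M, ga g c = c → c ≠ θ → ∃ i, g i = i ∧ ¬ ((Nat.card K - 1 : ℕ) : ℤ) ∣
      ip M (so g i) (θ - c) + a * ip M (so g (β i)) (θ - c))
    (hr : r.Prime) (h1 : ¬ r ∣ Nat.card K) (h2 : ¬ r ∣ Nat.card K - 1)
    (h3 : ∀ p, p.Prime → p ∣ Nat.card K → ¬ Adj (C.St τ) p r) (x : D.hm.fix)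
    (hx : r ∣ orderOf x) : orderOf x ∈ Vo D.hm.fix := by
  have hA := T.dia.ade
  obtain ⟨c, hc⟩ := IsCyclic.exists_ofOrder_eq_natCard (α := Kˣ)
  rw [Nat.card_units] at hc
  refine van_line hA (D.cl T) hθ hd (fun w hw hne => ?_) hr h2
    (fun z hz => not_com hA D.hom hθ p0 e hr h1 h3 z hz.1) x hx
  obtain ⟨w1, w2⟩ := mem_Wf.1 (D.pw T hw).1
  obtain ⟨i, gi, hi⟩ := h _ ((hA.W_root w1).2 hθ)
    (by rw [← LinearEquiv.mul_apply, ← w2, LinearEquiv.mul_apply, e]) hne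
  obtain ⟨y, y1, y2, y3⟩ := exists_hT hA T.dia.sy D.hom (ind_mem (g := g) i c)
  obtain ⟨-, y4, y5⟩ := D.tor T (ind_mem i c) y1 y3
  have k := Chi.mul (χ := ccs M K _) y3 y5
  rw [T.bt_ind, ccs_ind, ccs_ind, ex, if_pos gi] at k
  refine ⟨_, mul_mem y1 y4, ⟨mul_mem y2 (D.hm.mem y y2), ?_⟩, _, k, fun e => hi ?_⟩
  · rw [D.hm.mul _ y2 _ (D.hm.mem y y2), D.sq T y y2, (T_comm hA y4 y1).eq]
  rw [← hc, orderOf_dvd_iff_zpow_eq_one, zpow_add, zpow_mul, zpow_natCast, ip_sub_right,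
    ip_sub_right, zpow_sub, zpow_sub, mul_mul_mul_comm, ← mul_inv, mul_inv_eq_one]
  exact e.symm

/-- The exponent is small and not zero. -/
def Sm (p : ℕ) (A B : ℤ) : Prop :=
  |A| ≤ 3 ∧ |B| ≤ 2 * p ∧ (A ≠ 0 ∧ B = 0 ∨ p ≤ |B|) ∧ (p = 2 → ¬ 7 ∣ A + 2 * B)

instance (A B : ℤ) : Decidable (Sm p A B) := by
  unfold Sm
  infer_instance

theorem Sm.nd {A B : ℤ} (h : Sm p A B) (hp : p = 2 ∨ p = 3) (hm : 1 ≤ m) :
    ¬ ((p ^ (2 * m + 1) - 1 : ℕ) : ℤ) ∣ A + (p ^ m : ℕ) * B := by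
  obtain ⟨h1, h2, h3, h4⟩ := h
  by_cases e : p = 2 ∧ m = 1
  · obtain ⟨rfl, rfl⟩ := e
    exact h4 rfl
  have u3 : 3 ≤ p ^ m := by
    rcases hp with rfl | rfl
    · exact le_trans (by decide) (Nat.pow_le_pow_right two_pos (show 2 ≤ m by omega))
    · exact Nat.le_self_pow (by omega) 3
  rw [Nat.cast_pred (pow_pos (by omega) _), show p ^ (2 * m + 1) = p * (p ^ m * p ^ m) by ring]
  generalize p ^ m = u at u3
  have u4 : (3 : ℤ) ≤ u := by exact_mod_cast u3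
  have p2 : (2 : ℤ) ≤ p := by omega
  have e1 : |(u : ℤ) * B| = u * |B| := by rw [abs_mul, Nat.abs_cast]
  intro k
  have k1 := abs_add_le A (u * B)
  have k3 : (u : ℤ) * |B| ≤ u * (2 * p) := mul_le_mul_of_nonneg_left h2 (by omega)
  have k4 : (6 : ℤ) ≤ p * u := by nlinarith
  have k2 := Int.eq_zero_of_abs_lt_dvd k (by push_cast; nlinarith)
  rcases h3 with ⟨a, rfl⟩ | a
  · exact a (by simpa using k2)
  · rw [show (u : ℤ) * B = -A by omega, abs_neg] at e1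
    nlinarith

theorem IsRe.line (T : RT M g β d) (hP : PLs g β P) (h : IsRe S M g P p m)
    (hi : ∀ (K : Type) [Field K] [Finite K], Nat.card K = p ^ (2 * m + 1) →
      Nat.card (TFs (RingHom.id K) g ⊓ (ccs M K).ker : Subgroup _) = 1) {L : List (Lat l)}
    (hL : RL M L) (hθ : ip M θ θ = 2 ∧ (∀ k, 0 ≤ θ k) ∧ (∀ k, 0 ≤ ip M (sr k) θ) ∧
      (∀ k, θ (g k) = θ k) ∧ ∀ c ∈ pm L, (∀ k, c (g.symm k) = c k) → c ≠ θ →
        ∃ i, g i = i ∧ Sm p (ip M (so g i) (θ - c)) (ip M (so g (β i)) (θ - c)))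
    (hp : p = 2 ∨ p = 3) (hm : 1 ≤ m) (hr : r.Prime)
    (h1 : 1 < Ord ((p ^ (2 * m + 1) : ℕ) : ℤ) r)
    (h2 : ∀ (A : Type) [Group A], IsCh A M g 1 (p ^ (2 * m + 1)) → ∀ u, u.Prime →
      u ∣ p ^ (2 * m + 1) → ¬ Adj A u r) (x : S) (hx : r ∣ orderOf x) : orderOf x ∈ Vo S := by
  obtain ⟨K, _, _, τ, ρ, D, hK, ⟨e⟩⟩ := h.model T hP hi
  obtain ⟨a1, a2, a3, a4, a5⟩ := hθ
  have hA := T.dia.ade
  have := Fintype.ofFinite K
  obtain ⟨σ, s1, ⟨s2⟩⟩ := steinb_iso hA T.dia.sy (q := p ^ (2 * m + 1)) (RingHom.id K) fun s => by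
    rw [← hK, Nat.card_eq_fintype_card, FiniteField.pow_card, RingHom.id_apply]
  obtain rfl := s1.ext D.hom
  rw [Vo_congr e, ← e.orderOf_eq x] at *
  refine D.line T (hA.mem_roots.2 a1) a2 a3
    (funext fun k => by rw [ga_apply, ← a4, g.apply_symm_apply]) (fun c hc c1 c2 => ?_) hr
    (hK ▸ hr.coprime_iff_not_dvd.1 (Tp.lat_aux hr (by omega))) (fun c => ?_)
    (hK ▸ h2 _ ⟨K, inferInstance, inferInstance, by rw [hK, pow_one], ⟨s2.symm⟩⟩) _ hx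
  · exact (a5 c (hL.mem hA hc) (congrFun c1) c2).imp fun i k => ⟨k.1, hK ▸ k.2.nd hp hm⟩
  · rw [hK, ← Int.natCast_dvd_natCast, Nat.cast_pred (pow_pos (by omega) _)] at c
    have := Nat.le_of_dvd one_pos ((Ord.dvd_iff 1).1 (by rwa [pow_one]))
    omega

/-- The elements of order divisible by a prime divisor of the order of the torus vanish. -/
theorem IsRee.van' (h : IsRee S y m) (hm : 1 ≤ m) (hr : r.Prime) (h1 : r ∣ y.tor m) (x : S)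
    (hx : r ∣ orderOf x) : orderOf x ∈ Vo S := by
  have k : ∀ (A : Type) [Group A], Re.Amb A y (y.q m) → ∀ u, u.Prime → u ∣ y.q m →
      ¬ Adj A u r := fun A _ a u hu d ad => by
    obtain ⟨z, c, i, o, h3⟩ := a.isol
    obtain ⟨w, hw⟩ := id ad
    refine i.nad r u hr hu (o ▸ h1) (((Nat.Prime.dvd_mul hu).1 (i.card ▸ (dvd_mul_right u r).trans
      (hw ▸ orderOf_dvd_natCard w))).resolve_left fun e => ?_) ad
    have := (h3 u hu (o ▸ e)).1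
    rw [Ord.eq_zero hu (Int.natCast_dvd_natCast.2 d)] at this
    cases y <;> contradiction
  obtain ⟨A, _, f, h2, -⟩ := h.amb
  obtain ⟨_, _, -, -, h3⟩ := h2.isol
  have h4 : 1 < Ord (y.q m) r := by
    rw [(h3 r hr h1).1]
    cases y <;> decide
  cases y
  exacts [IsRe.line (θ := ![1, 1, 1]) rt_A3 pl_A3 h card_B2 rl_A3 (by decide +kernel) (.inl rfl) hm
      hr h4 k x hx,
    IsRe.line (θ := ![1, 2, 1, 1]) rt_D4 pl_D4 h (fun _ _ _ _ => z_D4) rl_D4 (by decide +kernel)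
      (.inr rfl) hm hr h4 k x hx,
    IsRe.line (θ := ![1, 2, 2, 3, 2, 1]) rt_E6 pl_E6 h card_F4 rl_E6 (by decide +kernel) (.inl rfl)
      hm hr h4 k x hx]

end Pool.Agent.Lib.MP_7d41f7_al
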