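import Pool.Agent.Lib.MP_7d41f7_al.E.RBn
import Pool.Agent.Lib.MP_7d41f7_al.E.EFin

/-! The character induced from the normaliser of a root subgroup. -/

set_option autoImplicit false

namespace Pool.Agent.Lib.MP_7d41f7_al

variable {l : ℕ} {M : Matrix (Fin l) (Fin l) ℤ} {θ β : Lat l} {i j : Fin l}

/-- One of three coroots has a small value on the difference of two roots. -/
theorem Ade.line_exp (hA : Ade M) (hθ : θ ∈ roots M)
    (h0 : ∀ k, ip M (sr k) θ = if k = i then 1 else 0) (hj : ip M (sr j) (sr i) = -1)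
    (hβ : β ∈ roots M) (hne : β ≠ θ) :
    (ip M θ (θ - β) = 1 ∨ ip M θ (θ - β) = 2) ∨
      (ip M (sr i) (θ - β) = 1 ∨ ip M (sr i) (θ - β) = 2) ∨
        ip M (sr j) (θ - β) = 1 ∨ ip M (sr j) (θ - β) = -1 := by
  have r := hA.sr_mem
  have e1 := hA.mem_roots.1 hθ
  have e2 := hA.mem_roots.1 (r i)
  have e3 := hA.mem_roots.1 hβ
  have e4 := h0 i
  have e5 := h0 j
  rw [if_pos rfl] at e4
  rw [if_neg (by rintro rfl; omega)] at e5
  have e6 := ip_comm (M := M) θ (sr i)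
  simp only [ip_sub_right]
  rcases hA.ip_cases hθ hβ with rfl | c | c | c | c
  · simp only [ip_neg_right]
    omega
  · rcases hA.ip_cases (r i) hβ with rfl | d | d | d | rfl
    · simp only [ip_neg_right]
      omega
    · omega
    · omega
    · have : β - sr i + θ = 0 := by
        by_contra k
        have := hA.pos _ k
        have e7 := ip_comm (M := M) θ β
        have e8 := ip_comm (M := M) β (sr i)
        simp only [ip_add_left, ip_add_right, ip_sub_left, ip_sub_right] at this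
        omega
      obtain rfl : β = sr i - θ := by linear_combination this
      simp only [ip_sub_right]
      omega
    · omega
  · omega
  · omega
  · exact absurd c hne

namespace CG

variable {K Γ : Type} [Field K] [Group Γ] {C : CG M K Γ} {F : Subgroup Γ}

/-- The elements that act on the root subgroup of `θ` by a scalar. -/
def Ln (C : CG M K Γ) (θ : Lat l) : Subgroup Γ where
  carrier := {g | ∃ c : Kˣ, ∀ t, g * C.x θ t * g⁻¹ = C.x θ (c * t)}
  one_mem' := ⟨1, by simp⟩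
  mul_mem' := by
    rintro a b ⟨c, hc⟩ ⟨d, hd⟩
    exact ⟨c * d, fun t => by
      rw [Units.val_mul, mul_assoc (c : K), ← hc, ← hd]
      group⟩
  inv_mem' := by
    rintro a ⟨c, hc⟩
    exact ⟨c⁻¹, fun t => by
      rw [← mul_right_inj a, ← mul_left_inj a⁻¹, hc, c.mul_inv_cancel_left]
      group⟩

theorem exists_lam (hθ : θ ∈ roots M) : ∃ lam : C.Ln θ →* Kˣ, ∀ (g : C.Ln θ) (c : Kˣ),
    (∀ t, g * C.x θ t * (g : Γ)⁻¹ = C.x θ (c * t)) ↔ lam g = c := by
  choose lam h using fun g : C.Ln θ => g.2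
  have u : ∀ (g : C.Ln θ) (c : Kˣ), (∀ t, g * C.x θ t * (g : Γ)⁻¹ = C.x θ (c * t)) ↔ lam g = c :=
    fun g c => ⟨fun k => Units.ext (by simpa using x_inj hθ ((h g 1).symm.trans (k 1))),
      fun k => k ▸ h g⟩
  refine ⟨MonoidHom.mk' lam fun a b => (u _ _).1 fun t => ?_, u⟩
  rw [Units.val_mul, mul_assoc (lam a : K), ← h a, ← h b, Subgroup.coe_mul]
  group

/-- The criterion of Mackey for the normaliser of the root subgroup of a dominant root. -/
theorem van_line (hA : Ade M) [Finite K] [Finite Γ] (hF : C.Cl F) (hθ : θ ∈ roots M)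
    (hd : ∀ k, 0 ≤ ip M (sr k) θ)
    (h : ∀ w ∈ C.Vw F, w θ ≠ θ → ∃ t ∈ C.T, t ∈ F ∧ ∃ χ, C.Chi t χ ∧
      χ (.ofAdd (w θ)) ≠ χ (.ofAdd θ)) {r : ℕ} (hr : r.Prime) (h2 : ¬ r ∣ Nat.card K - 1)
    (h3 : ∀ z ∈ F, orderOf z = r → ¬ Commute z (C.x θ 1)) (x : F)
    (hx : r ∣ orderOf x) : orderOf x ∈ Vo F := by
  obtain ⟨lam, hl⟩ := exists_lam (C := C) hθ
  obtain ⟨ι, hι⟩ := exists_units_hom K
  have cU : ∀ u ∈ C.U, ∀ t, u * C.x θ t * u⁻¹ = C.x θ t := fun u hu t => by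
    have : Commute (C.x θ t) u := Subgroup.closure_le (Subgroup.centralizer {C.x θ t}) |>.2 (by
      rintro _ ⟨a, ha, h0, s, rfl⟩ _ rfl
      refine (C.com0 _ hθ _ ha ?_ t s).eq
      rw [ip_sum]
      exact Finset.sum_nonneg fun k _ => mul_nonneg (h0 k) (ip_comm (M := M) θ _ ▸ hd k)) hu _ rfl
    rw [← this.eq, mul_inv_cancel_right]
  have cT : ∀ {t u : Γ} {χ}, C.Chi t χ → u ∈ C.U → ∀ s,
      u * t * u⁻¹ * C.x θ s * (u * t * u⁻¹)⁻¹ = C.x θ (χ (.ofAdd θ) * s) := fun {t u χ} ht hu s => by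
    rw [← cU u hu (_ * _), ← ht θ hθ]
    conv_rhs => rw [← cU _ (inv_mem hu) s]
    group
  refine mackey ((C.Ln θ).subgroupOf F)
    (ι.comp (lam.comp (F.subtype.subgroupComap (C.Ln θ)))) (fun y hy => ?_) fun y hy => ?_
  · obtain ⟨n, u, hu0, v, hv, e⟩ := bruhat' (C := C) hA y
    obtain ⟨u1, v1⟩ := hF.br n u hu0 v hv (e ▸ y.2)
    have hu : u ∈ C.U := Us_mono (fun a _ k => (mem_ivs.1 k).2.1) hu0
    have n1 : (n : Γ) ∈ F := by
      have := mul_mem (mul_mem (inv_mem u1) (e ▸ y.2 : u * n * v ∈ F)) (inv_mem v1)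
      rwa [← mul_assoc, mul_inv_cancel_right, inv_mul_cancel_left] at this
    have mU : ∀ u ∈ C.U, u ∈ C.Ln θ := fun u hu => ⟨1, fun t => by simpa using cU u hu t⟩
    obtain ⟨t, ht, t1, χ, t2, t3⟩ := h _ ⟨n, n1, rfl⟩ fun k => hy (Subgroup.mem_subgroupOf.2 (e ▸
      mul_mem (mul_mem (mU u hu) ((C.act n θ hθ).imp fun η k' s => (k' s).trans (by rw [k])))
        (mU v hv)))
    obtain ⟨ψ, hψ⟩ := exists_chi hA (conj_T n⁻¹ ht)
    let b : F := ⟨u * t * u⁻¹, mul_mem (mul_mem u1 t1) (inv_mem u1)⟩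
    have e2 : ((y⁻¹ * b * y : F) : Γ) =
        v⁻¹ * ((n⁻¹ : C.N) * t * ((n⁻¹ : C.N) : Γ)⁻¹) * v⁻¹⁻¹ := by
      simp only [b, Subgroup.coe_mul, Subgroup.coe_inv, e]
      group
    refine ⟨⟨b, _, cT t2 hu⟩, ⟨y⁻¹ * b * y, Subgroup.mem_subgroupOf.2
      (e2 ▸ ⟨_, cT hψ (inv_mem hv)⟩)⟩, rfl, fun k => ?_⟩
    have k1 : ψ (.ofAdd θ) = χ (.ofAdd θ) :=
      ((hl _ _).1 (fun s => by
        change ((y⁻¹ * b * y : F) : Γ) * _ * ((y⁻¹ * b * y : F) : Γ)⁻¹ = _
        rw [e2]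
        exact cT hψ (inv_mem hv) s)).symm.trans ((hι k).trans ((hl _ _).1 (cT t2 hu)))
    have k2 := t2.conj hA n⁻¹ hψ (C.π n θ)
    rw [map_inv, ← LinearEquiv.mul_apply, inv_mul_cancel, LinearEquiv.coe_one, id, k1] at k2
    exact t3 k2.symm
  · have := Fintype.ofFinite K
    generalize hz : y⁻¹ * x * y = z at hy
    have o : r ∣ orderOf (z ^ (Nat.card K - 1)) := by
      have o1 : orderOf z = orderOf x := by
        rw [← hz, show y⁻¹ * x * y = MulAut.conj y⁻¹ x by simp, MulEquiv.orderOf_eq]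
      have o2 : orderOf z ∣ (Nat.card K - 1) * orderOf (z ^ (Nat.card K - 1)) := by
        rw [orderOf_dvd_iff_pow_eq_one, pow_mul, pow_orderOf_eq_one]
      exact ((Nat.Prime.dvd_mul hr).1 ((o1 ▸ hx).trans o2)).resolve_left h2
    have c : Commute ((z ^ (Nat.card K - 1) : F) : Γ) (C.x θ 1) := by
      have := (hl (⟨z, hy⟩ ^ (Nat.card K - 1)) 1).2 (by
        rw [map_pow, ← Nat.card_units, pow_card_eq_one']) 1
      rw [Units.val_one, one_mul, mul_inv_eq_iff_eq_mul] at this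
      exact this
    refine h3 _ ((z ^ (Nat.card K - 1)) ^ (orderOf (z ^ (Nat.card K - 1)) / r)).2 ?_ (c.pow_left _)
    rw [Subgroup.orderOf_coe]
    exact orderOf_pow_orderOf_div (orderOf_pos _).ne' o

end CG

end Pool.Agent.Lib.MP_7d41f7_al
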