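import Pool.Agent.Lib.MP_7d41f7_al.D.JA

/-! The isolated tori of `G₂(q)` and `³D₄(q)` for `105 ≤ q`. -/

set_option autoImplicit false

namespace Pool.Agent.Lib.MP_7d41f7_al.Lo

/-- The arithmetic of the torus of order `T` and index `c`. -/
structure JA (x : Ex) (w T c e : ℕ) : Prop where
  big : 105 ≤ w
  ee : e = 4 ∨ e = 6
  tm : ∃ b, (b = 1 ∨ b = -1) ∧ T = tm b w ∧ (T : ℤ) = tph b w
  mod : (T : ℤ) ∣ c - e
  ord : (T : ℤ) * c = w ^ 6 * x.jy w
  split : ∀ u k, u.Prime → ¬ u ∣ w → u ^ k ∣ c → ∃ B t : ℤ, (u : ℤ) ^ k ∣ B ∧ 0 < B ∧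
    B ≤ 13 * w ^ 2 ∧ (T : ℤ) ∣ B - t ∧ 20 ≤ |t| ∧ 2 * |t| ≤ T

variable {b : ℤ} {x : Ex} {q w T c e r u k p f : ℕ}

theorem ja_G (hb : b = 1 ∨ b = -1) (h3 : ¬ 3 ∣ tph b q) (hq : 105 ≤ q) :
    ∃ c, JA .G2 q (tm b q) c 6 := by
  have h1 := tm_eq hb h3
  have q1 : (100 : ℤ) ≤ q := by omega
  have hb' : -b = 1 ∨ -b = -1 := by omega
  have h2 : 0 < tph (-b) q := by
    unfold tph
    rcases hb with rfl | rfl <;> nlinarith
  obtain ⟨c, hc⟩ := Int.eq_ofNat_of_zero_le (show 0 ≤ (q : ℤ) ^ 6 * ((q ^ 2 - 1) ^ 2 * tph (-b) q)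
    by positivity)
  refine ⟨c, hq, .inr rfl, ⟨b, hb, rfl, h1⟩, ?_, ?_, fun u k hu a d => ?_⟩
  · rw [h1, ← hc, tph, tph]
    rcases hb with rfl | rfl
    · exact ⟨q ^ 10 - 2 * q ^ 9 + 4 * q ^ 7 - 5 * q ^ 6 + 6 * q ^ 4 - 6 * q ^ 3 + 6 * q - 6, by
        push_cast; ring⟩
    · exact ⟨q ^ 10 + 2 * q ^ 9 - 4 * q ^ 7 - 5 * q ^ 6 + 6 * q ^ 4 + 6 * q ^ 3 - 6 * q - 6, by
        push_cast; ring⟩
  · rw [h1, ← hc, tph, tph, Ex.jy, if_neg (by decide)]
    rcases hb with rfl | rfl <;> ring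
  have d1 := pp_cancel hu (mt Int.natCast_dvd_natCast.1 a) 6
    (hc ▸ (by exact_mod_cast d : (u : ℤ) ^ k ∣ c))
  rw [h1]
  by_cases e : u ∣ tm (-b) q
  · refine ⟨_, -2 * b * q, pp_cancel hu (tm_not (tb_of hb') (by omega) hu e).2 2 d1, h2, ?_,
      ⟨1, by unfold tph; ring⟩, ?_⟩ <;> unfold tph <;> rcases hb with rfl | rfl
    · nlinarith
    · nlinarith
    · rw [abs_of_neg (by omega)]
      constructor <;> nlinarith
    · rw [abs_of_pos (by omega)]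
      constructor <;> nlinarith
  obtain ⟨η, h4, h5⟩ := sq_split' hu 1 (pp_cancel hu (mt Int.natCast_dvd_natCast.1 e) 1
    (d1.trans ((mul_dvd_mul_left _ (tph_split hb')).trans (dvd_of_eq (by ring)))))
  refine ⟨_, -12 * (2 * η + b) * q, h5, mul_pos (by omega) (mul_pos four_pos
    (pow_pos (by omega) 2)), by rcases h4 with rfl | rfl <;> nlinarith,
    ⟨12, by unfold tph; rcases h4 with rfl | rfl <;> ring⟩, ?_⟩
  unfold tph
  rcases hb with rfl | rfl <;> rcases h4 with rfl | rfl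
  · rw [abs_of_neg (by omega)]
    constructor <;> nlinarith
  · rw [abs_of_pos (by omega)]
    constructor <;> nlinarith
  · rw [abs_of_neg (by omega)]
    constructor <;> nlinarith
  · rw [abs_of_pos (by omega)]
    constructor <;> nlinarith

theorem ja_D (hq : 105 ≤ q) : ∃ c, JA .D3 (q ^ 2) (tm (-1) (q ^ 2)) c 4 := by
  have h1 := tm_eq (.inr rfl) (tph_three (q := q))
  have q1 : (100 : ℤ) ≤ q := by omega
  obtain ⟨c, hc⟩ := Int.eq_ofNat_of_zero_le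
    (show 0 ≤ ((q ^ 2 : ℕ) : ℤ) ^ 6 * ((q ^ 2 : ℕ) ^ 3 - 1) ^ 2 by positivity)
  refine ⟨c, hq.trans (Nat.le_self_pow two_ne_zero q), .inl rfl, ⟨-1, .inr rfl, rfl, h1⟩, ?_, ?_, fun u k hu a d => ?_⟩
  · rw [h1, ← hc, tph]
    generalize ((q ^ 2 : ℕ) : ℤ) = w
    exact ⟨w ^ 10 + w ^ 9 - 3 * w ^ 7 - 3 * w ^ 6 + 4 * w ^ 4 + 4 * w ^ 3 - 4 * w - 4, by
      push_cast; ring⟩
  · rw [h1, ← hc, tph, Ex.jy, if_pos rfl]
    ring
  have d1 : (u : ℤ) ^ k ∣ (q ^ 2 - 1) ^ 2 * (tph 1 q ^ 2 * tph (-1) q ^ 2) :=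
    (pp_cancel hu (mt Int.natCast_dvd_natCast.1 a) 6
      (hc ▸ (by exact_mod_cast d : (u : ℤ) ^ k ∣ c))).trans (dvd_of_eq (by
        unfold tph
        push_cast
        ring))
  have e : ∀ i, 100 * (q : ℤ) ^ i ≤ q ^ (i + 1) := fun i => by
    rw [pow_succ']
    exact mul_le_mul_of_nonneg_right q1 (by positivity)
  have e1 : 100 * (q : ℤ) ^ 1 ≤ q ^ 2 := e 1
  have e2 : 100 * (q : ℤ) ^ 2 ≤ q ^ 3 := e 2
  have e3 : 100 * (q : ℤ) ^ 3 ≤ q ^ 4 := e 3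
  have nt : ∀ b : ℤ, b = 1 ∨ b = -1 → u ∣ tm b q → ¬ (u : ℤ) ∣ tph (-b) q := fun b hb d1 d2 => by
    have hb' : -b = 1 ∨ -b = -1 := by omega
    have o := tm_ord (tb_of hb') (by omega) hu (Int.natCast_dvd_natCast.1
      (((Nat.prime_iff_prime_int.1 hu).dvd_or_dvd (d2.trans (tph_split hb'))).resolve_left
        (tm_not (tb_of hb) (by omega) hu d1).1))
    rw [tm_ord (tb_of hb) (by omega) hu d1] at o
    rcases hb with rfl | rfl <;> exact absurd o (by decide)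
  rw [h1, tph, Nat.cast_pow]
  by_cases c1 : u ∣ tm 1 q
  · refine ⟨tph 1 q ^ 2, 2 * q ^ 3 + 4 * q ^ 2 + 2 * q, pp_cancel hu (nt 1 (.inl rfl) c1) 2
      (mul_comm (tph 1 q ^ 2) _ ▸ pp_cancel hu (tm_not (.inl rfl) (by omega) hu c1).2 2 d1), ?_, ?_,
      ⟨1, by unfold tph; ring⟩, ?_⟩
    · unfold tph
      positivity
    · unfold tph
      linarith
    · rw [abs_of_pos (by positivity)]
      constructor <;> linarith
  by_cases c2 : u ∣ tm (-1) q
  · refine ⟨tph (-1) q ^ 2, -2 * q ^ 3 + 4 * q ^ 2 - 2 * q, pp_cancel hu (nt (-1) (.inr rfl) c2) 2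
      (pp_cancel hu (tm_not (.inr (.inl rfl)) (by omega) hu c2).2 2 d1), ?_, ?_,
      ⟨1, by unfold tph; ring⟩, ?_⟩
    · unfold tph
      exact pow_pos (by linarith) 2
    · unfold tph
      linarith
    · rw [abs_of_neg (by linarith)]
      constructor <;> linarith
  obtain ⟨η, h4, h5⟩ := sq_split' hu 4 (pp_cancel hu (mt Int.natCast_dvd_natCast.1 c1) 2
    (pp_cancel hu (mt Int.natCast_dvd_natCast.1 c2) 2 (d1.trans ((mul_dvd_mul_left _ (mul_dvd_mul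
      (pow_dvd_pow_of_dvd (tph_split (.inl rfl)) 2)
      (pow_dvd_pow_of_dvd (tph_split (.inr rfl)) 2))).trans (dvd_of_eq (by ring))))))
  have h6 : 0 < 3 ^ 4 * (4 * ((q : ℤ) - η) ^ 2) :=
    mul_pos (by omega) (mul_pos four_pos (pow_pos (by omega) 2))
  refine ⟨_, _, h5, h6, by rcases h4 with rfl | rfl <;> linarith, sub_self (G := ℤ) _ ▸ dvd_zero _,
    ?_⟩
  rw [abs_of_pos h6]
  rcases h4 with rfl | rfl <;> constructor <;> linarith

theorem exists_ja (hx : x = .G2 ∨ x = .D3) (hq : 105 ≤ q) :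
    ∃ c e, JA x (x.jw q) (x.tor q) c e := by
  rcases hx with rfl | rfl
  · have q0 := hq
    have k : ∀ b : ℤ, b = 1 ∨ b = -1 → ¬ 3 ∣ tph b q → (Ex.G2.tor q : ℤ) = tph b q →
        ∃ c e, JA .G2 q (Ex.G2.tor q) c e := fun b hb a d => by
      rw [Int.natCast_inj.1 (d.trans (tm_eq hb a).symm)]
      exact (ja_G hb a q0).imp fun c h => ⟨6, h⟩
    have k3 : ∀ b : ℤ, 3 ∣ tph b q → (((q % 3 : ℕ) : ZMod 3)) ^ 2 + b * (q % 3 : ℕ) + 1 = 0 :=
      fun b d => by simpa [tph] using (ZMod.intCast_zmod_eq_zero_iff_dvd _ 3).2 d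
    by_cases c : q % 3 = 2
    · exact k 1 (.inl rfl) (fun d => absurd (c ▸ k3 1 d) (by decide)) (by simp [Ex.tor, c, tph])
    · exact k (-1) (.inr rfl) (fun d => by
        have := k3 _ d
        obtain a | a : q % 3 = 0 ∨ q % 3 = 1 := by omega
        all_goals exact absurd (a ▸ this) (by decide)) (by
          rw [Ex.tor, if_neg (by decide), if_neg c, Nat.cast_succ, Nat.cast_sub
            (Nat.le_self_pow two_ne_zero q), tph]
          push_cast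
          ring)
  · obtain ⟨c, h⟩ := ja_D hq
    have t : Ex.D3.tor q = tm (-1) (q ^ 2) := Int.natCast_inj.1 (by
      rw [tm_eq (.inr rfl) tph_three, Ex.tor, if_pos rfl, Nat.cast_succ, Nat.cast_sub
        (show q ^ 2 ≤ q ^ 4 from (Nat.le_self_pow two_ne_zero _).trans_eq (pow_mul q 2 2).symm),
        tph]
      push_cast
      ring)
    exact ⟨c, 4, t ▸ h⟩

theorem JA.bd (J : JA x w T c e) : 9 * w ^ 2 ≤ 10 * T ∧ T ≤ 2 * w ^ 2 := by
  obtain ⟨b, hb, -, h⟩ := J.tm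
  have := J.big
  unfold tph at h
  zify
  rcases hb with rfl | rfl <;> constructor <;> nlinarith

theorem JA.he (J : JA x w T c e) (hr : r.Prime) (d : r ∣ T) : e < r ∧ c ≡ e [MOD r] := by
  obtain ⟨b, hb, rfl, -⟩ := J.tm
  have := J.big
  refine ⟨?_, (Nat.modEq_iff_dvd.2 ((Int.natCast_dvd_natCast.2 d).trans J.mod)).symm⟩
  have h1 := tm_five (tb_of hb) hr d
  have h2 := tm_ord (tb_of hb) (by omega) hr d
  have := Fact.mk hr
  have h3 := ZMod.orderOf_dvd_card_sub_one (a := ((w : ℤ) : ZMod r)) fun a => by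
    rw [Ord, a, orderOf_zero] at h2
    rcases hb with rfl | rfl <;> exact absurd h2 (by decide)
  have h4 : r ≠ 5 := by
    rintro rfl
    rw [Ord] at h2
    rw [h2] at h3
    rcases hb with rfl | rfl <;> exact absurd h3 (by decide)
  have h5 : r ≠ 6 := by
    rintro rfl
    exact absurd hr (by decide)
  have := J.ee
  omega

theorem JA.cop (J : JA x w T c e) : T.Coprime c :=
  Nat.coprime_of_dvd fun r hr d1 d2 => by
    have := J.he hr d1
    exact this.1.not_ge (Nat.le_of_dvd (by have := J.ee; omega) ((this.2.dvd_iff dvd_rfl).1 d2))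

theorem JA.pp (J : JA x w T c e) (hu : u.Prime) (h0 : ¬ u ∣ w) (h : u ^ k ∣ T * c) :
    u ^ k ≤ 13 * w ^ 2 := by
  by_cases a : u ∣ c
  · obtain ⟨B, -, h1, h2, h3, -⟩ := J.split u k hu h0 (((hu.coprime_iff_not_dvd.2 fun d =>
      Nat.not_coprime_of_dvd_of_dvd hu.one_lt d a J.cop).pow_left k).dvd_of_dvd_mul_left h)
    exact_mod_cast (Int.le_of_dvd h2 h1).trans h3
  · have := J.bd
    have := Nat.pow_le_pow_left J.big 2
    have := Nat.le_of_dvd (by omega) (((hu.coprime_iff_not_dvd.2 a).pow_left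
      k).dvd_of_dvd_mul_right h)
    omega

theorem JA.rad (J : JA x (p ^ f) T c e) (hp : p.Prime) (hf : 0 < f) (hu : u.Prime) (hk : 0 < k)
    (h1 : u ^ k ∣ c) (h2 : u ^ k ≡ 1 [MOD T]) : u = p ∧ f * 3 ≤ k := by
  have h3 := (Nat.modEq_iff_dvd' (pow_pos hu.pos k)).1 h2.symm
  have q0 := J.big
  by_cases a : u = p
  · obtain ⟨b, hb, rfl, -⟩ := J.tm
    subst a
    obtain ⟨r, hr, d⟩ := tm_prim (tb_of hb) hp hf (by omega)
    have h5 : 3 ≤ tcl b := by unfold tcl; split_ifs <;> omega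
    exact ⟨rfl, (Nat.mul_le_mul_left f h5).trans (Nat.le_of_dvd hk
      ((hr.dvd_iff hp.pos (by positivity) k).1 (d.trans h3)))⟩
  obtain ⟨B, t, ⟨s, rfl⟩, h4, h5, h6, h7, h8⟩ := J.split u k hu
    (fun d => a ((Nat.prime_dvd_prime_iff_eq hu hp).1 (hu.dvd_of_dvd_pow d))) h1
  have h9 := Nat.le_of_dvd (Nat.sub_pos_of_lt (Nat.one_lt_pow hk.ne' hu.one_lt)) h3
  have := pow_pos hu.pos k
  have h10 := J.bd.1
  have d := dvd_add h6 ((Nat.modEq_iff_dvd.1 h2).mul_right s)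
  rw [← Nat.cast_pow] at *
  generalize u ^ k = U at *
  generalize p ^ f = w at *
  have U0 : (T : ℤ) + 1 ≤ U := by omega
  have s0 : 0 < s := (mul_pos_iff_of_pos_left (by omega : (0 : ℤ) < U)).1 h4
  have s1 : s < 20 := by
    by_contra a
    zify at h10
    nlinarith
  have := Int.eq_zero_of_abs_lt_dvd d (by
    rw [show U * s - t + (((1 : ℕ) : ℤ) - U) * s = s - t by push_cast; ring, abs_lt]
    have := le_abs_self t
    have := neg_abs_le t
    omega)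
  have : t = s := by push_cast at this; linarith
  rw [this, abs_of_pos s0] at h7
  omega

end Pool.Agent.Lib.MP_7d41f7_al.Lo
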