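import Pool.Agent.Lib.MP_7d41f7_al.H.JA
import Pool.Agent.Lib.MP_7d41f7_al.H.FA
import Pool.Agent.Lib.MP_7d41f7_al.D.JS
import Pool.Agent.Lib.MP_7d41f7_al.Ball

/-! The isolated tori of `G₂(q)`, `8 ≤ q`, and `³D₄(q)`, `3 ≤ q`. -/

set_option autoImplicit false

namespace Pool.Agent.Lib.MP_7d41f7_al.Lo

variable {b : ℤ} {x : Ex} {q w T c e r u k p f : ℕ}

/-- The torus of order `T` and index `c`. -/
structure J0 (x : Ex) (w T c e : ℕ) : Prop where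
  ee : e = 4 ∨ e = 6
  tm : ∃ b, (b = 1 ∨ b = -1) ∧ T = tm b w ∧ (T : ℤ) = tph b w
  mod : (T : ℤ) ∣ c - e
  ord : (T : ℤ) * c = w ^ 6 * x.jy w

/-- The arithmetic of the torus. -/
structure JB (x : Ex) (w T c e : ℕ) : Prop extends J0 x w T c e where
  big : 8 ≤ w
  rd : ∀ u k, u.Prime → ¬ u ∣ w → 0 < k → u ^ k ∣ c → ¬ u ^ k ≡ 1 [MOD T]
  cr : ∀ n a u k : ℕ, 0 < a → a ≤ 3 → ((n * a : ℕ) : ℤ) = x.jy w → u.Prime → u ^ k ∣ n →
    (u ^ k) ^ 3 < n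

theorem j0_G (hb : b = 1 ∨ b = -1) (h3 : ¬ 3 ∣ tph b q) : ∃ c, J0 .G2 q (tm b q) c 6 := by
  have h1 := tm_eq hb h3
  have h2 : 0 < tph (-b) q := by
    unfold tph
    rcases hb with rfl | rfl <;> nlinarith
  obtain ⟨c, hc⟩ := Int.eq_ofNat_of_zero_le (show 0 ≤ (q : ℤ) ^ 6 * ((q ^ 2 - 1) ^ 2 * tph (-b) q)
    by positivity)
  refine ⟨c, .inr rfl, ⟨b, hb, rfl, h1⟩, ?_, ?_⟩
  · rw [h1, ← hc, tph, tph]
    rcases hb with rfl | rfl
    · exact ⟨q ^ 10 - 2 * q ^ 9 + 4 * q ^ 7 - 5 * q ^ 6 + 6 * q ^ 4 - 6 * q ^ 3 + 6 * q - 6, by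
        push_cast; ring⟩
    · exact ⟨q ^ 10 + 2 * q ^ 9 - 4 * q ^ 7 - 5 * q ^ 6 + 6 * q ^ 4 + 6 * q ^ 3 - 6 * q - 6, by
        push_cast; ring⟩
  · rw [h1, ← hc, tph, tph, Ex.jy, if_neg (by decide)]
    rcases hb with rfl | rfl <;> ring

theorem j0_D : ∃ c, J0 .D3 (q ^ 2) (tm (-1) (q ^ 2)) c 4 := by
  have h1 := tm_eq (.inr rfl) (tph_three (q := q))
  obtain ⟨c, hc⟩ := Int.eq_ofNat_of_zero_le
    (show 0 ≤ ((q ^ 2 : ℕ) : ℤ) ^ 6 * ((q ^ 2 : ℕ) ^ 3 - 1) ^ 2 by positivity)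
  refine ⟨c, .inl rfl, ⟨-1, .inr rfl, rfl, h1⟩, ?_, ?_⟩
  · rw [h1, ← hc, tph]
    generalize ((q ^ 2 : ℕ) : ℤ) = w
    exact ⟨w ^ 10 + w ^ 9 - 3 * w ^ 7 - 3 * w ^ 6 + 4 * w ^ 4 + 4 * w ^ 3 - 4 * w - 4, by
      push_cast; ring⟩
  · rw [h1, ← hc, tph, Ex.jy, if_pos rfl]
    ring

theorem exists_j0 (hx : x = .G2 ∨ x = .D3) (q : ℕ) : ∃ c e, J0 x (x.jw q) (x.tor q) c e := by
  rcases hx with rfl | rfl
  · have k : ∀ b : ℤ, b = 1 ∨ b = -1 → ¬ 3 ∣ tph b q → (Ex.G2.tor q : ℤ) = tph b q →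
        ∃ c e, J0 .G2 q (Ex.G2.tor q) c e := fun b hb a d => by
      rw [Int.natCast_inj.1 (d.trans (tm_eq hb a).symm)]
      exact (j0_G hb a).imp fun c h => ⟨6, h⟩
    have k3 : ∀ b : ℤ, 3 ∣ tph b q → (((q % 3 : ℕ) : ZMod 3)) ^ 2 + b * (q % 3 : ℕ) + 1 = 0 :=
      fun b d => by simpa [tph] using (ZMod.intCast_zmod_eq_zero_iff_dvd _ 3).2 d
    by_cases c : q % 3 = 2
    · exact k 1 (.inl rfl) (fun d => absurd (c ▸ k3 1 d) (by decide)) (by simp [Ex.tor, c, tph])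
    · exact k (-1) (.inr rfl) (fun d => by
        have := k3 _ d
        obtain a | a : q % 3 = 0 ∨ q % 3 = 1 := by omega
        all_goals exact absurd (a ▸ this) (by decide)) (by
          rw [Ex.tor, if_neg (by decide), if_neg c, Nat.cast_succ, Nat.cast_sub
            (Nat.le_self_pow two_ne_zero q), tph]
          push_cast
          ring)
  · obtain ⟨c, h⟩ := j0_D (q := q)
    have t : Ex.D3.tor q = tm (-1) (q ^ 2) := Int.natCast_inj.1 (by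
      rw [tm_eq (.inr rfl) tph_three, Ex.tor, if_pos rfl, Nat.cast_succ, Nat.cast_sub
        (show q ^ 2 ≤ q ^ 4 from (Nat.le_self_pow two_ne_zero _).trans_eq (pow_mul q 2 2).symm),
        tph]
      push_cast
      ring)
    exact ⟨c, 4, t ▸ h⟩

theorem jy_bd {w : ℤ} (hw : 8 ≤ w) : 3 * w ^ 8 ≤ 5 * x.jy w ∧ x.jy w ≤ w ^ 8 := by
  have e : ∀ i, 8 * w ^ i ≤ w ^ (i + 1) := fun i => by
    rw [pow_succ']
    exact mul_le_mul_of_nonneg_right hw (by positivity)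
  have : 8 * w ^ 1 ≤ w ^ 2 := e 1
  have : 8 * w ^ 2 ≤ w ^ 3 := e 2
  have : 8 * w ^ 3 ≤ w ^ 4 := e 3
  have : 8 * w ^ 4 ≤ w ^ 5 := e 4
  have : 8 * w ^ 5 ≤ w ^ 6 := e 5
  have : 8 * w ^ 6 ≤ w ^ 7 := e 6
  have : 8 * w ^ 7 ≤ w ^ 8 := e 7
  unfold Ex.jy
  split_ifs <;> constructor <;> linarith

theorem jy_cop (hu : u.Prime) (d : (u : ℤ) ∣ x.jy w) : ¬ u ∣ w := fun a => by
  have pr := Nat.prime_iff_prime_int.1 hu
  exact pr.not_dvd_one ((dvd_sub (dvd_pow (Int.natCast_dvd_natCast.2 a) (n := 6) (by omega))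
    (pr.dvd_of_dvd_pow (d.trans (jy_dvd x _).1))).trans (dvd_of_eq (by ring)))

theorem JA.jb (J : JA x (p ^ f) T c e) (hp : p.Prime) (hf : 0 < f) : JB x (p ^ f) T c e := by
  have q0 := J.big
  refine ⟨⟨J.ee, J.tm, J.mod, J.ord⟩, by omega, fun u k hu a hk h1 h2 =>
    a ((J.rad hp hf hu hk h1 h2).1 ▸ dvd_pow_self _ hf.ne'), fun n a u k a1 a2 a3 hu d => ?_⟩
  have h1 := (jy_bd (x := x) (w := (p ^ f : ℕ)) (by omega)).1
  rw [← a3] at h1
  have h2 : u ^ k ≤ 13 * (p ^ f) ^ 2 := by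
    rcases k with _ | k
    · have := Nat.pow_le_pow_left q0 2
      rw [pow_zero]
      omega
    refine J.pp hu (jy_cop (x := x) hu (a3 ▸ Int.natCast_dvd_natCast.2
      (((dvd_pow_self u k.succ_ne_zero).trans d).mul_right a))) (Int.natCast_dvd_natCast.1 ?_)
    rw [Nat.cast_mul, J.ord, ← a3]
    exact (Int.natCast_dvd_natCast.2 (d.mul_right a)).mul_left _
  refine (Nat.pow_le_pow_left h2 3).trans_lt ?_
  have h3 := Nat.mul_le_mul_left n a2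
  have h4 := Nat.mul_le_mul_right ((p ^ f) ^ 6) (Nat.pow_le_pow_left q0 2)
  have h5 : 0 < (p ^ f) ^ 6 := by positivity
  generalize p ^ f = w at *
  zify at *
  nlinarith

/-- The conditions for small fields. -/
def Js (B T Y : ℕ) : Prop :=
  Y < 2 ^ 128 ∧ B ≤ 4 * T ∧
    (∀ a ∈ [1, 2, 3], a ∣ Y → B ^ 3 < Y / a ∧ ∀ v ∈ [2, 3, 5], Nat.gcd (Y / a) (v ^ 128) ^ 3 < Y / a) ∧
    (∀ v ∈ [2, 3, 5], ∀ k < 128, 0 < k → v ^ k * T ∣ Y → ¬ v ^ k ≡ 1 [MOD T]) ∧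
      ∀ s ∈ [1, 2, 3], (s * T + 1) * T ∣ Y → B < s * T + 1

instance (B T Y : ℕ) : Decidable (Js B T Y) := by
  unfold Js
  infer_instance

/-- The statement at one value of the parameter. -/
abbrev tjSP (q : ℕ) : Prop :=
  ∀ x ∈ [Ex.G2, .D3], 8 ≤ x.jw q → Js ((q + 1) ^ x.rk) (x.tor q) (x.jy (x.jw q)).natAbs

theorem tjS0 : ∀ q < 25, tjSP q := by decide +kernel

theorem tjS1 : ∀ q < 45, 25 ≤ q → tjSP q := by decide +kernel

theorem tjS2 : ∀ q < 65, 45 ≤ q → tjSP q := by decide +kernel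

theorem tjS3 : ∀ q < 85, 65 ≤ q → tjSP q := by decide +kernel

theorem tjS4 : ∀ q < 105, 85 ≤ q → tjSP q := by decide +kernel

theorem tj_sz : ∀ x ∈ [Ex.G2, .D3], ∀ q < 105, 8 ≤ x.jw q →
    Js ((q + 1) ^ x.rk) (x.tor q) (x.jy (x.jw q)).natAbs :=
  fun x hx q hq => ball_app (ball_app (ball_app (ball_app tjS0 tjS1) tjS2) tjS3) tjS4 q hq x hx

theorem tj_mu : ∀ x ∈ [Ex.G2, .D3], ∀ e < 31, e.totient * x.mu e ≤ x.rk := by decide +kernel

theorem pp_rk (hx : x = .G2 ∨ x = .D3) (hq : 2 ≤ q) (hu : u.Prime) (h0 : ¬ u ∣ q)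
    (h1 : u ∉ [2, 3, 5]) (h : ((u ^ k : ℕ) : ℤ) ∣ x.ord q) : u ^ k ≤ (q + 1) ^ x.rk := by
  have o : 0 < Ord q u := by
    have := Fact.mk hu
    refine (orderOf_pos_iff.2 (isOfFinOrder_iff_pow_eq_one.2 ⟨u - 1, by have := hu.two_le; omega,
      ZMod.pow_card_sub_one_eq_one fun e => h0 ?_⟩))
    rwa [Int.cast_natCast, ZMod.natCast_eq_zero_iff] at e
  have b : x.bad < u := by
    have : x.bad = 5 := by rcases hx with rfl | rfl <;> rfl
    by_contra! a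
    have : u ≤ 5 := by omega
    interval_cases u <;> first | exact h1 (by decide) | exact absurd hu (by decide)
  refine (Nat.le_of_dvd (pow_pos pk_pos _) (Mi.pow_dvd hq hu o b h)).trans
    ((Nat.pow_le_pow_left (pk_le hq o) _).trans ?_)
  rw [← pow_mul]
  refine Nat.pow_le_pow_right q.succ_pos ?_
  by_cases c : Ord q u < 31
  · exact tj_mu x (by simpa using hx) _ c
  · rw [Ex.mu, Finset.filter_eq_empty_iff.2 fun j hj d => c ((Nat.le_of_dvd (te_J x j hj).1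
      d).trans_lt ((te_J x j hj).2.1.trans_lt (by cases x <;> decide))), Finset.card_empty, mul_zero]
    exact Nat.zero_le _

theorem J0.jb (J : J0 x (x.jw q) (x.tor q) c e) (hx : x = .G2 ∨ x = .D3) (hq : q < 105)
    (hw : 8 ≤ x.jw q) : JB x (x.jw q) (x.tor q) c e := by
  obtain ⟨h1, h2, h3, h4, h5⟩ := tj_sz x (by simpa using hx) q hq hw
  have qw : q ∣ x.jw q := by
    unfold Ex.jw
    split_ifs
    exacts [dvd_pow_self q two_ne_zero, dvd_rfl]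
  have q2 : 2 ≤ q := by
    by_contra a
    have := Nat.pow_le_pow_left (show q ≤ 1 by omega) 2
    unfold Ex.jw at hw
    split_ifs at hw <;> omega
  have y0 := (jy_bd (x := x) (w := (x.jw q : ℕ)) (by omega)).1
  have y1 : (0 : ℤ) < (x.jw q : ℕ) ^ 8 := by positivity
  obtain ⟨Y, hY⟩ := Int.eq_ofNat_of_zero_le (show 0 ≤ x.jy (x.jw q) by omega)
  have pp : ∀ u k, u.Prime → ¬ u ∣ x.jw q → u ∉ [2, 3, 5] → u ^ k ∣ Y →
      u ^ k ≤ (q + 1) ^ x.rk := fun u k hu a b d => pp_rk hx q2 hu (fun c => a (c.trans qw)) b (by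
    rw [jy_ord hx, hY]
    exact (Int.natCast_dvd_natCast.2 d).mul_left _)
  have o := J.ord
  rw [hY] at o y0
  rw [hY, Int.natAbs_natCast] at h1 h3 h4 h5
  generalize 128 = B at h1 h3 h4
  have kb : ∀ u k, u.Prime → u ^ k ∣ Y → k < B := fun u k hu d =>
    (Nat.pow_lt_pow_iff_right one_lt_two).1 (((Nat.pow_le_pow_left hu.two_le k).trans
      (Nat.le_of_dvd (by omega) d)).trans_lt h1)
  refine ⟨J, hw, fun u k hu a hk d m => ?_, fun n a u k a1 a2 a3 hu d => ?_⟩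
  · have t : (x.tor q).Coprime (x.jw q) := Nat.coprime_of_dvd fun r hr d1 d2 => by
      obtain ⟨b, -, -, e⟩ := J.tm
      have d3 := Int.natCast_dvd_natCast.2 d2
      refine (Nat.prime_iff_prime_int.1 hr).not_dvd_one ((dvd_sub (e ▸ Int.natCast_dvd_natCast.2 d1)
        (d3.mul_right ((x.jw q : ℕ) + b))).trans (dvd_of_eq ?_))
      rw [tph]
      ring
    have d1 : u ^ k * x.tor q ∣ Y := ((((hu.coprime_iff_not_dvd.2 a).pow_left k).mul_left
      t).pow_right 6).dvd_of_dvd_mul_left (by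
        rw [show x.jw q ^ 6 * Y = c * x.tor q by exact_mod_cast o.symm.trans (mul_comm _ _)]
        exact mul_dvd_mul_right d _)
    have d2 := (dvd_mul_right _ _).trans d1
    by_cases v : u ∈ [2, 3, 5]
    · exact h4 u v k (kb u k hu d2) hk d1 m
    have b1 := pp u k hu a v d2
    have b2 := Nat.one_lt_pow hk.ne' hu.one_lt
    obtain ⟨s, hs⟩ := (Nat.modEq_iff_dvd' b2.le).1 m.symm
    have e : u ^ k = s * x.tor q + 1 := by rw [mul_comm]; omega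
    have s1 : s ∈ [1, 2, 3] := by
      have : s < 4 := by
        by_contra c
        have := Nat.mul_le_mul_right (x.tor q) (not_lt.1 c)
        omega
      interval_cases s <;> first | decide | omega
    exact (h5 s s1 (e ▸ d1)).not_ge (e ▸ b1)
  · rw [hY, Nat.cast_inj] at a3
    obtain ⟨c1, c2⟩ := h3 a (by interval_cases a <;> decide) (Dvd.intro_left _ a3)
    rw [← a3, Nat.mul_div_cancel _ a1] at c1 c2
    have d2 : u ^ k ∣ Y := a3 ▸ d.mul_right a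
    have n0 : 0 < n := by omega
    by_cases v : u ∈ [2, 3, 5]
    · exact (Nat.pow_le_pow_left (Nat.le_of_dvd (Nat.gcd_pos_of_pos_left _ n0) (Nat.dvd_gcd d
        (pow_dvd_pow u (kb u k hu d2).le))) 3).trans_lt (c2 u v)
    rcases k with _ | k
    · exact lt_of_le_of_lt (Nat.pow_le_pow_left (Nat.one_le_pow _ _ q.succ_pos) 3) c1
    exact (Nat.pow_le_pow_left (pp u _ hu (jy_cop (x := x) hu (hY ▸ Int.natCast_dvd_natCast.2
      ((dvd_pow_self u k.succ_ne_zero).trans d2))) v d2) 3).trans_lt c1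

theorem JB.bd (J : JB x w T c e) : 4 * w ^ 2 ≤ 5 * T ∧ T ≤ 2 * w ^ 2 := by
  obtain ⟨b, hb, -, h⟩ := J.tm
  have := J.big
  unfold tph at h
  zify
  rcases hb with rfl | rfl <;> constructor <;> nlinarith

theorem JB.he (J : JB x w T c e) (hr : r.Prime) (d : r ∣ T) : e < r ∧ c ≡ e [MOD r] := by
  obtain ⟨b, hb, rfl, -⟩ := J.tm
  have := J.big
  refine ⟨?_, (Nat.modEq_iff_dvd.2 ((Int.natCast_dvd_natCast.2 d).trans J.mod)).symm⟩
  have h1 := tm_five (tb_of hb) hr d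
  have h2 := tm_ord (tb_of hb) (by omega) hr d
  have := Fact.mk hr
  have h3 := ZMod.orderOf_dvd_card_sub_one (a := ((w : ℤ) : ZMod r)) fun a => by
    rw [Ord, a, orderOf_zero] at h2
    rcases hb with rfl | rfl <;> exact absurd h2 (by decide)
  have h4 : r ≠ 5 := by
    rintro rfl
    rw [Ord] at h2
    rw [h2] at h3
    rcases hb with rfl | rfl <;> exact absurd h3 (by decide)
  have h5 : r ≠ 6 := by
    rintro rfl
    exact absurd hr (by decide)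
  have := J.ee
  omega

theorem JB.cop (J : JB x w T c e) : T.Coprime c :=
  Nat.coprime_of_dvd fun r hr d1 d2 => by
    have := J.he hr d1
    exact this.1.not_ge (Nat.le_of_dvd (by have := J.ee; omega) ((this.2.dvd_iff dvd_rfl).1 d2))

theorem JB.rad (J : JB x (p ^ f) T c e) (hp : p.Prime) (hf : 0 < f) (hu : u.Prime) (hk : 0 < k)
    (h1 : u ^ k ∣ c) (h2 : u ^ k ≡ 1 [MOD T]) : u = p ∧ f * 3 ≤ k := by
  have h3 := (Nat.modEq_iff_dvd' (pow_pos hu.pos k)).1 h2.symm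
  have q0 := J.big
  obtain rfl : u = p := by_contra fun a => J.rd u k hu
    (fun d => a ((Nat.prime_dvd_prime_iff_eq hu hp).1 (hu.dvd_of_dvd_pow d))) hk h1 h2
  obtain ⟨b, hb, rfl, -⟩ := J.tm
  obtain ⟨r, hr, d⟩ := tm_prim (tb_of hb) hp hf (by omega)
  have h5 : 3 ≤ tcl b := by unfold tcl; split_ifs <;> omega
  exact ⟨rfl, (Nat.mul_le_mul_left f h5).trans (Nat.le_of_dvd hk
    ((hr.dvd_iff hp.pos (by positivity) k).1 (d.trans h3)))⟩

theorem exists_jb (hx : x = .G2 ∨ x = .D3) (hp : p.Prime) (hf : 0 < f) (e1 : x.jw q = p ^ f)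
    (hw : 8 ≤ x.jw q) : ∃ c e, JB x (p ^ f) (x.tor q) c e := by
  rcases le_or_gt 105 q with a | a
  · obtain ⟨c, e, J⟩ := exists_ja hx a
    exact ⟨c, e, (e1 ▸ J).jb hp hf⟩
  · obtain ⟨c, e, J⟩ := exists_j0 hx q
    exact ⟨c, e, e1 ▸ J.jb hx a hw⟩

end Pool.Agent.Lib.MP_7d41f7_al.Lo
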