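import Pool.Agent.Lib.MP_7d41f7_al.F.NDef

/-! The checker: the primitive operations and the blocks. -/

set_option autoImplicit false

namespace Pool.Agent.Lib.MP_7d41f7_al.Ar

variable {α β : Type} {l : List α} {p : α → Bool} {a : α} {x y n r s v B P g k : ℕ}

@[simp] theorem fN_eq (x : ℕ) (k : ℕ → α) : fN x k = k x := by cases x <;> rfl

@[simp] theorem fL_eq (l : List Blk) (k : List Blk → α) : fL l k = k l := by
  induction l generalizing k with
  | nil => rfl
  | cons b t ih =>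
    show (fN b.1 fun x => fN b.2.1 fun y => fN b.2.2 fun z => fL t fun t => k ((x, y, z) :: t)) = _
    simp only [fN_eq, ih]

@[simp] theorem aL_iff : aL l p = true ↔ ∀ a ∈ l, p a = true := by
  induction l with
  | nil => simp [aL]
  | cons b t ih =>
    show (p b && aL t p) = true ↔ _
    simp [ih]

@[simp] theorem eL_iff : eL l p = true ↔ ∃ a ∈ l, p a = true := by
  induction l with
  | nil => simp [eL]
  | cons b t ih =>
    show (p b || eL t p) = true ↔ _
    simp [ih]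

theorem flt_eq (l : List α) (p : α → Bool) : flt l p = l.filter p := by
  induction l with
  | nil => rfl
  | cons b t ih =>
    show (bif p b then b :: flt t p else flt t p) = _
    rw [List.filter_cons, ih]
    cases p b <;> rfl

@[simp] theorem mem_flt : a ∈ flt l p ↔ a ∈ l ∧ p a = true := by
  rw [flt_eq, List.mem_filter]

@[simp] theorem aN_iff {p : ℕ → Bool} : aN n p = true ↔ ∀ i < n, p i = true := by
  induction n with
  | zero => simp [aN]
  | succ n ih =>
    show (p n && aN n p) = true ↔ _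
    rw [Bool.and_eq_true, ih, Nat.forall_lt_succ_right, and_comm]

theorem pN_eq (n : ℕ) (f : ℕ → ℕ) : pN n f = ∏ i ∈ Finset.range n, f i := by
  induction n with
  | zero => rfl
  | succ n ih => rw [Finset.prod_range_succ_comm, ← ih]; rfl

@[simp] theorem cp_iff : cp x y = true ↔ x.Coprime y := Nat.beq_eq ▸ Iff.rfl

@[simp] theorem dv_iff : dv x y = true ↔ x ∣ y :=
  Nat.beq_eq ▸ (Nat.dvd_iff_mod_eq_zero ..).symm

@[simp] theorem m1_iff : m1 x P = true ↔ x ≡ 1 [MOD P] := Nat.beq_eq ▸ Iff.rfl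

@[simp] theorem z0_iff : z0 x = true ↔ x = 0 := Nat.beq_eq ▸ Iff.rfl

theorem cop_spec (x y : ℕ) : cop x y ∣ x ∧ (cop x y).Coprime y := by
  unfold cop
  induction x.log2.succ generalizing x y with
  | zero => exact ⟨one_dvd _, Nat.coprime_one_left _⟩
  | succ n ih =>
    simp only [fN_eq] at ih ⊢
    cases h : (Nat.gcd x y).beq 1
    · obtain ⟨h1, h2⟩ := ih (x.div (x.gcd y)) ((x.gcd y).mul (x.gcd y))
      replace h1 := h1.trans (Nat.div_dvd_of_dvd (Nat.gcd_dvd_left x y))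
      exact ⟨h1, Nat.coprime_of_dvd fun r hr d1 d2 => Nat.not_coprime_of_dvd_of_dvd hr.one_lt d1
        ((Nat.dvd_gcd (d1.trans h1) d2).mul_right _) h2⟩
    · exact ⟨dvd_rfl, Nat.eq_of_beq_eq_true h⟩

theorem cop_dvd (x y : ℕ) : cop x y ∣ x := (cop_spec x y).1

theorem cop_not (hr : r.Prime) (h : r ∣ cop x y) : ¬ r ∣ y := fun d =>
  Nat.not_coprime_of_dvd_of_dvd hr.one_lt h d (cop_spec x y).2

theorem sub_dvd (h : sub B k = true) (hr : r.Prime) (d : r ∣ B) : r ∣ k :=
  hr.dvd_of_dvd_pow (d.trans (dv_iff.1 h))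

theorem sub_pow (h : sub B v = true) (hv : v.Prime) : ∃ a, B = v ^ a :=
  ((Nat.dvd_prime_pow hv).1 (dv_iff.1 h)).imp fun _ => And.right

theorem prime_of {M b : ℕ} (h : aN b (fun p => Nat.ble p 1 || !cp p M) = true) (c : v.Coprime M)
    (h1 : v ≠ 1) (h2 : v < b ^ 2) (h0 : 0 < v) : v.Prime := by
  by_contra e
  have q := Nat.minFac_prime h1
  have := aN_iff.1 h _ (lt_of_pow_lt_pow_left₀ 2 b.zero_le
    ((Nat.minFac_sq_le_self h0 e).trans_lt h2))
  rw [Bool.or_eq_true, Nat.ble_eq, Bool.not_eq_true', ← Bool.not_eq_true, cp_iff] at this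
  exact this.elim q.one_lt.not_ge fun t => t (c.coprime_dvd_left v.minFac_dvd)

theorem primeB_prime (h : primeB v = true) : v.Prime := by
  unfold primeB at h
  cases h1 : Nat.blt v 47 <;> rw [h1] at h
  · have h3 : ¬ v < 47 := fun c => by simp [Nat.blt_eq.mpr c] at h1
    cases h2 : Nat.blt v 2209 <;> rw [h2] at h
    · rw [cond_false, cond_false, Bool.and_eq_true, Nat.blt_eq, cp_iff] at h
      exact prime_of (b := 2100) (by decide +kernel) h.2 (by omega) h.1 (by omega)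
    · exact prime_of (b := 47) (by decide +kernel) (cp_iff.1 h) (by omega) (Nat.blt_eq.mp h2)
        (by omega)
  · rw [cond_true, eL_iff] at h
    obtain ⟨a, h2, h3⟩ := h
    rw [Nat.eq_of_beq_eq_true h3]
    clear h3
    revert a
    simp only [List.forall_mem_cons, List.not_mem_nil, false_imp_iff, imp_true_iff]
    norm_num

theorem ppB_of {q : ℕ} (h : IsPrimePow q) : ppB q = true := by
  obtain ⟨v, f, hv, hf, rfl⟩ := (isPrimePow_nat_iff q).1 h
  refine aL_iff.2 fun p hp => ?_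
  have pp : p.Prime := primeB_prime (by revert p; decide)
  cases c : dv p (v ^ f)
  · rfl
  obtain rfl := (Nat.prime_dvd_prime_iff_eq pp hv).1 (pp.dvd_of_dvd_pow (dv_iff.1 c))
  exact dv_iff.2 (pow_dvd_pow p ((Nat.le_log2 (pow_pos pp.pos f).ne').2
    (Nat.pow_le_pow_left pp.two_le f)))

theorem pkc_ord {q e : ℕ} (hq : 0 < q) (he : 0 < e) (hr : r.Prime) (h : r ∣ pkc q e) :
    Ord q r = e := by
  have cs : ∀ i, ((q ^ i - 1 : ℕ) : ℤ) = q ^ i - 1 := fun i => by
    rw [Nat.cast_pred (pow_pos hq i), Nat.cast_pow]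
  simp only [pkc, fN_eq, pN_eq] at h
  have h1 := Int.natCast_dvd_natCast.2 (h.trans (cop_dvd _ _))
  rw [cs] at h1
  refine (Ord.le_of he h1).antisymm (not_lt.1 fun c => cop_not hr h ?_)
  have h2 := (Ord.dvd_iff e).1 h1
  have h3 : 0 < Ord q r := Nat.pos_of_ne_zero fun z => he.ne' (Nat.eq_zero_of_zero_dvd (z ▸ h2))
  refine .trans ?_ (Finset.dvd_prod_of_mem _ (Finset.mem_range.2
    (show Ord q r - 1 < e - 1 by omega)))
  rw [Nat.sub_add_cancel h3, ← Int.natCast_dvd_natCast, cs]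
  exact (Ord.dvd_iff _).2 dvd_rfl

theorem val_aux (bl : List Blk) (hg : g ≠ 0)
    (h : g = rL bl (fun b x => fN x fun x => bif cp b.1 x then Nat.mul b.1 x else 0) 1) :
    (∀ b ∈ bl, b.1 ∣ g ∧ b.1.Coprime (g / b.1)) ∧ (bl.Pairwise fun b c => b.1.Coprime c.1) ∧
      ∀ r, r.Prime → r ∣ g → ∃ b ∈ bl, r ∣ b.1 := by
  induction bl generalizing g with
  | nil =>
    obtain rfl : g = 1 := h
    exact ⟨by simp, .nil, fun r hr d => (hr.not_dvd_one d).elim⟩
  | cons c t ih =>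
    generalize e : rL t (fun b x => fN x fun x => bif cp b.1 x then Nat.mul b.1 x else 0) 1 = w
      at ih
    replace h : g = fN _ fun x => bif cp c.1 x then Nat.mul c.1 x else 0 := h
    rw [fN_eq, show List.rec _ _ t = w from e] at h
    cases z : cp c.1 w <;> rw [z] at h
    · exact absurd h hg
    obtain rfl : g = c.1 * w := h
    rw [cp_iff] at z
    obtain ⟨h1, h2, h3⟩ := ih (right_ne_zero_of_mul hg) rfl
    refine ⟨List.forall_mem_cons.2 ⟨⟨dvd_mul_right _ _, by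
      rwa [Nat.mul_div_cancel_left _ (Nat.pos_of_ne_zero (left_ne_zero_of_mul hg))]⟩,
      fun b hb => ⟨(h1 b hb).1.mul_left _, ?_⟩⟩,
      .cons (fun b hb => z.coprime_dvd_right (h1 b hb).1) h2, fun r hr d => ?_⟩
    · rw [Nat.mul_div_assoc _ (h1 b hb).1]
      exact (z.coprime_dvd_right (h1 b hb).1).symm.mul_right (h1 b hb).2
    · rcases hr.dvd_mul.1 d with d | d
      · exact ⟨c, List.mem_cons_self, d⟩
      · exact (h3 r hr d).imp fun _ e => ⟨List.mem_cons_of_mem _ e.1, e.2⟩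

variable {G : Type} [Group G] {bl : List Blk} {nd : List (ℕ × ℕ)} {b c : Blk}

theorem valid_bls [Finite G] (hg : Nat.card G = g) (hn : ∀ x ∈ nd, ND G x.1 x.2)
    (h : valid g nd bl = true) : Bls G bl := by
  subst hg
  simp only [valid, Bool.and_eq_true, Bool.or_eq_true, aL_iff, eL_iff, Nat.beq_eq, Nat.blt_eq,
    z0_iff] at h
  obtain ⟨h1, h2, h3⟩ := val_aux bl Nat.card_pos.ne' h.1
  have pp : ∀ b ∈ bl, b.2.1 ≠ 0 → b.2.1.Prime ∧ ∃ a, b.1 = b.2.1 ^ a := fun b hb e =>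
    have t := (h.2 b hb).1.2.resolve_left e
    ⟨primeB_prime t.1, sub_pow t.2 (primeB_prime t.1)⟩
  refine ⟨fun b hb => ⟨(h.2 b hb).1.1, h1 b hb⟩, h2, h3, pp, fun b hb e r hr d => ?_⟩
  obtain ⟨x, hx, e1, e2⟩ := (h.2 b hb).2.resolve_left e
  refine e1 ▸ hn x hx r hr (sub_dvd e2 hr ?_)
  cases z : z0 b.2.1
  · obtain ⟨-, a, ha⟩ := pp b hb fun c => by simp [z0_iff.2 c] at z
    exact hr.dvd_of_dvd_pow (ha ▸ d)
  · exact d

theorem na_symm (h : na b c = true) : na c b = true := by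
  simp only [na, Bool.and_eq_true, Bool.or_eq_true, cp_iff] at h ⊢
  exact ⟨h.1.symm, h.2.symm⟩

theorem na_cop (h : na b c = true) : b.1.Coprime c.1 := by
  simp only [na, Bool.and_eq_true, cp_iff] at h
  exact h.1

theorem na_nad (B : Bls G bl) (hb : b ∈ bl) (hc : c ∈ bl) (h : na b c = true) (hr : r.Prime)
    (hs : s.Prime) (d1 : r ∣ b.1) (d2 : s ∣ c.1) : NAd G r s := by
  have k : ∀ {b c : Blk} {r s : ℕ}, b ∈ bl → c ∈ bl → r.Prime → s.Prime → r ∣ b.1 → s ∣ c.1 →
      r ≠ s → b.1.Coprime c.2.2 → ¬ Adj G r s := fun hb hc hr hs d1 d2 e t a =>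
    Nat.not_coprime_of_dvd_of_dvd hr.one_lt d1 ((B.nd _ hc (fun z => (B.dvd _ hb).1.ne'
      ((Nat.coprime_zero_right _).1 (z ▸ t))) _ hs d2).2 _ hr e a) t
  simp only [na, Bool.and_eq_true, Bool.or_eq_true, cp_iff] at h
  have e : r ≠ s := fun e => Nat.not_coprime_of_dvd_of_dvd hr.one_lt d1 (e ▸ d2) h.1
  exact ⟨e, h.2.elim (k hb hc hr hs d1 d2 e) fun t a => k hc hb hs hr d2 d1 e.symm t a.symm⟩

end Pool.Agent.Lib.MP_7d41f7_al.Ar
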