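import Pool.Agent.Lib.MP_7d41f7_al.H.KA

/-! The checker: the parts of the blocks in the three factors. -/

set_option autoImplicit false

namespace Pool.Agent.Lib.MP_7d41f7_al.Ar

variable {G : Type} [Group G] [Finite G] {bl R A : List Blk} {b c : Blk}
  {x y n m r s u v t P M E k h i : ℕ}

theorem mod_of (hn : n ≠ 0) (h : ∀ u, u.Prime → u ∣ n → u ^ n.factorization u ≡ 1 [MOD m]) :
    n ≡ 1 [MOD m] := by
  rw [← Nat.prod_factorization_pow_eq_self hn]
  exact Finset.prod_induction _ (· ≡ 1 [MOD m]) (fun _ _ a b => a.mul b) rfl fun u hu =>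
    h u (Nat.prime_of_mem_primeFactors hu) (Nat.dvd_of_mem_primeFactors hu)

theorem dvd_of (hn : n ≠ 0) (h : ∀ u, u.Prime → u ∣ m → u ^ n.factorization u ∣ M) :
    m.gcd n ∣ M :=
  (Nat.dvd_iff_prime_pow_dvd_dvd _ _).2 fun u j hu d => by
    rcases j with _ | j
    · simp
    exact (pow_dvd_pow u ((hu.pow_dvd_iff_le_factorization hn).1 (d.trans (m.gcd_dvd_right n)))).trans
      (h u hu (((dvd_pow_self u j.succ_ne_zero).trans d).trans (m.gcd_dvd_left n)))

theorem div_gcd (hn : 0 < n) (d : n ∣ M * h) : n / n.gcd M ∣ h := by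
  have g := Nat.gcd_pos_of_pos_left M hn
  refine (Nat.coprime_div_gcd_div_gcd g).dvd_of_dvd_mul_left (Nat.dvd_of_mul_dvd_mul_left g ?_)
  rwa [← mul_assoc, Nat.mul_div_cancel' (n.gcd_dvd_left M), Nat.mul_div_cancel' (n.gcd_dvd_right M)]

omit [Finite G] in
theorem hall (B : Bls G bl) (hc : c ∈ bl) (d : u ∣ c.1) (e : u ^ t ∣ Nat.card G) :
    u ^ t ∣ c.1 := by
  obtain ⟨-, h1, h2⟩ := B.dvd c hc
  rw [← Nat.mul_div_cancel' h1] at e
  exact ((h2.coprime_dvd_left d).pow_left t).dvd_of_dvd_mul_right e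

theorem gcd_mod (B : Bls G bl) (hc : c ∈ bl) (hn : n ∣ Nat.card G)
    (h : ∀ u, u.Prime → u ∣ c.1 → u ^ n.factorization u ≡ 1 [MOD m]) : c.1.gcd n ≡ 1 [MOD m] := by
  have n0 := ne_zero_of_dvd_ne_zero Nat.card_pos.ne' hn
  have g0 := Nat.gcd_ne_zero_right (m := c.1) n0
  refine mod_of g0 fun u hu d => ?_
  replace d := d.trans (c.1.gcd_dvd_left n)
  rw [((Nat.factorization_le_iff_dvd g0 n0).2 (c.1.gcd_dvd_right n) u).antisymm
    ((hu.pow_dvd_iff_le_factorization g0).1 (Nat.dvd_gcd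
      (hall B hc d ((Nat.ordProj_dvd n u).trans hn)) (Nat.ordProj_dvd n u)))]
  exact h u hu d

theorem blk_mod (B : Bls G bl) (hc : c ∈ bl) (hx : 0 < x)
    (h : ∀ r, r.Prime → r ∣ c.1 → x ≡ 1 [MOD r ^ (Nat.card G).factorization r]) :
    x ≡ 1 [MOD c.1] :=
  ((Nat.modEq_iff_dvd' hx).2 (Nat.gcd_eq_left (B.dvd c hc).2.1 ▸ dvd_of Nat.card_pos.ne'
    fun r hr d => (Nat.modEq_iff_dvd' hx).1 (h r hr d).symm)).symm

theorem prP_mod (hA : A.Pairwise fun b c => b.1.Coprime c.1) (h : ∀ c ∈ A, x ≡ 1 [MOD c.1]) :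
    x ≡ 1 [MOD prP A] := by
  have k : ∀ (A : List Blk) (y : ℕ), (∀ c ∈ A, y.Coprime c.1) → y.Coprime (prP A) := fun A y h => by
    induction A with
    | nil => exact y.coprime_one_right
    | cons c t ih =>
      exact (h c List.mem_cons_self).mul_right (ih fun b hb => h b (List.mem_cons_of_mem _ hb))
  induction hA with
  | nil => exact Nat.modEq_one
  | cons h1 _ ih =>
    exact (Nat.modEq_and_modEq_iff_modEq_mul (k _ _ h1)).1
      ⟨h _ List.mem_cons_self, ih fun b hb => h b (List.mem_cons_of_mem _ hb)⟩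

theorem prJ_dvd (hE : x ∣ E) (h : ∀ c ∈ A, c.2.2 ≠ 0 → x ∣ c.1.pred) : x ∣ prJ A E := by
  induction A with
  | nil => exact hE
  | cons c t ih =>
    have := ih fun b hb => h b (List.mem_cons_of_mem _ hb)
    show x ∣ bif z0 c.2.2 then prJ t E else Nat.gcd c.1.pred (prJ t E)
    cases z : z0 c.2.2
    · exact Nat.dvd_gcd (h c List.mem_cons_self fun e => by simp [z0_iff.2 e] at z) this
    · exact this

theorem mxX_dvd (h0 : 0 < y) (h1 : y ≡ 1 [MOD P]) (hn : 0 < n) (d : y ∣ n)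
    (hv : v ≠ 0 → v.Prime ∧ ∃ a, n = v ^ a) : y ∣ mxX v P n := by
  unfold mxX
  induction n.log2.succ generalizing n with
  | zero => exact d
  | succ f ih =>
    simp only [fN_eq] at ih ⊢
    cases z : Nat.ble n P
    · cases z' : z0 v || m1 n P
      · rw [Bool.or_eq_false_iff, ← Bool.not_eq_true, ← Bool.not_eq_true, z0_iff, m1_iff] at z'
        obtain ⟨hp, a, rfl⟩ := hv z'.1
        obtain ⟨j, hj, rfl⟩ := (Nat.dvd_prime_pow hp).1 d
        obtain ⟨a, rfl⟩ := Nat.exists_eq_add_of_lt (hj.lt_of_ne fun e => z'.2 (e ▸ h1))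
        have e : (v ^ (j + a + 1)).div v = v ^ (j + a) := Nat.mul_div_cancel _ hp.pos
        rw [e]
        exact ih (pow_pos hp.pos _) (pow_dvd_pow v (by omega)) fun _ => ⟨hp, _, rfl⟩
      · exact d
    · have := (Nat.le_of_dvd hn d).trans (Nat.le_of_ble_eq_true z)
      have e := (Nat.modEq_iff_dvd' h0).1 h1.symm
      have := Nat.eq_zero_of_dvd_of_lt e (by omega)
      exact (show y = 1 by omega) ▸ dvd_rfl

/-- The blocks of `R` divide `h`. -/
structure Rs (bl R : List Blk) (h : ℕ) : Prop where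
  sub : R.Sublist bl
  dvd : ∀ c ∈ R, c.1 ∣ h

theorem Rs.of_flt {p : Blk → Bool} (e : ∀ c ∈ bl, p c = true → c.1 ∣ h) : Rs bl (flt bl p) h :=
  ⟨flt_eq bl p ▸ List.filter_sublist, fun c hc => e c (mem_flt.1 hc).1 (mem_flt.1 hc).2⟩

omit [Finite G] in
theorem nf_dvd (F : NF0 G k h i E) :
    k ∣ Nat.card G ∧ h ∣ Nat.card G ∧ i ∣ Nat.card G :=
  F.prod ▸ ⟨(dvd_mul_right k h).mul_right i, (dvd_mul_left h k).mul_right i, dvd_mul_left i _⟩

omit [Finite G] in
theorem not_k (B : Bls G bl) (F : NF0 G k h i E) (hc : c ∈ bl) (d : c.1 ∣ h) (hr : r.Prime)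
    (e : r ∣ c.1) : ¬ r ∣ k := fun a => by
  obtain ⟨h1, -, h2⟩ := B.dvd c hc
  obtain ⟨w, rfl⟩ := d
  rw [F.prod, show k * (c.1 * w) * i = c.1 * (k * (w * i)) by ring,
    Nat.mul_div_cancel_left _ (by omega)] at h2
  exact Nat.not_coprime_of_dvd_of_dvd hr.one_lt e (a.mul_right _) h2

theorem free_P (B : Bls G bl) (F : NF0 G k h i E) (S : Rs bl R h) (hb : b ∈ bl) :
    b.1.gcd k ≡ 1 [MOD prP (flt R (na b))] :=
  gcd_mod B hb (nf_dvd F).1 fun u hu d => prP_mod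
    (B.cop.sublist ((flt_eq R _ ▸ List.filter_sublist).trans S.sub)) fun c hc =>
      have ⟨c1, c2⟩ := mem_flt.1 hc
      have m := S.sub.subset c1
      blk_mod B m (pow_pos hu.pos _) fun r hr e =>
        F.free r u hr hu (not_k B F m (S.dvd c c1) hr e) (na_nad B hb m c2 hu hr d e)

theorem top_J (B : Bls G bl) (F : NF0 G k h i E) (S : Rs bl R h) (hb : b ∈ bl) :
    b.1.gcd i ∣ prJ (flt R (na b)) E :=
  dvd_of (ne_zero_of_dvd_ne_zero Nat.card_pos.ne' (nf_dvd F).2.2) fun u hu d =>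
    prJ_dvd ((Nat.ordProj_dvd i u).trans F.idx) fun c hc z =>
      have ⟨c1, c2⟩ := mem_flt.1 hc
      have m := S.sub.subset c1
      have c0 := one_pos.trans (B.dvd c m).1
      (Nat.modEq_iff_dvd' c0).1 (mod_of c0.ne' fun r hr e =>
        (((Nat.modEq_iff_dvd' hr.pos).2 (F.top r u hr hu (B.nd c m z r hr e).1 (e.trans (S.dvd c c1))
          (na_nad B hb m c2 hu hr d e))).symm.pow _).trans (congrArg (· % _) (one_pow _))).symm

theorem keep_left (R : List Blk) (E : ℕ) (b : Blk) : keep R E b ∣ b.1 := by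
  simp only [keep, fL_eq, fN_eq]
  cases eL R fun c => Nat.beq c.1 b.1
  · exact Nat.div_dvd_of_dvd (Nat.gcd_dvd_left _ _)
  · exact dvd_rfl

theorem keep_dvd (B : Bls G bl) (F : NF0 G k h i E) (S : Rs bl R h) (hb : b ∈ bl) :
    keep R E b ∣ h := by
  simp only [keep, fL_eq, fN_eq]
  obtain ⟨h1, h2, -⟩ := B.dvd b hb
  cases z : eL R fun c => Nat.beq c.1 b.1
  · refine div_gcd (by omega) (.trans ?_ (mul_dvd_mul_right (mul_dvd_mul
      (mxX_dvd (Nat.gcd_pos_of_pos_left k (by omega)) (free_P B F S hb) (by omega)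
        (b.1.gcd_dvd_left k) (B.pp b hb)) (top_J B F S hb)) h))
    rw [mul_assoc, Nat.dvd_gcd_mul_iff_dvd_mul, mul_left_comm, Nat.dvd_gcd_mul_iff_dvd_mul,
      mul_comm, ← F.prod]
    exact h2
  · obtain ⟨c, hc, e⟩ := eL_iff.1 z
    exact Nat.eq_of_beq_eq_true e ▸ S.dvd c hc

theorem rnd_sound (B : Bls G bl) (F : NF0 G k h i E) (S : Rs bl R h) {q : List Blk → Bool}
    (e : rnd bl E n R q = true) : ∃ R, Rs bl R h ∧ q R = true := by
  induction n generalizing R with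
  | zero => exact ⟨R, S, e⟩
  | succ n ih =>
    replace e : fL _ (fun R' => rnd bl E n R' q) = true := e
    rw [fL_eq] at e
    exact ih (.of_flt fun c hc a =>
      (Nat.eq_of_beq_eq_true a).symm.dvd.trans (keep_dvd B F S hc)) e

theorem glm_mod (v h x : ℕ) :
    glm v h x ≡ ∏ j ∈ Finset.range x, v ^ j * (v ^ (j + 1) - 1) [MOD h] := by
  suffices ∀ a, Nat.rec (motive := fun _ => ℕ → ℕ) (fun a => a) (fun j ih a =>
      fN (a * v ^ j * (v ^ (j + 1) - 1) % h) ih) x a ≡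
        a * ∏ j ∈ Finset.range x, v ^ j * (v ^ (j + 1) - 1) [MOD h] from
    (this 1).trans (by rw [one_mul])
  intro a
  induction x generalizing a with
  | zero => simp [Nat.ModEq]
  | succ x ih =>
    simp only [fN_eq] at ih ⊢
    rw [Finset.prod_range_succ_comm, ← mul_assoc, ← mul_assoc]
    exact (ih _).trans ((Nat.mod_modEq _ _).mul_right _)

theorem gl_eq (v j : ℕ) : ∏ x ∈ Finset.range j, (v ^ j - v ^ x) =
    ∏ x ∈ Finset.range j, v ^ x * (v ^ (x + 1) - 1) := by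
  rw [Finset.prod_mul_distrib, ← Finset.prod_range_reflect (fun x => v ^ (x + 1) - 1),
    ← Finset.prod_mul_distrib]
  refine Finset.prod_congr rfl fun x hx => ?_
  rw [Finset.mem_range] at hx
  rw [Nat.mul_sub, ← pow_add, mul_one, show x + (j - 1 - x + 1) = j by omega]

theorem prP_ne (h : prP A ≠ 1) : ∃ c, c ∈ A := by
  cases A
  · exact absurd rfl h
  · exact ⟨_, List.mem_cons_self⟩

theorem gcd_pp (B : Bls G bl) (hb : b ∈ bl) (hv : v.Prime) (e : b.1 = v ^ t)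
    (hn : n ∣ Nat.card G) : b.1.gcd n = v ^ n.factorization v := by
  have t0 : t ≠ 0 := by
    rintro rfl
    exact (B.dvd b hb).1.ne' e
  refine Nat.dvd_antisymm (dvd_of (ne_zero_of_dvd_ne_zero Nat.card_pos.ne' hn) fun u hu d => ?_)
    (Nat.dvd_gcd (hall B hb (e ▸ dvd_pow_self v t0) ((Nat.ordProj_dvd n v).trans hn))
      (Nat.ordProj_dvd n v))
  rw [(Nat.prime_dvd_prime_iff_eq hu hv).1 (hu.dvd_of_dvd_pow (e ▸ d))]

omit [Finite G] in
theorem pr_dvd (B : Bls G bl) (hb : b ∈ bl) (z : b.2.1 ≠ 0) : b.2.1.Prime ∧ b.2.1 ∣ b.1 := by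
  obtain ⟨hv, a, e⟩ := B.pp b hb z
  refine ⟨hv, e ▸ dvd_pow_self _ ?_⟩
  rintro rfl
  exact (B.dvd b hb).1.ne' e

theorem k1_sound (B : Bls G bl) (F : NF G k h i E) (S : Rs bl R h) (hb : b ∈ bl)
    (e : k1 E h bl R b = true) : False := by
  have F0 := F.toNF0
  obtain ⟨dk, dh, di⟩ := nf_dvd F0
  have n0 := fun {n} (d : n ∣ Nat.card G) => ne_zero_of_dvd_ne_zero Nat.card_pos.ne' d
  simp only [k1, fN_eq, fL_eq, Bool.and_eq_true] at e
  replace e := e.2
  cases z : z0 b.2.1 <;> rw [z] at e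
  swap
  · simp [dv_iff.2 (keep_dvd B F0 S hb)] at e
  have z1 : b.2.1 ≠ 0 := fun c => by simp [z0_iff.2 c] at z
  obtain ⟨hv, t, ht⟩ := B.pp b hb z1
  have vb := (pr_dvd B hb z1).2
  have p1 := free_P B F0 S hb
  have p2 := top_J B F0 S hb
  have gp := fun {n} => gcd_pp (n := n) B hb hv ht
  have w : b.1.div (b.1.gcd h) = b.2.1 ^ k.factorization b.2.1 * b.2.1 ^ i.factorization b.2.1 := by
    refine Nat.div_eq_of_eq_mul_right (Nat.gcd_pos_of_pos_right _ (Nat.pos_of_ne_zero (n0 dh))) ?_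
    rw [gp dh, ← pow_add, ← pow_add, ← Nat.gcd_eq_left (B.dvd b hb).2.1, gp dvd_rfl, F0.prod,
      Nat.factorization_mul (mul_ne_zero (n0 dk) (n0 dh)) (n0 di),
      Nat.factorization_mul (n0 dk) (n0 dh), Finsupp.add_apply, Finsupp.add_apply, add_left_comm,
      add_assoc]
  rw [gp dk] at p1
  rw [gp di] at p2
  rw [w, cond_false, aN_iff] at e
  have fk := hv.dvd_iff_one_le_factorization (n0 dk)
  have fi := hv.dvd_iff_one_le_factorization (n0 di)
  have fj := fun j => hv.pow_dvd_iff_le_factorization (k := j) (n0 dk)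
  generalize k.factorization b.2.1 = x at *
  generalize i.factorization b.2.1 = y at *
  have v0 := fun j => pow_pos hv.pos j
  have e := e x (Nat.lt_succ_of_le ((Nat.le_log2 (mul_pos (v0 x) (v0 y)).ne').2
    ((Nat.pow_le_pow_left hv.two_le x).trans (Nat.le_mul_of_pos_right _ (v0 y)))))
  have w1 : (b.2.1 ^ x * b.2.1 ^ y).div (b.2.1.pow x) = b.2.1 ^ y := Nat.mul_div_cancel_left _ (v0 x)
  rw [w1] at e
  simp only [Bool.or_eq_true, Bool.and_eq_true, Bool.not_eq_true', ← Bool.not_eq_true, dv_iff,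
    m1_iff, z0_iff, eL_iff, cp_iff, Nat.beq_eq] at e
  have cy := fun z => (B.nd b hb z _ hv vb).1
  rcases e with (e | e) | (e | ⟨x0, ⟨e0, c, hc, e1, e2⟩ | ⟨e1, e2⟩⟩) | ⟨y0, e⟩
  · exact e (dvd_mul_right _ _)
  · exact e p1
  · exact e p2
  · obtain ⟨u, hu, d1, d2⟩ := Nat.Prime.not_coprime_iff_dvd.1 e2
    exact F.inK _ u hv hu (cy e0) (fk.2 (by omega)) d2 (na_nad B hb hc e1 hv hu vb d1).symm
  · obtain ⟨c, hc⟩ := prP_ne e1
    obtain ⟨c1, c2⟩ := mem_flt.1 hc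
    have m := S.sub.subset c1
    obtain ⟨r, hr, d⟩ := Nat.exists_prime_and_dvd (B.dvd c m).1.ne'
    obtain ⟨j, j1, j2⟩ := F.gl r _ hr hv (d.trans (S.dvd c c1)) (not_k B F0 m (S.dvd c c1) hr d)
      (fk.2 (by omega)) (na_nad B hb m c2 hv hr vb d)
    exact e2 (((glm_mod _ h x).dvd_iff dvd_rfl).2 ((gl_eq _ j ▸ j2).trans
      (Finset.prod_dvd_prod_of_subset _ _ _ (Finset.range_mono ((fj j).1 j1)))))
  · have vi := fi.2 (Nat.pos_of_ne_zero fun a => y0 (by rw [a, pow_zero]))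
    cases z' : cp b.2.1 h <;> rw [z'] at e
    · refine F.ni _ hv (cy fun a => by simp [z0_iff.2 a] at e) (by_contra fun a => ?_) vi
      simp [cp_iff.2 (hv.coprime_iff_not_dvd.2 a)] at z'
    · simp only [cond_true, Bool.and_eq_true, Bool.not_eq_true', ← Bool.not_eq_true, m1_iff,
        z0_iff, eL_iff] at e
      obtain ⟨x0, c, hc, e1, e2⟩ := e
      exact e2 (gcd_mod B hc dh fun u hu d => F.inI _ u hv hu vi (fun a => by
        have := fk.1 a; omega) (hv.coprime_iff_not_dvd.1 (cp_iff.1 z'))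
          (na_nad B hb hc e1 hv hu vb d).symm)

theorem cycS_sound (B : Bls G bl) (hb : b ∈ bl) (z : b.2.1 ≠ 0) (N : NC0 G b.2.1 k i)
    (e : cycS (Nat.card G) bl b = true) : False := by
  have F := N.toNF0
  obtain ⟨hv, t, ht⟩ := B.pp b hb z
  have vb := (pr_dvd B hb z).2
  rw [← gcd_pp B hb hv ht dvd_rfl, Nat.gcd_eq_left (B.dvd b hb).2.1] at F
  obtain ⟨dk, dh, di⟩ := nf_dvd F
  have n0 := fun {n} (d : n ∣ Nat.card G) => ne_zero_of_dvd_ne_zero Nat.card_pos.ne' d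
  simp only [cycS, fN_eq, Bool.or_eq_true, Bool.and_eq_true, Bool.not_eq_true',
    ← Bool.not_eq_true, dv_iff, eL_iff, cp_iff, Nat.beq_eq, aN_iff] at e
  rcases e with ⟨c, hc, e1, e2⟩ | ⟨-, e⟩
  · exact e2 (Nat.eq_one_of_dvd_coprimes e1 (keep_left _ _ c) (keep_dvd B F
      ⟨List.singleton_sublist.2 hb, List.forall_mem_singleton.2 dvd_rfl⟩ hc))
  have v2 := hv.two_le
  have w : Nat.card G = b.1 * i * k := by rw [F.prod]; ring
  rcases e i (by have := Nat.le_of_dvd (by omega) F.idx; omega) with (e | e) | ⟨s, hs, e⟩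
  · exact e F.idx
  · exact e (w ▸ dvd_mul_right _ _)
  rw [Nat.div_eq_of_eq_mul_right (Nat.pos_of_ne_zero (mul_ne_zero (n0 dh) (n0 di))) w] at e
  cases z' : cp s.1 k <;> rw [z'] at e <;>
    simp only [cond_true, cond_false, Bool.or_eq_true, Bool.and_eq_true, Bool.not_eq_true',
      ← Bool.not_eq_true, dv_iff, eL_iff, m1_iff, z0_iff, Nat.blt_eq] at e
  · obtain ⟨⟨s1, s2⟩, e⟩ := e
    obtain ⟨hq, a, ha⟩ := B.pp s hs s1
    have qs := (pr_dvd B hs s1).2
    have cy := (B.nd s hs s2 _ hq qs).1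
    have qk : s.2.1 ∣ k := by_contra fun c => by
      simp [cp_iff.2 (ha ▸ (hq.coprime_iff_not_dvd.2 c).pow_left a)] at z'
    rcases e with ⟨e1, e2⟩ | ⟨c, hc, e1, e2⟩
    · exact N.one _ hq cy qk e1 (na_nad B hb hs e2 hv hq vb qs)
    · obtain ⟨c1, c2, -⟩ := B.dvd c hc
      exact e2 ((Nat.dvd_gcd (Nat.div_dvd_of_dvd (c.1.gcd_dvd_left k)) (div_gcd (by omega)
        ((Nat.mul_div_cancel' dk).symm ▸ c2))).trans (dvd_of (n0 (Nat.div_dvd_of_dvd dk))
          fun u hu d => N.two _ u hq hu cy qk (na_nad B hc hs e1 hu hq d qs)))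
  · obtain ⟨c, hc, e1, e2⟩ := e
    exact e2 (gcd_mod B hc dk fun u hu d => blk_mod B hs (pow_pos hu.pos _) fun r hr a =>
      F.free r u hr hu (fun f => Nat.not_coprime_of_dvd_of_dvd hr.one_lt a f (cp_iff.1 z'))
        (na_nad B hc hs e1 hu hr d a))

end Pool.Agent.Lib.MP_7d41f7_al.Ar
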